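import Mathlib

set_option autoImplicit false
set_option linter.unusedSectionVars false

/-! Counting connected subsets in a relation of bounded degree. -/

namespace Pool.Agent.Lib.MP_af2b3e_co.BS

open Finset

variable {α : Type} [DecidableEq α]

/-- Connected for the relation `r` (cut form). -/
def ConnR (r : α → α → Prop) (S : Finset α) : Prop :=
  ∀ K ⊆ S, K.Nonempty → K ≠ S → ∃ f ∈ S, f ∉ K ∧ ∃ g ∈ K, r f g

open Classical in
/-- Extensions of `K` by `s` elements that can be explored from the roots `R`. -/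
noncomputable def Ext (H : Finset α) (r : α → α → Prop) (K R : Finset α) (s : ℕ) :
    Finset (Finset α) :=
  H.powerset.filter fun S => K ⊆ S ∧ (S \ K).card = s ∧
    ∀ K', K ⊆ K' → K' ⊆ S → K' ≠ S → ∃ f ∈ S, f ∉ K' ∧ ∃ g ∈ (K' \ K) ∪ R, r f g

open Classical in
theorem card_ext (H : Finset α) (r : α → α → Prop) (Δ : ℕ)
    (hΔ : ∀ g ∈ H, (H.filter fun f => r f g).card ≤ Δ) :
    ∀ (N s : ℕ) (K R : Finset α), R ⊆ H → R.card + 2 * s ≤ N →
      (Ext H r K R s).card ≤ 2 ^ N * Δ ^ s := by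
  intro N
  induction N with
  | zero =>
    intro s K R _ h
    obtain rfl : s = 0 := by omega
    refine (card_le_card (t := {K}) fun S hS => ?_).trans (by simp)
    obtain ⟨_, h1, h2, _⟩ := mem_filter.1 hS
    rw [mem_singleton]
    exact Subset.antisymm (sdiff_eq_empty_iff_subset.1 (card_eq_zero.1 h2)) h1
  | succ N ih =>
    intro s K R hR h
    rcases s with _ | s
    · refine (card_le_card (t := {K}) fun S hS => ?_).trans
        (by simpa using Nat.one_le_two_pow)
      obtain ⟨_, h1, h2, _⟩ := mem_filter.1 hS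
      rw [mem_singleton]
      exact Subset.antisymm (sdiff_eq_empty_iff_subset.1 (card_eq_zero.1 h2)) h1
    rcases R.eq_empty_or_nonempty with rfl | ⟨ρ, hρ⟩
    · refine (card_le_card (t := ∅) fun S hS => ?_).trans (by simp)
      obtain ⟨_, h1, h2, h3⟩ := mem_filter.1 hS
      obtain ⟨f, _, _, g, hg, _⟩ := h3 K (Subset.refl _) h1 (by
        rintro rfl
        simp at h2)
      simp at hg
    have hsub : Ext H r K R (s + 1) ⊆ Ext H r K (R.erase ρ) (s + 1) ∪
        (H.filter fun f => r f ρ).biUnion fun f => Ext H r (insert f K) (insert f R) s := by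
      intro S hS
      obtain ⟨h0, h1, h2, h3⟩ := mem_filter.1 hS
      by_cases hf : ∃ f ∈ S \ K, r f ρ
      · obtain ⟨f, hf, hr⟩ := hf
        have hf' := mem_sdiff.1 hf
        refine mem_union_right _ (mem_biUnion.2 ⟨f, mem_filter.2 ⟨mem_powerset.1 h0 hf'.1, hr⟩,
          mem_filter.2 ⟨h0, insert_subset hf'.1 h1, ?_, fun K' k1 k2 k3 => ?_⟩⟩)
        · rw [sdiff_insert, card_erase_of_mem hf, h2]; rfl
        · obtain ⟨f', a1, a2, g, hg, a3⟩ := h3 K' ((subset_insert _ _).trans k1) k2 k3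
          refine ⟨f', a1, a2, g, ?_, a3⟩
          simp only [mem_union, mem_sdiff, mem_insert] at hg ⊢
          tauto
      · refine mem_union_left _ (mem_filter.2 ⟨h0, h1, h2, fun K' k1 k2 k3 => ?_⟩)
        obtain ⟨f', a1, a2, g, hg, a3⟩ := h3 K' k1 k2 k3
        refine ⟨f', a1, a2, g, ?_, a3⟩
        have : g ≠ ρ := by
          rintro rfl
          exact hf ⟨f', mem_sdiff.2 ⟨a1, fun h => a2 (k1 h)⟩, a3⟩
        simp only [mem_union, mem_sdiff, mem_erase] at hg ⊢
        tauto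
    have hRc := card_erase_of_mem hρ
    have hRp := card_pos.2 ⟨ρ, hρ⟩
    have h1 := ih (s + 1) K (R.erase ρ) ((erase_subset _ _).trans hR) (by omega)
    have h2 : ((H.filter fun f => r f ρ).biUnion
        fun f => Ext H r (insert f K) (insert f R) s).card ≤ Δ * (2 ^ N * Δ ^ s) := by
      refine (card_biUnion_le_card_mul _ _ (2 ^ N * Δ ^ s) fun f hf => ?_).trans
        (Nat.mul_le_mul_right _ (hΔ ρ (hR hρ)))
      have := card_insert_le f R
      exact ih s _ _ (insert_subset (mem_filter.1 hf).1 hR) (by omega)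
    have h3 := (card_le_card hsub).trans (card_union_le _ _)
    have h4 : 2 ^ (N + 1) * Δ ^ (s + 1) = 2 ^ N * Δ ^ (s + 1) + Δ * (2 ^ N * Δ ^ s) := by ring
    omega

open Classical in
theorem card_conn (H : Finset α) (r : α → α → Prop) (Δ : ℕ)
    (hΔ : ∀ g ∈ H, (H.filter fun f => r f g).card ≤ Δ) (s : ℕ) :
    (H.powerset.filter fun S => S.card = s + 1 ∧ ConnR r S).card ≤
      H.card * (2 ^ (1 + 2 * s) * Δ ^ s) := by
  have hsub : (H.powerset.filter fun S => S.card = s + 1 ∧ ConnR r S) ⊆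
      H.biUnion fun e => Ext H r {e} {e} s := by
    intro S hS
    obtain ⟨h0, h1, h2⟩ := mem_filter.1 hS
    obtain ⟨e, he⟩ : S.Nonempty := card_pos.1 (by omega)
    refine mem_biUnion.2 ⟨e, mem_powerset.1 h0 he, mem_filter.2 ⟨h0, singleton_subset_iff.2 he,
      ?_, fun K' k1 k2 k3 => ?_⟩⟩
    · rw [sdiff_singleton_eq_erase, card_erase_of_mem he, h1]; rfl
    · obtain ⟨f, a1, a2, g, hg, a3⟩ := h2 K' k2 ⟨e, k1 (mem_singleton_self e)⟩ k3
      refine ⟨f, a1, a2, g, ?_, a3⟩
      simp only [mem_union, mem_sdiff, mem_singleton]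
      tauto
  refine (card_le_card hsub).trans (card_biUnion_le_card_mul _ _ _ fun e he => ?_)
  exact card_ext H r Δ hΔ _ s _ _ (singleton_subset_iff.2 he) (by simp)

theorem connR_insert {r : α → α → Prop} (hr : ∀ f g, r f g → r g f) {S : Finset α}
    (hS : ConnR r S) {d d₀ : α} (hd₀ : d₀ ∈ S) (h : r d d₀) : ConnR r (insert d S) := by
  intro K hK hne hKS
  by_cases hdK : d ∈ K
  · by_cases hd0 : d₀ ∈ K
    · have h1 : (K ∩ S).Nonempty := ⟨d₀, mem_inter.2 ⟨hd0, hd₀⟩⟩
      have h2 : K ∩ S ≠ S := fun h => hKS (Subset.antisymm hK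
        (insert_subset hdK (inter_eq_right.1 h)))
      obtain ⟨f, a1, a2, g, hg, a3⟩ := hS _ inter_subset_right h1 h2
      exact ⟨f, mem_insert_of_mem a1, fun h => a2 (mem_inter.2 ⟨h, a1⟩), g,
        (mem_inter.1 hg).1, a3⟩
    · exact ⟨d₀, mem_insert_of_mem hd₀, hd0, d, hdK, hr _ _ h⟩
  · have hK' : K ⊆ S := (subset_insert_iff_of_notMem hdK).1 hK
    by_cases hd0 : d₀ ∈ K
    · exact ⟨d, mem_insert_self _ _, hdK, d₀, hd0, h⟩
    · obtain ⟨f, a1, a2, g, hg, a3⟩ := hS K hK' hne fun h => hd0 (h ▸ hd₀)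
      exact ⟨f, mem_insert_of_mem a1, a2, g, hg, a3⟩

theorem connR_singleton (r : α → α → Prop) (e : α) : ConnR r ({e} : Finset α) := by
  intro K' hK' hne hK
  exact absurd (hne.subset_singleton_iff.1 hK') hK

end Pool.Agent.Lib.MP_af2b3e_co.BS
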