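import Pool.Agent.Lib.MP_af2b3e_co.BSMain

set_option autoImplicit false
set_option linter.unusedSectionVars false

/-! Descriptions of components in almost disjoint hypergraphs: closure, validity, re-rooting. -/

namespace Pool.Agent.Lib.MP_af2b3e_co.BS

open Finset

variable {V : Type} [DecidableEq V]

/-- Points on edges with two points in `X`. -/
def W1 (H : Finset (Finset V)) (X : Finset V) : Finset V :=
  Un (H.filter fun e => 2 ≤ (e ∩ X).card)

/-- Twice iterated closure of the union of a family. -/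
def W2 (H S : Finset (Finset V)) : Finset V := W1 H (W1 H (Un S))

/-- `S` can be explored from `ρ`; edges outside `Λ` are determined by two known points. -/
def Valid (H : Finset (Finset V)) (ρ : Finset V) (S Λ : Finset (Finset V)) : Prop :=
  ρ ∈ Λ ∧ Λ ⊆ S ∧ ∀ T ⊆ S, ρ ∈ T → T ≠ S → ∃ x ∈ S, x ∉ T ∧
    ((x ∈ Λ ∧ ¬ Disjoint x (W2 H T)) ∨ 2 ≤ (x ∩ W2 H T).card)

/-- Number of good edges within distance two. -/
def Nn (A G : Finset (Finset V)) (x : Finset V) : ℕ :=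
  (G.filter fun y => ∃ u ∈ A, ¬ Disjoint x u ∧ ¬ Disjoint u y).card

/-- Cost of a description. -/
def cost (n' w' : ℕ) (N : Finset V → ℕ) (S Λ : Finset (Finset V)) : ℕ :=
  ∑ x ∈ S, if x ∈ Λ then n' else max w' (n' - 4 * N x)

variable {H : Finset (Finset V)}

theorem sub_W1 {X e : Finset V} (he : e ∈ H) (h : 2 ≤ (e ∩ X).card) : e ⊆ W1 H X :=
  sub_un (mem_filter.2 ⟨he, h⟩)

theorem W1_mono {X Y : Finset V} (h : X ⊆ Y) : W1 H X ⊆ W1 H Y :=
  un_mono fun _ he => mem_filter.2 ⟨(mem_filter.1 he).1, (mem_filter.1 he).2.trans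
    (card_le_card (inter_subset_inter (Subset.refl _) h))⟩

theorem W2_mono {S T : Finset (Finset V)} (h : S ⊆ T) : W2 H S ⊆ W2 H T :=
  W1_mono (W1_mono (un_mono h))

theorem un_sub_W1 (h2 : ∀ e ∈ H, 2 ≤ e.card) {S : Finset (Finset V)} (hS : S ⊆ H) :
    Un S ⊆ W1 H (Un S) := fun _ hp => by
  obtain ⟨e, he, hpe⟩ := mem_un.1 hp
  exact sub_W1 (hS he) (by rw [inter_eq_left.2 (sub_un he)]; exact h2 e (hS he)) hpe

theorem un_sub_W2 (h2 : ∀ e ∈ H, 2 ≤ e.card) {S : Finset (Finset V)} (hS : S ⊆ H) :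
    Un S ⊆ W2 H S :=
  (un_sub_W1 h2 hS).trans (un_sub_W1 h2 (filter_subset _ _))

theorem valid_union (h2 : ∀ e ∈ H, 2 ≤ e.card) {ρ ρ' : Finset V} {S Λ S' Λ' : Finset (Finset V)}
    (hS : S ⊆ H) (h : Valid H ρ S Λ) (h' : Valid H ρ' S' Λ') (hm : ¬ Disjoint ρ' (Un S)) :
    Valid H ρ (S ∪ S') (Λ ∪ Λ') := by
  refine ⟨mem_union_left _ h.1, union_subset_union h.2.1 h'.2.1, fun T hT hρ hne => ?_⟩
  have up : ∀ {x : Finset V} {T' L : Finset (Finset V)}, T' ⊆ T → L ⊆ Λ ∪ Λ' →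
      ((x ∈ L ∧ ¬ Disjoint x (W2 H T')) ∨ 2 ≤ (x ∩ W2 H T').card) →
      ((x ∈ Λ ∪ Λ' ∧ ¬ Disjoint x (W2 H T)) ∨ 2 ≤ (x ∩ W2 H T).card) :=
    fun hT' hL h => h.imp (fun h => ⟨hL h.1, fun g => h.2 (g.mono_right (W2_mono hT'))⟩)
      fun h => h.trans (card_le_card (inter_subset_inter (Subset.refl _) (W2_mono hT')))
  by_cases h1 : S ⊆ T
  · by_cases h3 : ρ' ∈ T
    · obtain ⟨x, hx, hxT, hh⟩ := h'.2.2 (T ∩ S') inter_subset_right
        (mem_inter.2 ⟨h3, h'.2.1 h'.1⟩) fun g => hne (Subset.antisymm hT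
          (union_subset h1 (inter_eq_right.1 g)))
      exact ⟨x, mem_union_right _ hx, fun g => hxT (mem_inter.2 ⟨g, hx⟩),
        up inter_subset_left subset_union_right hh⟩
    · exact ⟨ρ', mem_union_right _ (h'.2.1 h'.1), h3, Or.inl ⟨mem_union_right _ h'.1,
        fun g => hm (g.mono_right ((un_sub_W2 h2 hS).trans (W2_mono h1)))⟩⟩
  · obtain ⟨x, hx, hxT, hh⟩ := h.2.2 (T ∩ S) inter_subset_right
      (mem_inter.2 ⟨hρ, h.2.1 h.1⟩) fun g => h1 (inter_eq_right.1 g)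
    exact ⟨x, mem_union_left _ hx, fun g => hxT (mem_inter.2 ⟨g, hx⟩),
      up inter_subset_left subset_union_left hh⟩

theorem valid_conn (h2 : ∀ e ∈ H, 2 ≤ e.card) {d : Finset V} {P : Finset (Finset V)}
    (hP : P ⊆ H) (hc : Conn P) (hd : d ∈ P) : Valid H d P P := by
  refine ⟨hd, Subset.refl _, fun T hT hdT hne => ?_⟩
  obtain ⟨f, hf, hfT, g, hg, hfg⟩ := hc T hT ⟨d, hdT⟩ hne
  exact ⟨f, hf, hfT, Or.inl ⟨hf, fun h => hfg
    (h.mono_right ((sub_un hg).trans (un_sub_W2 h2 (hT.trans hP))))⟩⟩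

theorem valid_insert {ρ e : Finset V} {S Λ Λ' : Finset (Finset V)} (h : Valid H ρ S Λ)
    (h1 : Λ ⊆ Λ') (h3 : Λ' ⊆ insert e S)
    (he : (e ∈ Λ' ∧ ¬ Disjoint e (W2 H S)) ∨ 2 ≤ (e ∩ W2 H S).card) :
    Valid H ρ (insert e S) Λ' := by
  refine ⟨h1 h.1, h3, fun T hT hρ hne => ?_⟩
  have up : ∀ {x : Finset V} {T' L : Finset (Finset V)}, T' ⊆ T → L ⊆ Λ' →
      ((x ∈ L ∧ ¬ Disjoint x (W2 H T')) ∨ 2 ≤ (x ∩ W2 H T').card) →
      ((x ∈ Λ' ∧ ¬ Disjoint x (W2 H T)) ∨ 2 ≤ (x ∩ W2 H T).card) :=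
    fun hT' hL h => h.imp (fun h => ⟨hL h.1, fun g => h.2 (g.mono_right (W2_mono hT'))⟩)
      fun h => h.trans (card_le_card (inter_subset_inter (Subset.refl _) (W2_mono hT')))
  by_cases hS : S ⊆ T
  · exact ⟨e, mem_insert_self _ _, fun g => hne (Subset.antisymm hT (insert_subset g hS)),
      up hS (Subset.refl _) he⟩
  · obtain ⟨x, hx, hxT, hh⟩ := h.2.2 (T ∩ S) inter_subset_right
      (mem_inter.2 ⟨hρ, h.2.1 h.1⟩) fun g => hS (inter_eq_right.1 g)
    exact ⟨x, mem_insert_of_mem hx, fun g => hxT (mem_inter.2 ⟨g, hx⟩),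
      up inter_subset_left h1 hh⟩

/-- Balls in the intersection graph. -/
def Ball (K : Finset (Finset V)) (ρ : Finset V) : ℕ → Finset (Finset V)
  | 0 => {ρ}
  | k + 1 => Ball K ρ k ∪ K.filter fun f => ∃ g ∈ Ball K ρ k, ¬ Disjoint f g

theorem exists_path {K : Finset (Finset V)} (hc : Conn K) {ρ d : Finset V} (hρ : ρ ∈ K)
    (hd : d ∈ K) : ∃ P ⊆ K, d ∈ P ∧ ρ ∈ P ∧ Conn P ∧
      ∀ y ∈ K, (P.filter fun x => ∃ u ∈ K, ¬ Disjoint x u ∧ ¬ Disjoint u y).card ≤ 5 := by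
  classical
  have hex : ∀ x ∈ K, ∃ k, x ∈ Ball K ρ k := by
    by_contra hcon
    obtain ⟨f, hf, hf', g, hg, hfg⟩ := hc (K.filter fun x => ∃ k, x ∈ Ball K ρ k)
      (filter_subset _ _) ⟨ρ, mem_filter.2 ⟨hρ, 0, mem_singleton_self _⟩⟩
      fun h => hcon fun x hx => by rw [← h] at hx; exact (mem_filter.1 hx).2
    obtain ⟨k, hk⟩ := (mem_filter.1 hg).2
    exact hf' (mem_filter.2 ⟨hf, k + 1, mem_union_right _ (mem_filter.2 ⟨hf, g, hk, hfg⟩)⟩)
  let l : Finset V → ℕ := fun x => sInf {k | x ∈ Ball K ρ k}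
  have l1 : ∀ x ∈ K, x ∈ Ball K ρ (l x) := fun x hx => Nat.sInf_mem (hex x hx)
  have l2 : ∀ x k, x ∈ Ball K ρ k → l x ≤ k := fun x k h => Nat.sInf_le h
  have l3 : ∀ x ∈ K, ∀ u ∈ K, ¬ Disjoint x u → l x ≤ l u + 1 := fun x hx u hu h =>
    l2 x _ (mem_union_right _ (mem_filter.2 ⟨hx, u, l1 u hu, h⟩))
  have bK : ∀ k, Ball K ρ k ⊆ K := by
    intro k
    induction k with
    | zero => exact singleton_subset_iff.2 hρ
    | succ k ih => exact union_subset ih (filter_subset _ _)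
  have key : ∀ k, ∀ x ∈ K, l x = k → ∃ P ⊆ K, x ∈ P ∧ ρ ∈ P ∧ Conn P ∧ (∀ z ∈ P, l z ≤ k) ∧
      Set.InjOn l (P : Set (Finset V)) := by
    intro k
    induction k with
    | zero =>
      intro x hx h0
      have := l1 x hx
      rw [h0] at this
      obtain rfl : x = ρ := mem_singleton.1 this
      exact ⟨{x}, singleton_subset_iff.2 hx, mem_singleton_self _, mem_singleton_self _,
        conn_singleton _, fun z hz => by rw [mem_singleton.1 hz, h0], by simp⟩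
    | succ k ih =>
      intro x hx hk
      have h1 := l1 x hx
      rw [hk] at h1
      rcases mem_union.1 h1 with h | h
      · have := l2 x k h
        omega
      obtain ⟨_, g, hg, hxg⟩ := mem_filter.1 h
      have h2 := l2 g k hg
      have h3 := l3 x hx g (bK k hg) hxg
      obtain ⟨P, hPK, hgP, hρP, hPc, hPl, hPi⟩ := ih g (bK k hg) (by omega)
      refine ⟨insert x P, insert_subset hx hPK, mem_insert_self _ _, mem_insert_of_mem hρP,
        ?_, fun z hz => ?_, ?_⟩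
      · rw [insert_eq]
        exact conn_union (conn_singleton x) hPc (mem_singleton_self _) hgP hxg
      · rcases mem_insert.1 hz with rfl | hz
        · exact hk.le
        · exact (hPl z hz).trans (Nat.le_succ _)
      · intro u hu v hv huv
        rcases mem_insert.1 (mem_coe.1 hu) with rfl | hu' <;>
          rcases mem_insert.1 (mem_coe.1 hv) with rfl | hv'
        · rfl
        · have := hPl v hv'
          omega
        · have := hPl u hu'
          omega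
        · exact hPi hu' hv' huv
  obtain ⟨P, hPK, hdP, hρP, hPc, _, hPi⟩ := key _ d hd rfl
  refine ⟨P, hPK, hdP, hρP, hPc, fun y hy => ?_⟩
  refine le_trans (card_le_card_of_injOn (t := Icc (l y - 2) (l y + 2)) l (fun x hx => ?_)
    (hPi.mono fun x hx => (mem_filter.1 hx).1)) (by rw [Nat.card_Icc]; omega)
  obtain ⟨hxP, u, hu, a1, a2⟩ := mem_filter.1 hx
  have b1 := l3 x (hPK hxP) u hu a1
  have b2 := l3 u hu y hy a2
  have b3 := l3 u hu x (hPK hxP) fun h => a1 h.symm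
  have b4 := l3 y hy u hu fun h => a2 h.symm
  exact mem_coe.2 (mem_Icc.2 ⟨by omega, by omega⟩)

theorem nn_mono {A A' G G' : Finset (Finset V)} (hA : A ⊆ A') (hG : G ⊆ G') (x : Finset V) :
    Nn A G x ≤ Nn A' G' x := by
  refine card_le_card fun y hy => ?_
  obtain ⟨h1, u, hu, h2⟩ := mem_filter.1 hy
  exact mem_filter.2 ⟨hG h1, u, hA hu, h2⟩

theorem cost_mono {n' w' : ℕ} {N N' : Finset V → ℕ} (h : ∀ x, N x ≤ N' x)
    (S Λ : Finset (Finset V)) : cost n' w' N' S Λ ≤ cost n' w' N S Λ := by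
  refine sum_le_sum fun x _ => ?_
  have := h x
  split_ifs <;> omega

theorem cost_insert {n' w' : ℕ} {N : Finset V → ℕ} {S Λ Λ' : Finset (Finset V)} {e : Finset V}
    (he : e ∉ S) (h : ∀ x ∈ S, x ∈ Λ' ↔ x ∈ Λ) : cost n' w' N (insert e S) Λ' =
      (if e ∈ Λ' then n' else max w' (n' - 4 * N e)) + cost n' w' N S Λ := by
  unfold cost
  rw [sum_insert he]
  congr 1
  exact sum_congr rfl fun x hx => by simp only [h x hx]

theorem cost_union {n' w' : ℕ} {N : Finset V → ℕ} {S Λ S' Λ' : Finset (Finset V)}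
    (hd : Disjoint S S') (h : Λ ⊆ S) (h' : Λ' ⊆ S') :
    cost n' w' N (S ∪ S') (Λ ∪ Λ') = cost n' w' N S Λ + cost n' w' N S' Λ' := by
  unfold cost
  rw [sum_union hd]
  congr 1
  · refine sum_congr rfl fun x hx => ?_
    have : x ∉ Λ' := fun g => disjoint_left.1 hd hx (h' g)
    simp only [mem_union, this, or_false]
  · refine sum_congr rfl fun x hx => ?_
    have : x ∉ Λ := fun g => disjoint_left.1 hd (h g) hx
    simp only [mem_union, this, false_or]

theorem cost_path {n' w' : ℕ} {N : Finset V → ℕ} {S Λ P : Finset (Finset V)}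
    (h : ∀ x ∈ P, x ∉ S → n' ≤ 4 * N x) :
    cost n' w' N (P ∪ S) (P ∪ Λ) ≤ cost n' w' N S Λ + 4 * ∑ x ∈ P, N x := by
  unfold cost
  have e1 : ∀ {T : Finset (Finset V)} (f : Finset V → ℕ), T ⊆ P ∪ S →
      ∑ x ∈ T, f x = ∑ x ∈ P ∪ S, if x ∈ T then f x else 0 := fun f hT => by
    rw [sum_ite_mem, inter_eq_right.2 hT]
  rw [mul_sum, e1 _ (subset_union_right : S ⊆ P ∪ S),
    e1 (fun x => 4 * N x) (subset_union_left : P ⊆ P ∪ S), ← sum_add_distrib]
  refine sum_le_sum fun x hx => ?_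
  have := h x
  by_cases h1 : x ∈ P <;> by_cases h2 : x ∈ S <;> by_cases h3 : x ∈ Λ <;>
    simp_all <;> omega

theorem cost_ge {n' w' : ℕ} {N : Finset V → ℕ} {S Λ : Finset (Finset V)} (h : Λ ⊆ S) :
    n' * Λ.card + w' * (S \ Λ).card ≤ cost n' w' N S Λ := by
  unfold cost
  rw [← sum_sdiff h, add_comm, mul_comm w', mul_comm n']
  refine Nat.add_le_add (card_nsmul_le_sum _ _ _ fun x hx => ?_)
    (card_nsmul_le_sum _ _ _ fun x hx => ?_)
  · simp [(mem_sdiff.1 hx).2]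
  · simp [hx]

theorem klog_add {k k' : ℕ} (h : k ≤ k') : k' * Nat.log 2 k' + k * Nat.log 2 k + k ≤
    (k' + k) * Nat.log 2 (k' + k) := by
  rcases Nat.eq_zero_or_pos k with rfl | hk
  · simp
  have h1 : Nat.log 2 k' ≤ Nat.log 2 (k' + k) := Nat.log_mono_right (by omega)
  have h2 : Nat.log 2 k + 1 ≤ Nat.log 2 (k' + k) := by
    rw [← Nat.log_mul_base (by norm_num) hk.ne']
    exact Nat.log_mono_right (by omega)
  nlinarith

theorem klog_mono {k k' : ℕ} (h : k ≤ k') : k * Nat.log 2 k ≤ k' * Nat.log 2 k' :=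
  Nat.mul_le_mul h (Nat.log_mono_right h)

theorem card_inter_un (hlin : ∀ e ∈ H, ∀ f ∈ H, e ≠ f → (e ∩ f).card ≤ 1) {x : Finset V}
    (hx : x ∈ H) {S : Finset (Finset V)} (hS : S ⊆ H) (hxS : x ∉ S) :
    (x ∩ Un S).card ≤ (S.filter fun y => ¬ Disjoint x y).card := by
  refine (card_le_card (t := (S.filter fun y => ¬ Disjoint x y).biUnion fun y => x ∩ y)
    fun p hp => ?_).trans ((card_biUnion_le_card_mul _ _ 1 fun y hy => ?_).trans (by simp))
  · obtain ⟨y, hy, hpy⟩ := mem_un.1 (mem_inter.1 hp).2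
    exact mem_biUnion.2 ⟨y, mem_filter.2 ⟨hy, not_disjoint_iff.2 ⟨p, (mem_inter.1 hp).1, hpy⟩⟩,
      mem_inter.2 ⟨(mem_inter.1 hp).1, hpy⟩⟩
  · exact hlin x hx y (hS (mem_filter.1 hy).1) fun h => hxS (h ▸ (mem_filter.1 hy).1)

end Pool.Agent.Lib.MP_af2b3e_co.BS
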