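import Pool.Agent.Lib.MP_af2b3e_co.BSFreeze
import Pool.Agent.Lib.MP_af2b3e_co.BSCount

set_option autoImplicit false
set_option linter.unusedSectionVars false

/-! Exponential neighbourhoods, doubly exponential size. -/

namespace Pool.Agent.Lib.MP_af2b3e_co.BS

open Finset

variable {V : Type} [DecidableEq V]

/-- Edges of `H` meeting some member of `N`. -/
def Nb (H N : Finset (Finset V)) : Finset (Finset V) := H.filter fun e => ∃ d ∈ N, ¬ Disjoint e d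

theorem card_nb {H : Finset (Finset V)} {Δ : ℕ}
    (hΔ : ∀ e ∈ H, (H.filter fun f => ¬ Disjoint f e).card ≤ Δ) {N : Finset (Finset V)}
    (hN : N ⊆ H) : (Nb H N).card ≤ N.card * Δ := by
  refine (card_le_card (t := N.biUnion fun d => H.filter fun f => ¬ Disjoint f d)
    fun e he => ?_).trans (card_biUnion_le_card_mul _ _ _ fun d hd => hΔ d (hN hd))
  obtain ⟨h1, d, hd, h2⟩ := mem_filter.1 he
  exact mem_biUnion.2 ⟨d, hd, mem_filter.2 ⟨h1, h2⟩⟩

theorem nb_sub (H N : Finset (Finset V)) : Nb H N ⊆ H := filter_subset _ _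

/-- Distance at most three in the intersection graph. -/
def R3 (H : Finset (Finset V)) (f g : Finset V) : Prop :=
  ∃ u ∈ H, ∃ v ∈ H, ¬ Disjoint f u ∧ ¬ Disjoint u v ∧ ¬ Disjoint v g

theorem card_un_inter {a : ℕ} {R : Finset V} (S : Finset (Finset V))
    (hS : ∀ d ∈ S, a ≤ (d ∩ R).card) (hd : ∀ d ∈ S, ∀ e ∈ S, d ≠ e → Disjoint d e) :
    a * S.card ≤ (Un S ∩ R).card := by
  have h1 : Un S ∩ R = S.biUnion fun d => d ∩ R := by
    ext p
    simp only [mem_inter, mem_un, mem_biUnion]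
    tauto
  rw [h1, card_biUnion fun d h e h' hne =>
    (hd d h e h' hne).mono inter_subset_left inter_subset_left, mul_comm]
  exact card_nsmul_le_sum S _ a hS

theorem tree3 {H : Finset (Finset V)} {Δ : ℕ} (hne : ∀ e ∈ H, e.Nonempty)
    (hΔ : ∀ e ∈ H, (H.filter fun f => ¬ Disjoint f e).card ≤ Δ)
    {D K : Finset (Finset V)} {F : Finset V} (hDK : D ⊆ K) (hKH : K ⊆ H)
    (hown : ∀ e ∈ K, ∀ p ∈ e, p ∈ F → ∃ d ∈ D, p ∈ d) (hD : D.Nonempty) (hc : ConnF F K) :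
    ∀ i, i * Δ * Δ < K.card → ∃ S ⊆ D, S.card = i + 1 ∧ ConnR (R3 H) S ∧
      ∀ d ∈ S, ∀ e ∈ S, d ≠ e → Disjoint d e := by
  intro i
  induction i with
  | zero =>
    intro _
    obtain ⟨d, hd⟩ := hD
    exact ⟨{d}, singleton_subset_iff.2 hd, card_singleton _, connR_singleton _ _, by simp⟩
  | succ i ih =>
    intro hi
    obtain ⟨S, hSD, hSc, hSn, hSd⟩ := ih (lt_of_le_of_lt
      (Nat.mul_le_mul_right _ (Nat.mul_le_mul_right _ (Nat.le_succ i))) hi)
    have hSH : S ⊆ H := hSD.trans (hDK.trans hKH)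
    have h1 := card_nb hΔ hSH
    have h2 := card_nb hΔ (nb_sub H S)
    have h3 : (Nb H (Nb H S)).card ≤ (i + 1) * Δ * Δ := by
      rw [← hSc]; exact h2.trans (Nat.mul_le_mul_right _ h1)
    obtain ⟨d₀, hd₀⟩ : S.Nonempty := card_pos.1 (by omega)
    have self : ∀ e ∈ H, ¬ Disjoint e e := fun e he h =>
      (hne e he).ne_empty (disjoint_self.1 h)
    obtain ⟨f, hf, hf', g, hg, p, hpF, hpf, hpg⟩ := hc (K ∩ Nb H (Nb H S)) inter_subset_left
      ⟨d₀, mem_inter.2 ⟨hDK (hSD hd₀), mem_filter.2 ⟨hSH hd₀, d₀,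
        mem_filter.2 ⟨hSH hd₀, d₀, hd₀, self d₀ (hSH hd₀)⟩, self d₀ (hSH hd₀)⟩⟩⟩
      (fun h => by
        have := card_le_card (inter_eq_left.1 h)
        omega)
    obtain ⟨d, hd, hpd⟩ := hown f hf p hpf hpF
    have hdH : d ∈ H := hKH (hDK hd)
    have hdN : d ∉ Nb H S := fun h => hf' (mem_inter.2 ⟨hf, mem_filter.2 ⟨hKH hf, d, h,
      not_disjoint_iff.2 ⟨p, hpf, hpd⟩⟩⟩)
    have hdis : ∀ e ∈ S, Disjoint d e := fun e he => by
      by_contra h
      exact hdN (mem_filter.2 ⟨hdH, e, he, h⟩)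
    have hdS : d ∉ S := fun h => self d hdH (hdis d h)
    obtain ⟨hgH, v, hv, hgv⟩ := mem_filter.1 (mem_inter.1 hg).2
    obtain ⟨hvH, w, hw, hvw⟩ := mem_filter.1 hv
    refine ⟨insert d S, insert_subset hd hSD, by rw [card_insert_of_notMem hdS, hSc],
      connR_insert (fun f g ⟨u, hu, v, hv, a1, a2, a3⟩ => ⟨v, hv, u, hu, fun h => a3 h.symm,
        fun h => a2 h.symm, fun h => a1 h.symm⟩) hSn hw
        ⟨g, hgH, v, hvH, not_disjoint_iff.2 ⟨p, hpd, hpg⟩, hgv, hvw⟩, ?_⟩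
    intro u hu e he hue
    rcases mem_insert.1 hu with rfl | hu' <;> rcases mem_insert.1 he with rfl | he'
    · exact absurd rfl hue
    · exact hdis e he'
    · exact (hdis u hu').symm
    · exact hSd u hu' e he' hue

theorem double_exp [Fintype V] {H : Finset (Finset V)} {n Δ : ℕ} (hn1 : 1 ≤ n)
    (hn : ∀ e ∈ H, e.card = n)
    (hΔ : ∀ e ∈ H, (H.filter fun f => ¬ Disjoint f e).card ≤ Δ)
    (hnum : 32 * Δ ^ 5 * (Nat.log 2 H.card + 1) ≤ 2 ^ n) : Loc univ H ∅ ∅ := by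
  classical
  rcases H.eq_empty_or_nonempty with rfl | ⟨e₀, he₀⟩
  · exact loc_empty _ _ _
  have hne : ∀ e ∈ H, e.Nonempty := fun e he => card_pos.1 (by rw [hn e he]; exact hn1)
  have hΔ1 : 1 ≤ Δ := by
    refine le_trans (card_pos.2 ⟨e₀, mem_filter.2 ⟨he₀, fun h => ?_⟩⟩) (hΔ e₀ he₀)
    exact (hne e₀ he₀).ne_empty (disjoint_self.1 h)
  set s := Nat.log 2 H.card with hs
  set a := Nat.clog 2 (8 * Δ ^ 3) with ha
  have hΔ3 : 1 ≤ Δ ^ 3 := Nat.one_le_pow _ _ hΔ1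
  have ha1 : 8 * Δ ^ 3 ≤ 2 ^ a := Nat.le_pow_clog (by norm_num) _
  have ha2 : 2 ^ a < 16 * Δ ^ 3 := by
    have h1 : 2 ^ (a - 1) < 8 * Δ ^ 3 := Nat.pow_pred_clog_lt_self (by norm_num) (by omega)
    have h2 : 1 ≤ a := Nat.clog_pos (by norm_num) (by omega)
    obtain ⟨k, hk⟩ : ∃ k, a = k + 1 := ⟨a - 1, by omega⟩
    rw [hk] at h1 ⊢
    simp only [Nat.add_sub_cancel] at h1
    rw [pow_succ]; omega
  have ha0 : 0 < a := Nat.clog_pos (by norm_num) (by omega)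
  have hT0 : (s * Δ * Δ + 1) * 2 * 2 ^ a ≤ 2 ^ n := by
    have h1 : s * Δ * Δ + 1 ≤ Δ ^ 2 * (s + 1) := by nlinarith
    calc (s * Δ * Δ + 1) * 2 * 2 ^ a ≤ Δ ^ 2 * (s + 1) * 2 * (16 * Δ ^ 3) := by gcongr
      _ = 32 * Δ ^ 5 * (s + 1) := by ring
      _ ≤ 2 ^ n := hnum
  have han : a + 1 ≤ n := by
    have : 2 ^ (a + 1) ≤ 2 ^ n := by
      refine le_trans ?_ hT0
      rw [pow_succ']
      exact Nat.mul_le_mul_right _ (by omega)
    exact (Nat.pow_le_pow_iff_right (by norm_num)).1 this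
  obtain ⟨b, rfl⟩ : ∃ b, n = a + b := ⟨n - a, by omega⟩
  have hT : (s * Δ * Δ + 1) * 2 ^ 1 ≤ 2 ^ b := by
    rw [pow_add, mul_comm (2 ^ a)] at hT0
    exact Nat.le_of_mul_le_mul_right hT0 (by positivity)
  let W := H.powerset.filter fun S => S.card = s + 1 ∧ ConnR (R3 H) S
  refine breaker_freeze (c := fun S => if S ∈ W then (1 / 2 : ℝ) ^ (a * (s + 1)) else 0)
    hn ha0 le_rfl (by omega) hT (fun S => by split_ifs <;> positivity) ?_ ?_
  · rw [sum_ite_mem, univ_inter, sum_const, nsmul_eq_mul]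
    have h1 : W.card ≤ H.card * (2 ^ (1 + 2 * s) * (Δ ^ 3) ^ s) := by
      refine card_conn H (R3 H) (Δ ^ 3) (fun g hg => ?_) s
      have k1 := card_nb hΔ (singleton_subset_iff.2 hg)
      have k2 := card_nb hΔ (nb_sub H {g})
      have k3 := card_nb hΔ (nb_sub H (Nb H {g}))
      rw [card_singleton, one_mul] at k1
      refine (card_le_card (t := Nb H (Nb H (Nb H {g}))) fun f hf => ?_).trans ?_
      · obtain ⟨hfH, u, hu, v, hv, a1, a2, a3⟩ := mem_filter.1 hf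
        exact mem_filter.2 ⟨hfH, u, mem_filter.2 ⟨hu, v, mem_filter.2
          ⟨hv, g, mem_singleton_self g, a3⟩, a2⟩, a1⟩
      · calc _ ≤ Δ * Δ * Δ := k3.trans (Nat.mul_le_mul_right _
              (k2.trans (Nat.mul_le_mul_right _ k1)))
          _ = Δ ^ 3 := by ring
    have h2 : H.card < 2 ^ (s + 1) := Nat.lt_pow_succ_log_self (by norm_num) _
    have h3 : 2 * W.card < 2 ^ (a * (s + 1)) := by
      have k1 : (8 * Δ ^ 3) ^ s ≤ (2 ^ a) ^ s := Nat.pow_le_pow_left ha1 s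
      have k2 : 8 ≤ 2 ^ a := by omega
      calc 2 * W.card ≤ 2 * (H.card * (2 ^ (1 + 2 * s) * (Δ ^ 3) ^ s)) := by omega
        _ < 2 * (2 ^ (s + 1) * (2 ^ (1 + 2 * s) * (Δ ^ 3) ^ s)) := by gcongr
        _ = (8 * Δ ^ 3) ^ s * 8 := by
          rw [mul_pow, show (8 : ℕ) ^ s = 2 ^ s * 2 ^ (2 * s) by
            rw [← pow_add, show s + 2 * s = 3 * s by ring, pow_mul]; norm_num]
          ring
        _ ≤ (2 ^ a) ^ s * 2 ^ a := Nat.mul_le_mul k1 k2
        _ = 2 ^ (a * (s + 1)) := by rw [← pow_succ, ← pow_mul]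
    have h4 : (2 : ℝ) * W.card < 2 ^ (a * (s + 1)) := by exact_mod_cast h3
    rw [← mul_assoc, one_div, inv_pow, mul_inv_lt_iff₀ (by positivity), one_mul]
    exact h4
  · intro D K F R hDK hKH hR hown hact hc hK
    obtain ⟨e, he⟩ : K.Nonempty := card_pos.1 (by omega)
    have hD : D.Nonempty := by
      rcases hact e he with h | h
      · exact ⟨e, h⟩
      · obtain ⟨p, hp⟩ := card_pos.1 h
        obtain ⟨d, hd, _⟩ := hown e he p (mem_inter.1 hp).1 (mem_inter.1 hp).2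
        exact ⟨d, hd⟩
    obtain ⟨S, hSD, hSc, hSn, hSd⟩ := tree3 hne hΔ hDK hKH hown hD hc s hK
    refine ⟨S, hSD, ?_⟩
    have hW : S ∈ W := mem_filter.2 ⟨mem_powerset.2 (hSD.trans (hDK.trans hKH)), hSc, hSn⟩
    have h1 := card_un_inter (R := R) S (fun d hd => hR d (hSD hd)) hSd
    rw [hSc] at h1
    simp only [hW, if_true]
    rw [one_div, inv_pow, inv_mul_eq_div, one_le_div (by positivity)]
    exact pow_le_pow_right₀ (by norm_num) h1

end Pool.Agent.Lib.MP_af2b3e_co.BS
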