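import Pool.Agent.Lib.MP_af2b3e_co.BSMain

set_option autoImplicit false
set_option linter.unusedSectionVars false

/-! Freezing strategy with a subadditive Erdos-Selfridge potential on the components. -/

namespace Pool.Agent.Lib.MP_af2b3e_co.BS

open Finset

variable {V : Type} [DecidableEq V]

/-- `f` and `g` share a point of `F`. -/
def AdjF (F f g : Finset V) : Prop := ∃ p ∈ F, p ∈ f ∧ p ∈ g

theorem AdjF.symm {F f g : Finset V} (h : AdjF F f g) : AdjF F g f := by
  obtain ⟨p, hp, h1, h2⟩ := h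
  exact ⟨p, hp, h2, h1⟩

/-- Connected through points of `F` (cut form). -/
def ConnF (F : Finset V) (K : Finset (Finset V)) : Prop :=
  ∀ K' ⊆ K, K'.Nonempty → K' ≠ K → ∃ f ∈ K, f ∉ K' ∧ ∃ g ∈ K', AdjF F f g

/-- Closed under sharing a point of `F` inside `P`. -/
def ClosedF (F : Finset V) (P K : Finset (Finset V)) : Prop :=
  K ⊆ P ∧ ∀ f ∈ P, ∀ g ∈ K, AdjF F f g → f ∈ K

theorem ClosedF.sdiff {F : Finset V} {P K L : Finset (Finset V)} (hK : ClosedF F P K)
    (hL : ClosedF F P L) : ClosedF F P (K \ L) := by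
  refine ⟨sdiff_subset.trans hK.1, fun f hf g hg hfg => ?_⟩
  have hg' := mem_sdiff.1 hg
  exact mem_sdiff.2 ⟨hK.2 f hf g hg'.1 hfg, fun h => hg'.2 (hL.2 g (hK.1 hg'.1) f h hfg.symm)⟩

theorem exists_comp (F : Finset V) {P : Finset (Finset V)} {e : Finset V} (he : e ∈ P) :
    ∃ K, e ∈ K ∧ ClosedF F P K ∧ ConnF F K ∧ ∀ L, ClosedF F P L → e ∈ L → K ⊆ L := by
  classical
  obtain ⟨K, hK, hmin⟩ := exists_min_image
    (P.powerset.filter fun K => e ∈ K ∧ ClosedF F P K) card
    ⟨P, by simp only [mem_filter, mem_powerset]; exact ⟨Subset.refl _, he, Subset.refl _,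
      fun f hf _ _ _ => hf⟩⟩
  obtain ⟨_, heK, hK⟩ := mem_filter.1 hK
  have hsub : ∀ L, ClosedF F P L → e ∈ L → K ⊆ L := by
    intro L hL heL
    have hc : ClosedF F P (K ∩ L) := ⟨inter_subset_left.trans hK.1, fun f hf g hg hfg =>
      mem_inter.2 ⟨hK.2 f hf g (mem_inter.1 hg).1 hfg, hL.2 f hf g (mem_inter.1 hg).2 hfg⟩⟩
    have := hmin (K ∩ L) (mem_filter.2 ⟨mem_powerset.2 hc.1, mem_inter.2 ⟨heK, heL⟩, hc⟩)
    exact inter_eq_left.1 (eq_of_subset_of_card_le inter_subset_left this)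
  refine ⟨K, heK, hK, fun K' hK' hne hKK => ?_, hsub⟩
  by_contra hcon
  push Not at hcon
  have hc : ClosedF F P K' := ⟨hK'.trans hK.1, fun f hf g hg hfg => by
    by_contra h
    exact hcon f (hK.2 f hf g (hK' hg) hfg) h g hg hfg⟩
  by_cases h : e ∈ K'
  · exact hKK (Subset.antisymm hK' (hsub K' hc h))
  · obtain ⟨g, hg⟩ := hne
    exact (mem_sdiff.1 (hsub _ (hK.sdiff hc) (mem_sdiff.2 ⟨heK, h⟩) (hK' hg))).2 hg

theorem phi_notin {ι : Type} {𝒜 : Finset ι} {A : ι → Finset V} {c : ι → ℝ} {x : V}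
    (h : ∀ i ∈ 𝒜, x ∉ A i) (M B : Finset V) : Phi 𝒜 A c (insert x M) B = Phi 𝒜 A c M B := by
  unfold Phi
  refine sum_congr rfl fun i hi => ?_
  rw [inter_insert_of_notMem (h i hi)]

theorem phi_split {ι : Type} [DecidableEq ι] (𝒜 ℬ : Finset ι) (A : ι → Finset V) (c : ι → ℝ)
    (M B : Finset V) : Phi 𝒜 A c M B = Phi (𝒜 ∩ ℬ) A c M B + Phi (𝒜 \ ℬ) A c M B := by
  unfold Phi
  rw [sum_inter_add_sum_sdiff]

section Main

variable [Fintype V] (H : Finset (Finset V)) (a b j : ℕ) (c : Finset (Finset V) → ℝ)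

/-- Active edges. -/
def Act (D : Finset (Finset V)) (F : Finset V) : Finset (Finset V) :=
  H.filter fun e => e ∈ D ∨ j ≤ (e ∩ F).card

/-- Combinatorial part of the invariant. -/
def Core (M B F : Finset V) (D : Finset (Finset V)) : Prop :=
  Disjoint M B ∧ (∀ d ∈ D, d ∈ H ∧ d ⊆ M ∪ F ∧ (d ∩ (M \ F)).card = a) ∧
    (∀ e ∈ H, e ∉ D → Disjoint e (B \ F) → (e ∩ (M \ F)).card < a) ∧ ∀ p ∈ F, ∃ d ∈ D, p ∈ d

/-- Big potential. -/
def BigP (M B F : Finset V) : Prop :=
  Phi univ Un c (M \ F) (B \ F) < 1 ∧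
    ∀ z, z ∉ M ∪ F → Phi univ Un c (insert z (M \ F)) (B \ F) < 1

/-- Small potential of a family. -/
noncomputable def Psi (K : Finset (Finset V)) (M B : Finset V) : ℝ :=
  Phi K id (fun _ => (1 / 2 : ℝ) ^ b) M B

/-- Small potentials of all closed families. -/
def SmallP (M B F : Finset V) (D : Finset (Finset V)) : Prop :=
  ∀ K, ClosedF F (Act H j D F) K → Psi b K (M ∩ F) B ≤ 2 ^ j * (1 / 2) ^ b * K.card ∧
    ∀ z, z ∉ M → Psi b K (insert z (M ∩ F)) B ≤ 2 ^ j * (1 / 2) ^ b * K.card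

variable {H a b j c}

theorem half_nonneg (b : ℕ) : ∀ _ : Finset V, (0 : ℝ) ≤ (1 / 2) ^ b := fun _ => by positivity

theorem Core.extra {M B F : Finset V} {D : Finset (Finset V)} (h : Core H a M B F D) {y : V}
    (hy : y ∉ M) : Core H a M (insert y B) F D :=
  ⟨disjoint_insert_right.2 ⟨hy, h.1⟩, h.2.1, fun e he heD hd => h.2.2.1 e he heD
    (hd.mono_right (sdiff_subset_sdiff (subset_insert _ _) (Subset.refl _))), h.2.2.2⟩

theorem BigP.extra (hc : ∀ S, 0 ≤ c S) {M B F : Finset V} (h : BigP c M B F) (y : V) :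
    BigP c M (insert y B) F := by
  by_cases hy : y ∈ F
  · unfold BigP
    rw [insert_sdiff_of_mem _ hy]; exact h
  · unfold BigP
    rw [insert_sdiff_of_notMem _ hy]
    exact ⟨(phi_extra hc _ _ _).trans_lt h.1, fun z hz =>
      (phi_extra hc _ _ _).trans_lt (h.2 z hz)⟩

theorem SmallP.extra {M B F : Finset V} {D : Finset (Finset V)} (h : SmallP H b j M B F D)
    (y : V) : SmallP H b j M (insert y B) F D := fun K hK =>
  ⟨(phi_extra (half_nonneg b) _ _ _).trans (h K hK).1, fun z hz =>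
    (phi_extra (half_nonneg b) _ _ _).trans ((h K hK).2 z hz)⟩

theorem psi_fresh {K : Finset (Finset V)} {N B : Finset V} (h : ∀ e ∈ K, (e ∩ N).card ≤ j) :
    Psi b K N B ≤ 2 ^ j * (1 / 2) ^ b * K.card := by
  unfold Psi Phi
  refine (sum_le_card_nsmul K _ (2 ^ j * (1 / 2) ^ b) fun e he => ?_).trans (by
    rw [nsmul_eq_mul, mul_comm])
  split_ifs
  · rw [mul_comm]
    exact mul_le_mul_of_nonneg_right (pow_le_pow_right₀ (by norm_num) (h e he)) (by positivity)
  · positivity

theorem breaker_freeze {T : ℕ} (hn : ∀ e ∈ H, e.card = a + b) (ha : 0 < a) (hj : 1 ≤ j)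
    (hjb : j ≤ b)
    (hT : T * 2 ^ j ≤ 2 ^ b) (hc : ∀ S, 0 ≤ c S) (hsum : 2 * ∑ S, c S < 1)
    (wit : ∀ (D K : Finset (Finset V)) (F R : Finset V), D ⊆ K → K ⊆ H →
      (∀ d ∈ D, a ≤ (d ∩ R).card) → (∀ e ∈ K, ∀ p ∈ e, p ∈ F → ∃ d ∈ D, p ∈ d) →
      (∀ e ∈ K, e ∈ D ∨ j ≤ (e ∩ F).card) → ConnF F K → T ≤ K.card →
      ∃ S₀ ⊆ D, 1 ≤ c S₀ * 2 ^ (Un S₀ ∩ R).card) :
    Loc univ H ∅ ∅ := by
  refine ⟨fun M B => ∃ F D, Core H a M B F D ∧ BigP c M B F ∧ SmallP H b j M B F D,
    ⟨∅, ∅, ⟨by simp, by simp, fun e _ _ _ => by simpa using ha, by simp⟩, ?_, ?_⟩, ?_⟩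
  · have h2 := phi_le_sum (𝒜 := univ) (A := Un) hc (∅ \ ∅) (∅ \ ∅ : Finset V) (by simp)
    have h3 : 0 ≤ ∑ S, c S := sum_nonneg fun S _ => hc S
    refine ⟨by linarith, fun z _ => ?_⟩
    have h1 := phi_double (𝒜 := univ) (A := Un) hc (∅ \ ∅) (∅ \ ∅) z
    linarith
  · intro K hK
    refine ⟨psi_fresh fun e _ => by simp, fun z _ => psi_fresh fun e _ => ?_⟩
    refine (card_le_card inter_subset_right).trans ?_
    simpa using hj
  rintro M B ⟨F, D, hC, hB, hS⟩
  refine ⟨fun e he heM => ?_, fun y hy => ⟨F, D, hC.extra hy, hB.extra hc y, hS.extra y⟩,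
    fun x hx hxB => ?_⟩
  · have heB : Disjoint e B := hC.1.mono_left heM
    have h1 : (e ∩ (M \ F)).card ≤ a := by
      by_cases heD : e ∈ D
      · exact (hC.2.1 e heD).2.2.le
      · exact (hC.2.2.1 e he heD (heB.mono_right sdiff_subset)).le
    have h2 : e ⊆ (e ∩ (M ∩ F)) ∪ (e ∩ (M \ F)) := by
      intro p hp
      have := heM hp
      simp only [mem_union, mem_inter, mem_sdiff]
      tauto
    have h3 := (card_le_card h2).trans (card_union_le _ _)
    have h4 : b ≤ (e ∩ (M ∩ F)).card := by have := hn e he; omega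
    have h5 : (e ∩ (M ∩ F)).card ≤ (e ∩ F).card :=
      card_le_card (inter_subset_inter (Subset.refl _) inter_subset_right)
    have heA : e ∈ Act H j D F := mem_filter.2 ⟨he, Or.inr (by omega)⟩
    obtain ⟨K, heK, hK, hKc, _⟩ := exists_comp F heA
    have hKT : K.card < T := by
      by_contra hcon
      obtain ⟨S₀, hS₀, hw⟩ := wit (D ∩ K) K F (M \ F) inter_subset_right
        (hK.1.trans (filter_subset _ _))
        (fun d hd => (hC.2.1 d (mem_inter.1 hd).1).2.2.ge)
        (fun f hf p hp hpF => by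
          obtain ⟨d, hd, hpd⟩ := hC.2.2.2 p hpF
          exact ⟨d, mem_inter.2 ⟨hd, hK.2 d (mem_filter.2 ⟨(hC.2.1 d hd).1, Or.inl hd⟩) f hf
            ⟨p, hpF, hpd, hp⟩⟩, hpd⟩)
        (fun f hf => (mem_filter.1 (hK.1 hf)).2.imp_left fun h => mem_inter.2 ⟨h, hf⟩)
        hKc (not_lt.1 hcon)
      have hd : Disjoint (Un S₀) (B \ F) := by
        rw [disjoint_left]
        intro p hp hpB
        obtain ⟨d, hd, hpd⟩ := mem_un.1 hp
        rcases mem_union.1 ((hC.2.1 d (mem_inter.1 (hS₀ hd)).1).2.1 hpd) with h | h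
        · exact disjoint_left.1 hC.1 h (mem_sdiff.1 hpB).1
        · exact (mem_sdiff.1 hpB).2 h
      have := le_phi (𝒜 := univ) (A := Un) hc (M \ F) (B \ F) (mem_univ S₀) hd
      linarith [hB.1]
    have h6 := le_phi (𝒜 := K) (A := id) (half_nonneg b) (M ∩ F) B heK heB
    have h7 := (hS K hK).1
    have h8 : (2 : ℝ) ^ b ≤ 2 ^ (e ∩ (M ∩ F)).card := pow_le_pow_right₀ (by norm_num) h4
    have h9 : (K.card : ℝ) * 2 ^ j < 2 ^ b := by
      have : K.card * 2 ^ j < 2 ^ b :=
        lt_of_lt_of_le (Nat.mul_lt_mul_of_pos_right hKT (by positivity)) hT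
      exact_mod_cast this
    have h10 : (0 : ℝ) < (1 / 2) ^ b := by positivity
    unfold Psi at h7
    simp only [id] at h6
    nlinarith
  have hd : Disjoint (insert x M) B := disjoint_insert_left.2 ⟨hxB, hC.1⟩
  by_cases hxF : x ∈ F
  · have e1 : insert x M ∪ F = M ∪ F := by
      rw [insert_union, insert_eq_of_mem (mem_union_right _ hxF)]
    have e2 : insert x M \ F = M \ F := insert_sdiff_of_mem _ hxF
    have e3 : insert x M ∩ F = insert x (M ∩ F) := insert_inter_of_mem hxF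
    have hC1 : Core H a (insert x M) B F D := by
      refine ⟨hd, ?_⟩
      rw [e1, e2]; exact hC.2
    have hB1 : BigP c (insert x M) B F := by
      unfold BigP
      rw [e1, e2]; exact hB
    rcases (univ \ insert x M).eq_empty_or_nonempty with he | hne
    · refine Or.inl ⟨F, D, hC1, hB1, fun K hK => ⟨by rw [e3]; exact (hS K hK).2 x hx,
        fun z hz => ?_⟩⟩
      have : z ∈ univ \ insert x M := mem_sdiff.2 ⟨mem_univ _, hz⟩
      rw [he] at this
      simp at this
    obtain ⟨d, hdD, hxd⟩ := hC.2.2.2 x hxF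
    have hdA : d ∈ Act H j D F := mem_filter.2 ⟨(hC.2.1 d hdD).1, Or.inl hdD⟩
    obtain ⟨K₀, hdK, hK₀, _, hmin⟩ := exists_comp F hdA
    obtain ⟨y, hy, hmax⟩ := es_step (𝒜 := K₀) (A := id) (half_nonneg b) (insert x (M ∩ F)) B _ hne
    have hy' := (mem_sdiff.1 hy).2
    refine Or.inr ⟨mem_univ _, y, mem_univ _, hy', F, D, hC1.extra hy', hB1.extra hc y,
      fun K hK => ?_⟩
    rw [e3]
    refine ⟨(phi_extra (half_nonneg b) _ _ _).trans ((hS K hK).2 x hx), fun z hz => ?_⟩
    have hzM : z ∉ M := fun h => hz (mem_insert_of_mem h)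
    have far : ∀ L, ClosedF F (Act H j D F) L → d ∉ L →
        Psi b L (insert z (insert x (M ∩ F))) (insert y B) ≤ 2 ^ j * (1 / 2) ^ b * L.card := by
      intro L hL hdL
      unfold Psi
      rw [insert_comm, phi_notin (A := id) fun e he hxe => hdL (hL.2 d hdA e he ⟨x, hxF, hxd, hxe⟩)]
      exact (phi_extra (half_nonneg b) _ _ _).trans ((hS L hL).2 z hzM)
    by_cases hdK' : d ∈ K
    · have hsub := hmin K hK hdK'
      have h1 := far _ (hK.sdiff hK₀) fun h => (mem_sdiff.1 h).2 hdK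
      have h2 := (hmax z (mem_sdiff.2 ⟨mem_univ _, hz⟩)).trans ((hS K₀ hK₀).2 x hx)
      have h3 : ((K \ K₀).card : ℝ) + K₀.card = K.card := by
        exact_mod_cast card_sdiff_add_card_eq_card hsub
      unfold Psi at h1 ⊢
      rw [phi_split K K₀, inter_eq_right.2 hsub, ← h3]
      linarith
    · exact far K hK hdK'
  classical
  set R := insert x (M \ F) with hR
  set N := H.filter fun e => e ∉ D ∧ Disjoint e (B \ F) ∧ a ≤ (e ∩ R).card with hN
  set F' := F ∪ (Un N \ insert x M) with hF'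
  have e1 : insert x M \ F' = R := by
    ext p
    rw [hF', hR]
    simp only [mem_sdiff, mem_union, mem_insert]
    constructor
    · tauto
    · rintro (rfl | h) <;> tauto
  have e2 : B \ F' = B \ F := by
    ext p
    rw [hF']
    simp only [mem_sdiff, mem_union]
    constructor
    · tauto
    · rintro ⟨h1, h2⟩
      refine ⟨h1, ?_⟩
      rintro (h | ⟨h, _⟩)
      · exact h2 h
      · obtain ⟨e, he, hpe⟩ := mem_un.1 h
        exact disjoint_left.1 (mem_filter.1 he).2.2.1 hpe (mem_sdiff.2 ⟨h1, h2⟩)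
  have e3 : insert x M ∩ F' = M ∩ F := by
    ext p
    rw [hF']
    simp only [mem_sdiff, mem_union, mem_insert, mem_inter]
    constructor
    · rintro ⟨rfl | h, h'⟩ <;> tauto
    · tauto
  have hC1 : Core H a (insert x M) B F' (D ∪ N) := by
    refine ⟨hd, fun d hd' => ?_, fun e he heD hal => ?_, fun p hp => ?_⟩
    · rw [e1]
      rcases mem_union.1 hd' with h | h
      · obtain ⟨h1, h2, h3⟩ := hC.2.1 d h
        refine ⟨h1, h2.trans (union_subset_union (subset_insert _ _) subset_union_left), ?_⟩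
        rw [hR, inter_insert_of_notMem fun hxd => ?_, h3]
        rcases mem_union.1 (h2 hxd) with h | h
        · exact hx h
        · exact hxF h
      · obtain ⟨h1, h2, h3, h4⟩ := mem_filter.1 h
        refine ⟨h1, fun p hp => ?_, le_antisymm ?_ h4⟩
        · by_cases hpM : p ∈ insert x M
          · exact mem_union_left _ hpM
          · exact mem_union_right _ (mem_union_right _ (mem_sdiff.2 ⟨sub_un h hp, hpM⟩))
        · have h5 := hC.2.2.1 d h1 h2 h3
          have h6 : d ∩ R ⊆ insert x (d ∩ (M \ F)) := by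
            intro p hp
            rw [hR] at hp
            simp only [mem_inter, mem_insert] at hp ⊢
            tauto
          have h7 := (card_le_card h6).trans (card_insert_le _ _)
          omega
    · rw [e1]
      rw [e2] at hal
      rw [mem_union, not_or] at heD
      by_contra hcon
      exact heD.2 (mem_filter.2 ⟨he, heD.1, hal, not_lt.1 hcon⟩)
    · rcases mem_union.1 hp with h | h
      · obtain ⟨d, hd, hpd⟩ := hC.2.2.2 p h
        exact ⟨d, mem_union_left _ hd, hpd⟩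
      · obtain ⟨d, hd, hpd⟩ := mem_un.1 (mem_sdiff.1 h).1
        exact ⟨d, mem_union_right _ hd, hpd⟩
  have hS1 : SmallP H b j (insert x M) B F' (D ∪ N) := by
    intro K hK
    have hAA : Act H j D F ⊆ Act H j (D ∪ N) F' := by
      intro e he
      obtain ⟨h1, h2⟩ := mem_filter.1 he
      refine mem_filter.2 ⟨h1, h2.imp (mem_union_left _) fun h => h.trans (card_le_card
        (inter_subset_inter (Subset.refl _) subset_union_left))⟩
    have hK1 : ClosedF F (Act H j D F) (K ∩ Act H j D F) :=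
      ⟨inter_subset_right, fun f hf g hg ⟨p, hp, h⟩ => mem_inter.2
        ⟨hK.2 f (hAA hf) g (mem_inter.1 hg).1 ⟨p, mem_union_left _ hp, h⟩, hf⟩⟩
    have hfresh : ∀ e ∈ K \ Act H j D F, (e ∩ (M ∩ F)).card < j := by
      intro e he
      have he' := mem_sdiff.1 he
      have heH : e ∈ H := (mem_filter.1 (hK.1 he'.1)).1
      by_contra hcon
      exact he'.2 (mem_filter.2 ⟨heH, Or.inr ((not_lt.1 hcon).trans (card_le_card
        (inter_subset_inter (Subset.refl _) inter_subset_right)))⟩)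
    have h3 : ((K ∩ Act H j D F).card : ℝ) + (K \ Act H j D F).card = K.card := by
      exact_mod_cast card_inter_add_card_sdiff K _
    rw [e3]
    refine ⟨?_, fun z hz => ?_⟩
    · have h1 := (hS _ hK1).1
      have h2 := psi_fresh (b := b) (B := B) fun e he => (hfresh e he).le
      unfold Psi at h1 h2 ⊢
      rw [phi_split K (Act H j D F), ← h3]
      linarith
    · have h1 := (hS _ hK1).2 z fun h => hz (mem_insert_of_mem h)
      have h2 := psi_fresh (b := b) (j := j) (K := K \ Act H j D F) (N := insert z (M ∩ F))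
        (B := B) fun e he => by
          have h4 := hfresh e he
          have h6 : e ∩ insert z (M ∩ F) ⊆ insert z (e ∩ (M ∩ F)) := by
            intro p hp
            simp only [mem_inter, mem_insert] at hp ⊢
            tauto
          have h7 := (card_le_card h6).trans (card_insert_le _ _)
          omega
      unfold Psi at h1 h2 ⊢
      rw [phi_split K (Act H j D F), ← h3]
      linarith
  have hphi1 := hB.2 x (by simp [hx, hxF])
  rcases (univ \ (insert x M ∪ F')).eq_empty_or_nonempty with he | hne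
  · refine Or.inl ⟨F', D ∪ N, hC1, ⟨by rw [e1, e2]; exact hphi1, fun z hz => ?_⟩, hS1⟩
    have : z ∈ univ \ (insert x M ∪ F') := mem_sdiff.2 ⟨mem_univ _, hz⟩
    rw [he] at this
    simp at this
  · obtain ⟨y, hy, hmax⟩ := es_step (𝒜 := univ) (A := Un) hc R (B \ F) _ hne
    have hy' := (mem_sdiff.1 hy).2
    rw [mem_union, not_or] at hy'
    refine Or.inr ⟨mem_univ _, y, mem_univ _, hy'.1, F', D ∪ N, hC1.extra hy'.1, ?_, hS1.extra y⟩
    unfold BigP
    rw [e1, insert_sdiff_of_notMem _ hy'.2, e2]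
    exact ⟨(phi_extra hc _ _ _).trans_lt hphi1, fun z hz =>
      (hmax z (mem_sdiff.2 ⟨mem_univ _, hz⟩)).trans_lt hphi1⟩

end Main

end Pool.Agent.Lib.MP_af2b3e_co.BS
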