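import Pool.Agent.Lib.MP_af2b3e_co.BSOps

set_option autoImplicit false
set_option linter.unusedSectionVars false

/-! Descriptions of components when two edges share at most `τ` points. -/

namespace Pool.Agent.Lib.MP_af2b3e_co.BSK

open Finset BS

variable {V : Type} [DecidableEq V] {θ τ γ : ℕ}

/-- Points on edges with more than `θ` points in `X`. -/
def W1 (θ : ℕ) (H : Finset (Finset V)) (X : Finset V) : Finset V :=
  Un (H.filter fun e => θ + 1 ≤ (e ∩ X).card)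

/-- Twice iterated closure of the union of a family. -/
def W2 (θ : ℕ) (H S : Finset (Finset V)) : Finset V := W1 θ H (W1 θ H (Un S))

/-- `S` can be explored from `ρ`; edges outside `Λ` are determined by `θ + 1` known points. -/
def Valid (θ : ℕ) (H : Finset (Finset V)) (ρ : Finset V) (S Λ : Finset (Finset V)) : Prop :=
  ρ ∈ Λ ∧ Λ ⊆ S ∧ ∀ T ⊆ S, ρ ∈ T → T ≠ S → ∃ x ∈ S, x ∉ T ∧
    ((x ∈ Λ ∧ ¬ Disjoint x (W2 θ H T)) ∨ θ + 1 ≤ (x ∩ W2 θ H T).card)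

variable {H : Finset (Finset V)}

theorem sub_W1 {X e : Finset V} (he : e ∈ H) (h : θ + 1 ≤ (e ∩ X).card) : e ⊆ W1 θ H X :=
  sub_un (mem_filter.2 ⟨he, h⟩)

theorem W1_mono {X Y : Finset V} (h : X ⊆ Y) : W1 θ H X ⊆ W1 θ H Y :=
  un_mono fun _ he => mem_filter.2 ⟨(mem_filter.1 he).1, (mem_filter.1 he).2.trans
    (card_le_card (inter_subset_inter (Subset.refl _) h))⟩

theorem W2_mono {S T : Finset (Finset V)} (h : S ⊆ T) : W2 θ H S ⊆ W2 θ H T :=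
  W1_mono (W1_mono (un_mono h))

theorem un_sub_W1 (h2 : ∀ e ∈ H, θ + 1 ≤ e.card) {S : Finset (Finset V)} (hS : S ⊆ H) :
    Un S ⊆ W1 θ H (Un S) := fun _ hp => by
  obtain ⟨e, he, hpe⟩ := mem_un.1 hp
  exact sub_W1 (hS he) (by rw [inter_eq_left.2 (sub_un he)]; exact h2 e (hS he)) hpe

theorem un_sub_W2 (h2 : ∀ e ∈ H, θ + 1 ≤ e.card) {S : Finset (Finset V)} (hS : S ⊆ H) :
    Un S ⊆ W2 θ H S :=
  (un_sub_W1 h2 hS).trans (un_sub_W1 h2 (filter_subset _ _))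

theorem valid_union (h2 : ∀ e ∈ H, θ + 1 ≤ e.card) {ρ ρ' : Finset V} {S Λ S' Λ' : Finset (Finset V)}
    (hS : S ⊆ H) (h : Valid θ H ρ S Λ) (h' : Valid θ H ρ' S' Λ') (hm : ¬ Disjoint ρ' (Un S)) :
    Valid θ H ρ (S ∪ S') (Λ ∪ Λ') := by
  refine ⟨mem_union_left _ h.1, union_subset_union h.2.1 h'.2.1, fun T hT hρ hne => ?_⟩
  have up : ∀ {x : Finset V} {T' L : Finset (Finset V)}, T' ⊆ T → L ⊆ Λ ∪ Λ' →
      ((x ∈ L ∧ ¬ Disjoint x (W2 θ H T')) ∨ θ + 1 ≤ (x ∩ W2 θ H T').card) →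
      ((x ∈ Λ ∪ Λ' ∧ ¬ Disjoint x (W2 θ H T)) ∨ θ + 1 ≤ (x ∩ W2 θ H T).card) :=
    fun hT' hL h => h.imp (fun h => ⟨hL h.1, fun g => h.2 (g.mono_right (W2_mono hT'))⟩)
      fun h => h.trans (card_le_card (inter_subset_inter (Subset.refl _) (W2_mono hT')))
  by_cases h1 : S ⊆ T
  · by_cases h3 : ρ' ∈ T
    · obtain ⟨x, hx, hxT, hh⟩ := h'.2.2 (T ∩ S') inter_subset_right
        (mem_inter.2 ⟨h3, h'.2.1 h'.1⟩) fun g => hne (Subset.antisymm hT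
          (union_subset h1 (inter_eq_right.1 g)))
      exact ⟨x, mem_union_right _ hx, fun g => hxT (mem_inter.2 ⟨g, hx⟩),
        up inter_subset_left subset_union_right hh⟩
    · exact ⟨ρ', mem_union_right _ (h'.2.1 h'.1), h3, Or.inl ⟨mem_union_right _ h'.1,
        fun g => hm (g.mono_right ((un_sub_W2 h2 hS).trans (W2_mono h1)))⟩⟩
  · obtain ⟨x, hx, hxT, hh⟩ := h.2.2 (T ∩ S) inter_subset_right
      (mem_inter.2 ⟨hρ, h.2.1 h.1⟩) fun g => h1 (inter_eq_right.1 g)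
    exact ⟨x, mem_union_left _ hx, fun g => hxT (mem_inter.2 ⟨g, hx⟩),
      up inter_subset_left subset_union_left hh⟩

theorem valid_conn (h2 : ∀ e ∈ H, θ + 1 ≤ e.card) {d : Finset V} {P : Finset (Finset V)}
    (hP : P ⊆ H) (hc : Conn P) (hd : d ∈ P) : Valid θ H d P P := by
  refine ⟨hd, Subset.refl _, fun T hT hdT hne => ?_⟩
  obtain ⟨f, hf, hfT, g, hg, hfg⟩ := hc T hT ⟨d, hdT⟩ hne
  exact ⟨f, hf, hfT, Or.inl ⟨hf, fun h => hfg
    (h.mono_right ((sub_un hg).trans (un_sub_W2 h2 (hT.trans hP))))⟩⟩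

theorem valid_insert {ρ e : Finset V} {S Λ Λ' : Finset (Finset V)} (h : Valid θ H ρ S Λ)
    (h1 : Λ ⊆ Λ') (h3 : Λ' ⊆ insert e S)
    (he : (e ∈ Λ' ∧ ¬ Disjoint e (W2 θ H S)) ∨ θ + 1 ≤ (e ∩ W2 θ H S).card) :
    Valid θ H ρ (insert e S) Λ' := by
  refine ⟨h1 h.1, h3, fun T hT hρ hne => ?_⟩
  have up : ∀ {x : Finset V} {T' L : Finset (Finset V)}, T' ⊆ T → L ⊆ Λ' →
      ((x ∈ L ∧ ¬ Disjoint x (W2 θ H T')) ∨ θ + 1 ≤ (x ∩ W2 θ H T').card) →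
      ((x ∈ Λ' ∧ ¬ Disjoint x (W2 θ H T)) ∨ θ + 1 ≤ (x ∩ W2 θ H T).card) :=
    fun hT' hL h => h.imp (fun h => ⟨hL h.1, fun g => h.2 (g.mono_right (W2_mono hT'))⟩)
      fun h => h.trans (card_le_card (inter_subset_inter (Subset.refl _) (W2_mono hT')))
  by_cases hS : S ⊆ T
  · exact ⟨e, mem_insert_self _ _, fun g => hne (Subset.antisymm hT (insert_subset g hS)),
      up hS (Subset.refl _) he⟩
  · obtain ⟨x, hx, hxT, hh⟩ := h.2.2 (T ∩ S) inter_subset_right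
      (mem_inter.2 ⟨hρ, h.2.1 h.1⟩) fun g => hS (inter_eq_right.1 g)
    exact ⟨x, mem_insert_of_mem hx, fun g => hxT (mem_inter.2 ⟨g, hx⟩),
      up inter_subset_left h1 hh⟩

theorem card_inter_un (hlin : ∀ e ∈ H, ∀ f ∈ H, e ≠ f → (e ∩ f).card ≤ τ) {x : Finset V}
    (hx : x ∈ H) {S : Finset (Finset V)} (hS : S ⊆ H) (hxS : x ∉ S) :
    (x ∩ Un S).card ≤ τ * (S.filter fun y => ¬ Disjoint x y).card := by
  refine (card_le_card (t := (S.filter fun y => ¬ Disjoint x y).biUnion fun y => x ∩ y)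
    fun p hp => ?_).trans ((card_biUnion_le_card_mul _ _ τ fun y hy => ?_).trans
      (le_of_eq (mul_comm _ _)))
  · obtain ⟨y, hy, hpy⟩ := mem_un.1 (mem_inter.1 hp).2
    exact mem_biUnion.2 ⟨y, mem_filter.2 ⟨hy, not_disjoint_iff.2 ⟨p, (mem_inter.1 hp).1, hpy⟩⟩,
      mem_inter.2 ⟨(mem_inter.1 hp).1, hpy⟩⟩
  · exact hlin x hx y (hS (mem_filter.1 hy).1) fun h => hxS (h ▸ (mem_filter.1 hy).1)

/-- The number of good edges within distance two, times `τ`. -/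
def Nk (τ : ℕ) (A G : Finset (Finset V)) (x : Finset V) : ℕ := τ * Nn A G x

theorem nk_mono {A A' G G' : Finset (Finset V)} (hA : A ⊆ A') (hG : G ⊆ G') (x : Finset V) :
    Nk τ A G x ≤ Nk τ A' G' x := Nat.mul_le_mul_left _ (nn_mono hA hG x)

theorem kl_add (τ : ℕ) {k k' : ℕ} (h : k ≤ k') :
    τ * (k' * Nat.log 2 k') + τ * (k * Nat.log 2 k) + τ * k ≤
      τ * ((k' + k) * Nat.log 2 (k' + k)) := by
  rw [← mul_add, ← mul_add]
  exact Nat.mul_le_mul_left _ (klog_add h)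

theorem kl_mono (τ : ℕ) {k k' : ℕ} (h : k ≤ k') :
    τ * (k * Nat.log 2 k) ≤ τ * (k' * Nat.log 2 k') := Nat.mul_le_mul_left _ (klog_mono h)

end Pool.Agent.Lib.MP_af2b3e_co.BSK
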