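import Pool.Agent.Lib.MP_af2b3e_co.BSFreeze

set_option autoImplicit false
set_option linter.unusedSectionVars false

/-! Freezing strategy with lost points: the game part, over an abstract witness invariant. -/

namespace Pool.Agent.Lib.MP_af2b3e_co.BS

open Finset

variable {V : Type} [DecidableEq V] [Fintype V]

theorem closed_iff {P K : Finset (Finset V)} : Closed P K ↔ ClosedF univ P K := by
  unfold Closed ClosedF AdjF
  simp only [not_disjoint_iff, mem_univ, true_and]

theorem phi_congr {ι : Type} {𝒜 : Finset ι} {A A' : ι → Finset V} {c : ι → ℝ}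
    (h : ∀ i ∈ 𝒜, A i = A' i) (M B : Finset V) : Phi 𝒜 A c M B = Phi 𝒜 A' c M B := by
  unfold Phi
  exact sum_congr rfl fun i hi => by rw [h i hi]

section Main

variable (H : Finset (Finset V)) (a m j : ℕ) {ι : Type} [Fintype ι]
  (Gi : ι → Finset (Finset V)) (c : ι → ℝ)

/-- No witness among the dangerous edges `D` for the real points `R`. -/
def NoWit (R : Finset V) (D : Finset (Finset V)) : Prop :=
  ∀ i, Gi i ⊆ D → c i * 2 ^ (Un (Gi i) ∩ R).card < 1

/-- Combinatorial part of the invariant. -/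
structure Core3 (M B F : Finset V) (D A : Finset (Finset V)) (L : Finset V → Finset V) :
    Prop where
  dis : Disjoint M B
  da : D ⊆ A
  ah : A ⊆ H
  full : ∀ d ∈ D, d ⊆ M ∪ F
  own : F ⊆ Un D
  lost : ∀ e ∈ A, L e ⊆ e ∩ (M ∩ F) ∧ (L e).card ≤ j
  act : ∀ e ∈ A, Disjoint e (B \ F) → (e ∩ (M \ F)).card + (L e).card ≤ a
  pas : ∀ e ∈ H, e ∉ A → Disjoint e (B \ F) → (e ∩ M).card ≤ a
  few : ∀ e ∈ H, e ∉ A → (e ∩ (M ∩ F)).card ≤ j

/-- All pending updates are done. -/
structure Strict3 (M B F : Finset V) (D A : Finset (Finset V)) (L : Finset V → Finset V) :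
    Prop where
  act : ∀ e ∈ A, e ∉ D → Disjoint e (B \ F) → (e ∩ (M \ F)).card + (L e).card < a
  pas : ∀ e ∈ H, e ∉ A → Disjoint e (B \ F) → (e ∩ M).card < a
  few : ∀ e ∈ H, e ∉ A → (e ∩ F).card < j

/-- Big potential. -/
def BigP3 (M B F : Finset V) : Prop :=
  Phi univ (fun i => Un (Gi i)) c (M \ F) (B \ F) < 1 ∧
    ∀ z, z ∉ M ∪ F → Phi univ (fun i => Un (Gi i)) c (insert z (M \ F)) (B \ F) < 1

/-- Small potentials of all closed families. -/
def SmallP3 (M B N : Finset V) (A : Finset (Finset V)) (L : Finset V → Finset V) : Prop :=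
  ∀ K, ClosedF univ A K →
    Phi K (fun e => e \ L e) (fun _ => (1 / 2 : ℝ) ^ m) N B ≤ 2 * (1 / 2) ^ m * K.card ∧
    ∀ z, z ∉ M → Phi K (fun e => e \ L e) (fun _ => (1 / 2 : ℝ) ^ m) (insert z N) B ≤
      2 * (1 / 2) ^ m * K.card

variable {H a m j Gi c}

theorem Core3.extra {M B F : Finset V} {D A : Finset (Finset V)} {L : Finset V → Finset V}
    (h : Core3 H a j M B F D A L) {y : V} (hy : y ∉ M) : Core3 H a j M (insert y B) F D A L :=
  have hs : B \ F ⊆ insert y B \ F := sdiff_subset_sdiff (subset_insert _ _) (Subset.refl _)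
  ⟨disjoint_insert_right.2 ⟨hy, h.dis⟩, h.da, h.ah, h.full, h.own, h.lost,
    fun e he hd => h.act e he (hd.mono_right hs),
    fun e he heA hd => h.pas e he heA (hd.mono_right hs), h.few⟩

theorem Strict3.extra {M B F : Finset V} {D A : Finset (Finset V)} {L : Finset V → Finset V}
    (h : Strict3 H a j M B F D A L) (y : V) : Strict3 H a j M (insert y B) F D A L :=
  have hs : B \ F ⊆ insert y B \ F := sdiff_subset_sdiff (subset_insert _ _) (Subset.refl _)
  ⟨fun e he heD hd => h.act e he heD (hd.mono_right hs),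
    fun e he heA hd => h.pas e he heA (hd.mono_right hs), h.few⟩

theorem BigP3.extra (hc : ∀ i, 0 ≤ c i) {M B F : Finset V} (h : BigP3 Gi c M B F) (y : V) :
    BigP3 Gi c M (insert y B) F := by
  unfold BigP3
  by_cases hy : y ∈ F
  · rw [insert_sdiff_of_mem _ hy]; exact h
  · rw [insert_sdiff_of_notMem _ hy]
    exact ⟨(phi_extra hc _ _ _).trans_lt h.1, fun z hz =>
      (phi_extra hc _ _ _).trans_lt (h.2 z hz)⟩

theorem SmallP3.extra {M B N : Finset V} {A : Finset (Finset V)} {L : Finset V → Finset V}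
    (h : SmallP3 m M B N A L) (y : V) : SmallP3 m M (insert y B) N A L := fun K hK =>
  ⟨(phi_extra (half_nonneg m) _ _ _).trans (h K hK).1, fun z hz =>
    (phi_extra (half_nonneg m) _ _ _).trans ((h K hK).2 z hz)⟩

theorem phi_fresh {K : Finset (Finset V)} {A : Finset V → Finset V} {N B : Finset V}
    (h : ∀ e ∈ K, (A e ∩ N).card ≤ 1) :
    Phi K A (fun _ => (1 / 2 : ℝ) ^ m) N B ≤ 2 * (1 / 2) ^ m * K.card := by
  unfold Phi
  refine (sum_le_card_nsmul K _ (2 * (1 / 2) ^ m) fun e he => ?_).trans (by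
    rw [nsmul_eq_mul, mul_comm])
  split_ifs
  · rw [mul_comm]
    refine mul_le_mul_of_nonneg_right ?_ (by positivity)
    simpa using pow_le_pow_right₀ (a := (2 : ℝ)) (by norm_num) (h e he)
  · positivity

theorem SmallP3.insert_new {M B N : Finset V} {A : Finset (Finset V)} {L : Finset V → Finset V}
    (h : SmallP3 m M B N A L) {e : Finset V} (he : e ∉ A) :
    SmallP3 m M B N (insert e A) (Function.update L e (e ∩ N)) := by
  intro K hK
  have hK1 : ClosedF univ A (K ∩ A) := ⟨inter_subset_right, fun f hf g hg hfg => mem_inter.2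
    ⟨hK.2 f (mem_insert_of_mem hf) g (mem_inter.1 hg).1 hfg, hf⟩⟩
  have h3 : ((K ∩ A).card : ℝ) + (K \ A).card = K.card := by
    exact_mod_cast card_inter_add_card_sdiff K _
  have hcg : ∀ f ∈ K ∩ A, f \ Function.update L e (e ∩ N) f = f \ L f := fun f hf => by
    rw [Function.update_of_ne fun h : f = e => he (h ▸ (mem_inter.1 hf).2)]
  have hfr : ∀ f ∈ K \ A, f \ Function.update L e (e ∩ N) f = e \ (e ∩ N) := fun f hf => by
    have : f = e := (mem_insert.1 (hK.1 (mem_sdiff.1 hf).1)).resolve_right (mem_sdiff.1 hf).2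
    rw [this, Function.update_self]
  refine ⟨?_, fun z hz => ?_⟩
  · rw [phi_split K A, phi_congr hcg, ← h3]
    have h1 := (h _ hK1).1
    have h2 := phi_fresh (m := m) (K := K \ A) (N := N) (B := B)
      (A := fun f => f \ Function.update L e (e ∩ N) f) fun f hf => by
        rw [hfr f hf]
        simp
    linarith
  · rw [phi_split K A, phi_congr hcg, ← h3]
    have h1 := (h _ hK1).2 z hz
    have h2 := phi_fresh (m := m) (K := K \ A) (N := insert z N) (B := B)
      (A := fun f => f \ Function.update L e (e ∩ N) f) fun f hf => by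
        rw [hfr f hf]
        refine (card_le_card (t := {z}) fun p hp => ?_).trans (by simp)
        simp only [mem_inter, mem_sdiff, mem_insert, mem_singleton] at hp ⊢
        tauto
    linarith

theorem noWit_of (hc : ∀ i, 0 ≤ c i) {R Bb : Finset V} {D : Finset (Finset V)}
    (h : Phi univ (fun i => Un (Gi i)) c R Bb < 1) (hD : ∀ d ∈ D, Disjoint d Bb) :
    NoWit Gi c R D := by
  intro i hi
  refine lt_of_le_of_lt (le_phi (𝒜 := univ) (A := fun i => Un (Gi i)) hc R Bb (mem_univ i) ?_) h
  rw [disjoint_left]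
  intro p hp hpB
  obtain ⟨d, hd, hpd⟩ := mem_un.1 hp
  exact disjoint_left.1 (hD d (hi hd)) hpd hpB

theorem Core3.alive {M B F : Finset V} {D A : Finset (Finset V)} {L : Finset V → Finset V}
    (h : Core3 H a j M B F D A L) : ∀ d ∈ D, Disjoint d (B \ F) := by
  intro d hd
  rw [disjoint_left]
  intro p hp hpB
  rcases mem_union.1 (h.full d hd hp) with g | g
  · exact disjoint_left.1 h.dis g (mem_sdiff.1 hpB).1
  · exact (mem_sdiff.1 hpB).2 g

theorem freeze_eqs {M B F e : Finset V} (he : Disjoint e (B \ F)) :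
    M \ (F ∪ e \ M) = M \ F ∧ M ∩ (F ∪ e \ M) = M ∩ F ∧ B \ (F ∪ e \ M) = B \ F := by
  refine ⟨?_, ?_, ?_⟩
  · ext p; simp only [mem_sdiff, mem_union]; tauto
  · ext p; simp only [mem_sdiff, mem_union, mem_inter]; tauto
  · ext p
    have : p ∈ e → p ∉ B \ F := fun h => disjoint_left.1 he h
    simp only [mem_sdiff, mem_union] at this ⊢
    tauto

theorem update3 (hc : ∀ i, 0 ≤ c i)
    {𝒲 : Finset V → Finset (Finset V) → Finset (Finset V) → Prop}
    (wact : ∀ R D A e, 𝒲 R D A → e ∈ H → e ∉ A → j ≤ (e ∩ Un D).card → NoWit Gi c R D →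
      𝒲 R D (insert e A))
    (wdang : ∀ R D A e L, 𝒲 R D A → e ∈ H → e ∉ D → L ⊆ e ∩ Un D → L.card ≤ j →
      Disjoint L R → a ≤ (e ∩ R).card + L.card → NoWit Gi c R (insert e D) →
      𝒲 R (insert e D) (insert e A)) {M B : Finset V} :
    ∀ (k : ℕ) (F : Finset V) (D A : Finset (Finset V)) (L : Finset V → Finset V),
      2 * H.card ≤ D.card + A.card + k → Core3 H a j M B F D A L → BigP3 Gi c M B F →
      SmallP3 m M B (M ∩ F) A L → 𝒲 (M \ F) D A →
      ∃ F D A L, Core3 H a j M B F D A L ∧ Strict3 H a j M B F D A L ∧ BigP3 Gi c M B F ∧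
        SmallP3 m M B (M ∩ F) A L ∧ 𝒲 (M \ F) D A := by
  intro k
  induction k with
  | zero =>
    intro F D A L hk hC hB hS hW
    have h1 := card_le_card hC.ah
    have h2 := card_le_card hC.da
    have hA : A = H := eq_of_subset_of_card_le hC.ah (by omega)
    have hD : D = A := eq_of_subset_of_card_le hC.da (by omega)
    exact ⟨F, D, A, L, hC, ⟨fun e he heD => absurd (hD ▸ he) heD,
      fun e he heA => absurd (hA ▸ he) heA, fun e he heA => absurd (hA ▸ he) heA⟩, hB, hS, hW⟩
  | succ k ih =>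
    intro F D A L hk hC hB hS hW
    have nw : ∀ e, Disjoint e (B \ F) → NoWit Gi c (M \ F) (insert e D) := fun e he =>
      noWit_of hc hB.1 fun d hd => by
        rcases mem_insert.1 hd with rfl | hd
        · exact he
        · exact hC.alive d hd
    have hB' : ∀ e, Disjoint e (B \ F) → BigP3 Gi c M B (F ∪ e \ M) := fun e he => by
      obtain ⟨e1, _, e3⟩ := freeze_eqs (M := M) he
      unfold BigP3
      rw [e1, e3]
      exact ⟨hB.1, fun z hz => hB.2 z fun h =>
        hz (union_subset_union (Subset.refl _) subset_union_left h)⟩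
    have hfull : ∀ e, ∀ d ∈ insert e D, d ⊆ M ∪ (F ∪ e \ M) := fun e d hd => by
      rcases mem_insert.1 hd with rfl | hd
      · intro p hp
        simp only [mem_union, mem_sdiff]
        tauto
      · exact (hC.full d hd).trans (union_subset_union (Subset.refl _) subset_union_left)
    have hown : ∀ e, F ∪ e \ M ⊆ Un (insert e D) := fun e => by
      rw [un_insert, union_comm]
      exact union_subset_union sdiff_subset hC.own
    have hLR : ∀ X : Finset V, X ⊆ M ∩ F → Disjoint X (M \ F) := fun X hX =>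
      disjoint_sdiff_self_right.mono_left (hX.trans inter_subset_right)
    have hupd : ∀ e, e ∈ H → e ∉ A → ∀ f ∈ insert e A,
        Function.update L e (e ∩ (M ∩ F)) f ⊆ f ∩ (M ∩ F) ∧
          (Function.update L e (e ∩ (M ∩ F)) f).card ≤ j := fun e he heA f hf => by
      rcases mem_insert.1 hf with rfl | hf
      · rw [Function.update_self]; exact ⟨Subset.refl _, hC.few f he heA⟩
      · rw [Function.update_of_ne fun h : f = e => heA (h ▸ hf)]; exact hC.lost f hf
    have hsplit : ∀ e : Finset V, (e ∩ (M \ F)).card + (e ∩ (M ∩ F)).card = (e ∩ M).card := by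
      intro e
      rw [← inter_sdiff_assoc, ← inter_assoc]
      exact card_sdiff_add_card_inter _ _
    have hupd2 : ∀ e, e ∈ H → e ∉ A → ∀ f ∈ insert e A, Disjoint f (B \ F) →
        (f ∩ (M \ F)).card + (Function.update L e (e ∩ (M ∩ F)) f).card ≤ a :=
      fun e he heA f hf hd => by
        rcases mem_insert.1 hf with rfl | hf
        · rw [Function.update_self, hsplit]; exact hC.pas f he heA hd
        · rw [Function.update_of_ne fun h : f = e => heA (h ▸ hf)]; exact hC.act f hf hd
    by_cases h1 : ∃ e ∈ A, e ∉ D ∧ Disjoint e (B \ F) ∧ a ≤ (e ∩ (M \ F)).card + (L e).card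
    · obtain ⟨e, heA, heD, hal, hpr⟩ := h1
      obtain ⟨e1, e2, e3⟩ := freeze_eqs (M := M) hal
      have hL := (hC.lost e heA).1
      have hw := wdang _ D A e (L e) hW (hC.ah heA) heD (fun p hp => mem_inter.2
        ⟨(mem_inter.1 (hL hp)).1, hC.own (mem_inter.1 (mem_inter.1 (hL hp)).2).2⟩)
        (hC.lost e heA).2 (hLR _ (hL.trans inter_subset_right)) hpr (nw e hal)
      rw [insert_eq_of_mem heA] at hw
      refine ih (F ∪ e \ M) (insert e D) A L (by rw [card_insert_of_notMem heD]; omega)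
        ⟨hC.dis, insert_subset heA hC.da, hC.ah, hfull e, hown e, ?_, ?_, ?_, ?_⟩ (hB' e hal)
        (by rw [e2]; exact hS) (by rw [e1]; exact hw)
      · rw [e2]; exact hC.lost
      · rw [e1, e3]; exact hC.act
      · rw [e3]; exact hC.pas
      · rw [e2]; exact hC.few
    by_cases h2 : ∃ e ∈ H, e ∉ A ∧ Disjoint e (B \ F) ∧ a ≤ (e ∩ M).card
    · obtain ⟨e, he, heA, hal, hpr⟩ := h2
      obtain ⟨e1, e2, e3⟩ := freeze_eqs (M := M) hal
      have heD : e ∉ D := fun h => heA (hC.da h)
      have hw := wdang _ D A e (e ∩ (M ∩ F)) hW he heD (inter_subset_inter (Subset.refl _)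
        (inter_subset_right.trans hC.own)) (hC.few e he heA) (hLR _ inter_subset_right)
        (by rw [hsplit]; exact hpr) (nw e hal)
      refine ih (F ∪ e \ M) (insert e D) (insert e A) (Function.update L e (e ∩ (M ∩ F)))
        (by rw [card_insert_of_notMem heD, card_insert_of_notMem heA]; omega)
        ⟨hC.dis, insert_subset_insert _ hC.da, insert_subset he hC.ah, hfull e, hown e,
          ?_, ?_, ?_, ?_⟩ (hB' e hal) (by rw [e2]; exact hS.insert_new heA)
        (by rw [e1]; exact hw)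
      · rw [e2]; exact hupd e he heA
      · rw [e1, e3]; exact hupd2 e he heA
      · rw [e3]; exact fun f hf hfA => hC.pas f hf fun h => hfA (mem_insert_of_mem h)
      · rw [e2]; exact fun f hf hfA => hC.few f hf fun h => hfA (mem_insert_of_mem h)
    by_cases h3 : ∃ e ∈ H, e ∉ A ∧ j ≤ (e ∩ F).card
    · obtain ⟨e, he, heA, hpr⟩ := h3
      have hw := wact _ D A e hW he heA (hpr.trans (card_le_card
        (inter_subset_inter (Subset.refl _) hC.own))) (noWit_of hc hB.1 hC.alive)
      exact ih F D (insert e A) (Function.update L e (e ∩ (M ∩ F)))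
        (by rw [card_insert_of_notMem heA]; omega)
        ⟨hC.dis, hC.da.trans (subset_insert _ _), insert_subset he hC.ah, hC.full, hC.own,
          hupd e he heA, hupd2 e he heA,
          fun f hf hfA => hC.pas f hf fun h => hfA (mem_insert_of_mem h),
          fun f hf hfA => hC.few f hf fun h => hfA (mem_insert_of_mem h)⟩ hB
        (hS.insert_new heA) hw
    push Not at h1 h2 h3
    exact ⟨F, D, A, L, hC, ⟨h1, h2, h3⟩, hB, hS, hW⟩

theorem breaker_lost {T : ℕ} (hn : ∀ e ∈ H, e.card = a + m) (ha : 0 < a) (hm : 0 < m)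
    (hj : 0 < j) (hT : 2 * T < 2 ^ m) (hc : ∀ i, 0 ≤ c i) (hsum : 2 * ∑ i, c i < 1)
    {𝒲 : Finset V → Finset (Finset V) → Finset (Finset V) → Prop} (w0 : 𝒲 ∅ ∅ ∅)
    (wmono : ∀ R R' D A, R ⊆ R' → 𝒲 R D A → 𝒲 R' D A)
    (wact : ∀ R D A e, 𝒲 R D A → e ∈ H → e ∉ A → j ≤ (e ∩ Un D).card → NoWit Gi c R D →
      𝒲 R D (insert e A))
    (wdang : ∀ R D A e L, 𝒲 R D A → e ∈ H → e ∉ D → L ⊆ e ∩ Un D → L.card ≤ j →
      Disjoint L R → a ≤ (e ∩ R).card + L.card → NoWit Gi c R (insert e D) →
      𝒲 R (insert e D) (insert e A))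
    (wsize : ∀ R D A, 𝒲 R D A → ∀ e ∈ A, ∃ K, e ∈ K ∧ Closed A K ∧ K.card ≤ T) :
    Loc univ H ∅ ∅ := by
  refine ⟨fun M B => ∃ F D A L, Core3 H a j M B F D A L ∧ Strict3 H a j M B F D A L ∧
    BigP3 Gi c M B F ∧ SmallP3 m M B (M ∩ F) A L ∧ 𝒲 (M \ F) D A,
    ⟨∅, ∅, ∅, fun _ => ∅, ⟨by simp, by simp, by simp, by simp, by simp, by simp, by simp,
      by simp, by simp⟩, ⟨by simp, fun _ _ _ _ => by simpa using ha,
      fun _ _ _ => by simpa using hj⟩, ?_, ?_, by simpa using w0⟩, ?_⟩
  · have h2 := phi_le_sum (𝒜 := univ) (A := fun i => Un (Gi i)) hc (∅ \ ∅) (∅ \ ∅ : Finset V)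
      (by simp)
    have h3 : 0 ≤ ∑ S, c S := sum_nonneg fun S _ => hc S
    refine ⟨by linarith, fun z _ => ?_⟩
    have h1 := phi_double (𝒜 := univ) (A := fun i => Un (Gi i)) hc (∅ \ ∅) (∅ \ ∅) z
    linarith
  · intro K hK
    rw [subset_empty.1 hK.1]
    simp [Phi]
  rintro M B ⟨F, D, A, L, hC, hSt, hB, hS, hW⟩
  refine ⟨fun e he heM => ?_, fun y hy => ⟨F, D, A, L, hC.extra hy, hSt.extra y, hB.extra hc y,
    hS.extra y, hW⟩, fun x hx hxB => ?_⟩
  · have heB : Disjoint e B := hC.dis.mono_left heM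
    have heB' : Disjoint e (B \ F) := heB.mono_right sdiff_subset
    have heA : e ∈ A := by
      by_contra h
      have := hC.pas e he h heB'
      rw [inter_eq_left.2 heM, hn e he] at this
      omega
    have h1 := hC.act e heA heB'
    have h2 : e ⊆ ((e \ L e) ∩ (M ∩ F)) ∪ ((e ∩ (M \ F)) ∪ L e) := by
      intro p hp
      have := heM hp
      simp only [mem_union, mem_inter, mem_sdiff]
      tauto
    have h3 := (card_le_card h2).trans (card_union_le _ _)
    have h3' := card_union_le (e ∩ (M \ F)) (L e)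
    have h4 : m ≤ ((e \ L e) ∩ (M ∩ F)).card := by have := hn e he; omega
    obtain ⟨K, heK, hK, hKT⟩ := wsize _ D A hW e heA
    have h6 := le_phi (𝒜 := K) (A := fun e => e \ L e) (half_nonneg m) (M ∩ F) B heK
      (heB.mono_left sdiff_subset)
    have h7 := (hS K (closed_iff.1 hK)).1
    have h8 : (2 : ℝ) ^ m ≤ 2 ^ ((e \ L e) ∩ (M ∩ F)).card := pow_le_pow_right₀ (by norm_num) h4
    have h9 : 2 * (K.card : ℝ) < 2 ^ m := by
      have : 2 * K.card < 2 ^ m := by omega
      exact_mod_cast this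
    have h10 : (0 : ℝ) < (1 / 2) ^ m := by positivity
    nlinarith
  have hd : Disjoint (insert x M) B := disjoint_insert_left.2 ⟨hxB, hC.dis⟩
  have hins : ∀ (e X : Finset V), (e ∩ insert x X).card ≤ (e ∩ X).card + 1 := fun e X => by
    refine (card_le_card (t := insert x (e ∩ X)) fun p hp => ?_).trans (card_insert_le _ _)
    simp only [mem_inter, mem_insert] at hp ⊢
    tauto
  have hC1 : Core3 H a j (insert x M) B F D A L := by
    refine ⟨hd, hC.da, hC.ah, fun d hd => (hC.full d hd).trans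
      (union_subset_union (subset_insert _ _) (Subset.refl _)), hC.own,
      fun e he => ⟨(hC.lost e he).1.trans (inter_subset_inter (Subset.refl _)
        (inter_subset_inter (subset_insert _ _) (Subset.refl _))), (hC.lost e he).2⟩,
      fun e he hal => ?_, fun e he heA hal => ?_, fun e he heA => ?_⟩
    · by_cases hxF : x ∈ F
      · rw [insert_sdiff_of_mem _ hxF]; exact hC.act e he hal
      · rw [insert_sdiff_of_notMem _ hxF]
        by_cases heD : e ∈ D
        · rw [inter_insert_of_notMem fun h => ?_]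
          · exact hC.act e he hal
          · rcases mem_union.1 (hC.full e heD h) with h | h
            · exact hx h
            · exact hxF h
        · have := hSt.act e he heD hal
          have := hins e (M \ F)
          omega
    · have := hSt.pas e he heA hal
      have := hins e M
      omega
    · have := hSt.few e he heA
      have := card_le_card (inter_subset_inter (Subset.refl e)
        (inter_subset_right : insert x M ∩ F ⊆ F))
      omega
  have hW1 : 𝒲 (insert x M \ F) D A :=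
    wmono _ _ D A (sdiff_subset_sdiff (subset_insert _ _) (Subset.refl _)) hW
  have fin := fun B' => update3 (m := m) (M := insert x M) (B := B') hc wact wdang
    (2 * H.card) F D A L (by omega)
  by_cases hxF : x ∈ F
  · have e1 : insert x M ∪ F = M ∪ F := by
      rw [insert_union, insert_eq_of_mem (mem_union_right _ hxF)]
    have e2 : insert x M \ F = M \ F := insert_sdiff_of_mem _ hxF
    have e3 : insert x M ∩ F = insert x (M ∩ F) := insert_inter_of_mem hxF
    have hB1 : BigP3 Gi c (insert x M) B F := by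
      unfold BigP3
      rw [e1, e2]; exact hB
    rcases (univ \ insert x M).eq_empty_or_nonempty with he | hne
    · refine Or.inl (fin B hC1 hB1 (fun K hK => ⟨by rw [e3]; exact (hS K hK).2 x hx,
        fun z hz => ?_⟩) hW1)
      have : z ∈ univ \ insert x M := mem_sdiff.2 ⟨mem_univ _, hz⟩
      rw [he] at this
      simp at this
    obtain ⟨d, hdD, hxd⟩ := mem_un.1 (hC.own hxF)
    have hdA : d ∈ A := hC.da hdD
    obtain ⟨K₀, hdK, hK₀, _, hmin⟩ := exists_comp univ hdA
    obtain ⟨y, hy, hmax⟩ := es_step (𝒜 := K₀) (A := fun e => e \ L e) (half_nonneg m)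
      (insert x (M ∩ F)) B _ hne
    have hy' := (mem_sdiff.1 hy).2
    refine Or.inr ⟨mem_univ _, y, mem_univ _, hy', fin _ (hC1.extra hy') (hB1.extra hc y)
      (fun K hK => ?_) hW1⟩
    rw [e3]
    refine ⟨(phi_extra (half_nonneg m) _ _ _).trans ((hS K hK).2 x hx), fun z hz => ?_⟩
    have hzM : z ∉ M := fun h => hz (mem_insert_of_mem h)
    have far : ∀ K', ClosedF univ A K' → d ∉ K' →
        Phi K' (fun e => e \ L e) (fun _ => (1 / 2 : ℝ) ^ m) (insert z (insert x (M ∩ F)))
          (insert y B) ≤ 2 * (1 / 2) ^ m * K'.card := by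
      intro K' hL hdL
      rw [insert_comm, phi_notin (A := fun e => e \ L e) fun e he hxe =>
        hdL (hL.2 d hdA e he ⟨x, mem_univ _, hxd, (mem_sdiff.1 hxe).1⟩)]
      exact (phi_extra (half_nonneg m) _ _ _).trans ((hS K' hL).2 z hzM)
    by_cases hdK' : d ∈ K
    · have hsub := hmin K hK hdK'
      have h1 := far _ (hK.sdiff hK₀) fun h => (mem_sdiff.1 h).2 hdK
      have h2 := (hmax z (mem_sdiff.2 ⟨mem_univ _, hz⟩)).trans ((hS K₀ hK₀).2 x hx)
      have h3 : ((K \ K₀).card : ℝ) + K₀.card = K.card := by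
        exact_mod_cast card_sdiff_add_card_eq_card hsub
      rw [phi_split K K₀, inter_eq_right.2 hsub, ← h3]
      linarith
    · exact far K hK hdK'
  have e1 : insert x M \ F = insert x (M \ F) := insert_sdiff_of_notMem _ hxF
  have hS1 : SmallP3 m (insert x M) B (insert x M ∩ F) A L := by
    rw [insert_inter_of_notMem hxF]
    exact fun K hK => ⟨(hS K hK).1, fun z hz => (hS K hK).2 z fun h => hz (mem_insert_of_mem h)⟩
  have hphi1 := hB.2 x (by simp [hx, hxF])
  rcases (univ \ (insert x M ∪ F)).eq_empty_or_nonempty with he | hne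
  · refine Or.inl (fin B hC1 ⟨by rw [e1]; exact hphi1, fun z hz => ?_⟩ hS1 hW1)
    have : z ∈ univ \ (insert x M ∪ F) := mem_sdiff.2 ⟨mem_univ _, hz⟩
    rw [he] at this
    simp at this
  · obtain ⟨y, hy, hmax⟩ := es_step (𝒜 := univ) (A := fun i => Un (Gi i)) hc
      (insert x (M \ F)) (B \ F) _ hne
    have hy' := (mem_sdiff.1 hy).2
    rw [mem_union, not_or] at hy'
    refine Or.inr ⟨mem_univ _, y, mem_univ _, hy'.1, fin _ (hC1.extra hy'.1) ?_ (hS1.extra y) hW1⟩
    unfold BigP3
    rw [e1, insert_sdiff_of_notMem _ hy'.2]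
    exact ⟨(phi_extra hc _ _ _).trans_lt hphi1, fun z hz =>
      (hmax z (mem_sdiff.2 ⟨mem_univ _, hz⟩)).trans_lt hphi1⟩

end Main

end Pool.Agent.Lib.MP_af2b3e_co.BS
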