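import Pool.Agent.Lib.MP_af2b3e_co.BSKWit

set_option autoImplicit false
set_option linter.unusedSectionVars false

/-! The update operations preserve the witness invariant. -/

namespace Pool.Agent.Lib.MP_af2b3e_co.BSK

open Finset BS

variable {V : Type} [DecidableEq V] {θ τ γ : ℕ}

variable {H G D A : Finset (Finset V)} {n m n' w' g ν s l : ℕ} {R : Finset V}

theorem ineq_step {N N' : Finset V → ℕ} {GK GK' S Λ Λ' : Finset (Finset V)} {e : Finset V}
    {sp debt ε : ℕ} (h : Ineq τ n' w' g N R GK S Λ w' 0) (he : e ∉ S) (hN : ∀ x, N x ≤ N' x)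
    (hΛ : ∀ x ∈ S, x ∈ Λ' ↔ x ∈ Λ) (hk : GK'.card = GK.card + ε)
    (hv : (if e ∈ Λ' then n' else max w' (n' - 4 * N' e)) + sp + g * ε + (Un GK ∩ R).card ≤
      w' + (Un GK' ∩ R).card + debt) : Ineq τ n' w' g N' R GK' (insert e S) Λ' sp debt := by
  unfold Ineq at h ⊢
  rw [cost_insert he hΛ]
  have h1 := cost_mono (n' := n') (w' := w') hN S Λ
  have h2 := kl_mono τ (show GK.card ≤ GK'.card by omega)
  have h3 : g * GK'.card = g * GK.card + g * ε := by rw [hk, mul_add]
  omega

theorem pick (hc : Comps θ τ H n' w' g s R G A) {e : Finset V} (h : ∃ d ∈ A, ¬ Disjoint d e) :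
    ∃ K₁, Closed A K₁ ∧ Conn (insert e K₁) ∧ (G ∩ K₁).card ≤ s * (e ∩ Un K₁).card ∧
      ¬ Disjoint e (Un K₁) ∧ Desc θ τ H n' w' g (Nk τ A G) R (G ∩ K₁) K₁ w' 0 ∧
      ∀ d ∈ A, ¬ Disjoint d e → ∃ K, d ∈ K ∧ Closed A K ∧ Conn K ∧ (G ∩ K).card < s ∧
        Desc θ τ H n' w' g (Nk τ A G) R (G ∩ K) K w' 0 ∧ (G ∩ K).card ≤ (G ∩ K₁).card := by
  classical
  choose! κ hκ using hc
  obtain ⟨d, hd, hde⟩ := h
  obtain ⟨d₁, hd₁, hmax⟩ := exists_max_image (A.filter fun d => ¬ Disjoint d e)
    (fun d => (G ∩ κ d).card) ⟨d, mem_filter.2 ⟨hd, hde⟩⟩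
  obtain ⟨a1, a2⟩ := mem_filter.1 hd₁
  obtain ⟨b1, b2, b3, b4, b5⟩ := hκ d₁ a1
  have hm : ¬ Disjoint e (Un (κ d₁)) := fun h => a2 (h.symm.mono_left (sub_un b1))
  refine ⟨κ d₁, b2, ?_, ?_, hm, b5, fun d hd hde => ⟨κ d, (hκ d hd).1, (hκ d hd).2.1,
    (hκ d hd).2.2.1, (hκ d hd).2.2.2.1, (hκ d hd).2.2.2.2, hmax d (mem_filter.2 ⟨hd, hde⟩)⟩⟩
  · rw [insert_eq]
    exact conn_union (conn_singleton e) b3 (mem_singleton_self _) b1 fun h => a2 h.symm
  · have := card_pos.2 (not_disjoint_iff_nonempty_inter.1 hm)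
    exact b4.le.trans (Nat.le_mul_of_pos_right _ this)

theorem merge_bad (p : Par θ τ γ H n m n' w' g ν s l) (b : Base H G D A ν)
    (hc : Comps θ τ H n' w' g s R G A) {e : Finset V} (he : e ∈ H) (heA : e ∉ A)
    {D' : Finset (Finset V)} (hD : G ⊆ D') (nw : NW θ H n n' w' s R D')
    (hν : ν ≤ (e ∩ Un D).card) : Comps θ τ H n' w' g s R G (insert e A) := by
  have hne : ∃ d ∈ A, ¬ Disjoint d e := by
    obtain ⟨q, hq⟩ := card_pos.1 (show 0 < (e ∩ Un D).card by have := p.nu2; omega)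
    obtain ⟨d, hd, hqd⟩ := mem_un.1 (mem_inter.1 hq).2
    exact ⟨d, b.da hd, not_disjoint_iff.2 ⟨q, hqd, (mem_inter.1 hq).1⟩⟩
  obtain ⟨K₁, k1, k2, k3, k4, ⟨ρ, S, Λ, v, s1, s2, s3⟩, hmax⟩ := pick hc hne
  have heG : e ∉ G := fun h => heA (b.da (b.gd h))
  have heS : e ∉ S := fun h => heA (k1.1 (s2 h))
  have hN : ∀ x, Nk τ A G x ≤ Nk τ (insert e A) G x := nk_mono (subset_insert _ _) (Subset.refl _)
  have e1 : G ∩ insert e K₁ = G ∩ K₁ := inter_insert_of_notMem heG
  have hW := comp_sub_W2 p b k1 s1 (s2.trans (k1.1.trans b.ah))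
  have hνN : ν ≤ Nk τ (insert e A) G e := by
    have := hN e
    rcases nn_core p b he heG with h | h <;> omega
  have := p.nu4
  have := p.sum
  by_cases hx : θ + 1 ≤ (e ∩ Un K₁).card
  · refine merge p b hc he heA (Subset.refl _) (subset_insert _ _) hD nw k1 k2 k3 hmax
      ⟨ρ, insert e S, Λ, valid_insert v (Subset.refl _) (v.2.1.trans (subset_insert _ _))
        (Or.inr (hx.trans (card_le_card (inter_subset_inter (Subset.refl _) hW)))),
        mem_insert_self _ _, by rw [e1]; exact s1.trans (subset_insert _ _),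
        insert_subset_insert _ s2, ?_⟩ ⟨ρ, S, Λ, v, by rw [e1]; exact s1,
        s2.trans (subset_insert _ _), ?_⟩
    · rw [e1]
      refine ineq_step (ε := 0) s3 heS hN (fun _ _ => Iff.rfl) rfl ?_
      rw [if_neg fun h => heS (v.2.1 h)]
      omega
    · rw [e1]
      unfold Ineq at s3 ⊢
      have := cost_mono (n' := n') (w' := w') hN S Λ
      omega
  · have hv := valid_insert v (subset_insert e Λ) (insert_subset_insert _ v.2.1)
      (Or.inl ⟨mem_insert_self _ _, fun h => k4 (h.mono_right hW)⟩)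
    have hi : Ineq τ n' w' g (Nk τ (insert e A) G) R (G ∩ K₁) (insert e S) (insert e Λ) w'
        (4 * ((e ∩ Un A) \ Un K₁).card) := by
      refine ineq_step (ε := 0) s3 heS hN (fun x hx => ?_) rfl ?_
      · exact ⟨fun h => (mem_insert.1 h).resolve_left fun g => heS (g ▸ hx), mem_insert_of_mem⟩
      · rw [if_pos (mem_insert_self _ _)]
        have h1 : e ∩ Un D ⊆ ((e ∩ Un A) \ Un K₁) ∪ (e ∩ Un K₁) := by
          intro q hq
          have := un_mono b.da (mem_inter.1 hq).2
          simp only [mem_union, mem_inter, mem_sdiff] at hq ⊢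
          tauto
        have h2 := (card_le_card h1).trans (card_union_le _ _)
        omega
    refine merge p b hc he heA (Subset.refl _) (subset_insert _ _) hD nw k1 k2 k3 hmax
      ⟨ρ, _, _, hv, mem_insert_self _ _, by rw [e1]; exact s1.trans (subset_insert _ _),
        insert_subset_insert _ s2, ?_⟩ ⟨ρ, _, _, hv,
        by rw [e1]; exact s1.trans (subset_insert _ _), insert_subset_insert _ s2,
        by rw [e1]; exact hi⟩
    rw [e1]
    unfold Ineq at hi ⊢
    omega

theorem merge_good (p : Par θ τ γ H n m n' w' g ν s l) (b : Base H G D A ν)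
    (hc : Comps θ τ H n' w' g s R G A) {e L : Finset V} (he : e ∈ H) (heA : e ∉ A)
    (nw : NW θ H n n' w' s R (insert e D)) (hL : L ⊆ e ∩ Un D) (hLR : Disjoint L R)
    (hpr : n ≤ (e ∩ R).card + L.card + m) (hw : w' + g ≤ ((e ∩ R) \ Un G).card) :
    Comps θ τ H n' w' g s R (insert e G) (insert e A) := by
  have heG : e ∉ G := fun h => heA (b.da (b.gd h))
  have hN : ∀ x, Nk τ A G x ≤ Nk τ (insert e A) (insert e G) x :=
    nk_mono (subset_insert _ _) (subset_insert _ _)
  have hGD := insert_subset_insert e b.gd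
  have e1 : ∀ K, insert e G ∩ insert e K = insert e (G ∩ K) := fun K =>
    (insert_inter_distrib _ _ _).symm
  have hY : (e ∩ R).card + L.card = ((e ∩ R) ∪ L).card :=
    (card_union_of_disjoint (hLR.symm.mono_left inter_subset_right)).symm
  have := p.nu4
  have := p.sum
  have := p.wt
  by_cases hne : ∃ d ∈ A, ¬ Disjoint d e
  swap
  · have hL0 : L = ∅ := by
      rw [eq_empty_iff_forall_notMem]
      intro q hq
      obtain ⟨d, hd, hqd⟩ := mem_un.1 (mem_inter.1 (hL hq)).2
      exact hne ⟨d, b.da hd, not_disjoint_iff.2 ⟨q, hqd, (mem_inter.1 (hL hq)).1⟩⟩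
    have hv : Valid θ H e {e} {e} := valid_conn p.two (singleton_subset_iff.2 he)
      (conn_singleton e) (mem_singleton_self _)
    have hi : ∀ sp ≤ w', ∀ debt, Ineq τ n' w' g (Nk τ (insert e A) (insert e G)) R
        (insert e G ∩ insert e ∅) {e} {e} sp debt := by
      intro sp hsp debt
      rw [e1]
      rw [hL0] at hpr
      simp only [Ineq, cost, Un, inter_empty, insert_empty_eq, sum_singleton, mem_singleton,
        if_true, card_singleton, singleton_biUnion, id, card_empty] at hpr ⊢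
      omega
    have hs : insert e G ∩ insert e ∅ ⊆ {e} := inter_subset_right
    exact merge p b hc he heA (subset_insert _ _) (Subset.refl _) hGD nw (K₁ := ∅)
      ⟨empty_subset _, by simp⟩ (conn_singleton e) (by simp)
      (fun d hd h => absurd ⟨d, hd, h⟩ hne)
      ⟨e, _, _, hv, mem_singleton_self _, hs, Subset.refl _, hi 0 (Nat.zero_le _) _⟩
      ⟨e, _, _, hv, hs, Subset.refl _, hi _ le_rfl _⟩
  obtain ⟨K₁, k1, k2, k3, k4, ⟨ρ, S, Λ, v, s1, s2, s3⟩, hmax⟩ := pick hc hne
  have heS : e ∉ S := fun h => heA (k1.1 (s2 h))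
  have hW := comp_sub_W2 p b k1 s1 (s2.trans (k1.1.trans b.ah))
  have hk : (insert e (G ∩ K₁)).card = (G ∩ K₁).card + 1 :=
    card_insert_of_notMem fun h => heG (mem_inter.1 h).1
  have fin : ∀ Λ', Valid θ H ρ (insert e S) Λ' → Ineq τ n' w' g (Nk τ (insert e A) (insert e G)) R
      (insert e (G ∩ K₁)) (insert e S) Λ' w' (4 * ((e ∩ Un A) \ Un K₁).card) →
      Comps θ τ H n' w' g s R (insert e G) (insert e A) := by
    intro Λ' hv hi
    refine merge p b hc he heA (subset_insert _ _) (Subset.refl _) hGD nw k1 k2 k3 hmax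
      ⟨ρ, _, _, hv, mem_insert_self _ _, by rw [e1]; exact insert_subset_insert _ s1,
        insert_subset_insert _ s2, ?_⟩ ⟨ρ, _, _, hv,
        by rw [e1]; exact insert_subset_insert _ s1, insert_subset_insert _ s2,
        by rw [e1]; exact hi⟩
    rw [e1]
    unfold Ineq at hi ⊢
    omega
  by_cases hx : θ + 1 ≤ (e ∩ Un K₁).card
  · refine fin Λ (valid_insert v (Subset.refl _) (v.2.1.trans (subset_insert _ _))
      (Or.inr (hx.trans (card_le_card (inter_subset_inter (Subset.refl _) hW)))))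
      (ineq_step s3 heS hN (fun _ _ => Iff.rfl) hk ?_)
    rw [if_neg fun h => heS (v.2.1 h)]
    have h1 := val_insert (R := R) e (inter_subset_left : G ∩ K₁ ⊆ G)
    have h2 : (e ∩ R) ∪ L ⊆ ((e ∩ R) \ Un G) ∪ (e ∩ Un D) := by
      intro q hq
      have a1 : q ∈ Un G → q ∈ Un D := fun h => un_mono b.gd h
      have a2 : q ∈ L → q ∈ e ∩ Un D := fun h => hL h
      simp only [mem_union, mem_inter, mem_sdiff] at hq a2 ⊢
      tauto
    have h3 := (card_le_card h2).trans (card_union_le _ _)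
    have h4 := hN e
    rcases nn_core p b he heG with h | h <;> omega
  · refine fin (insert e Λ) (valid_insert v (subset_insert e Λ) (insert_subset_insert _ v.2.1)
      (Or.inl ⟨mem_insert_self _ _, fun h => k4 (h.mono_right hW)⟩))
      (ineq_step s3 heS hN (fun x hx => ?_) hk ?_)
    · exact ⟨fun h => (mem_insert.1 h).resolve_left fun g => heS (g ▸ hx), mem_insert_of_mem⟩
    · rw [if_pos (mem_insert_self _ _)]
      have h1 := val_insert (R := R) e (Subset.refl (G ∩ K₁))
      have h2 : (e ∩ R) ∪ L ⊆ ((e ∩ R) \ Un (G ∩ K₁)) ∪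
          (((e ∩ Un A) \ Un K₁) ∪ (e ∩ Un K₁)) := by
        intro q hq
        have a1 : q ∈ Un (G ∩ K₁) → q ∈ Un K₁ := fun h => un_mono inter_subset_right h
        have a2 : q ∈ L → q ∈ e ∩ Un D := fun h => hL h
        have a3 : q ∈ Un D → q ∈ Un A := fun h => un_mono b.da h
        simp only [mem_union, mem_inter, mem_sdiff] at hq a2 ⊢
        tauto
      have h3 := (card_le_card h2).trans (card_union_le _ _)
      have h4 := card_union_le ((e ∩ Un A) \ Un K₁) (e ∩ Un K₁)
      omega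

theorem promote (p : Par θ τ γ H n m n' w' g ν s l) (b : Base H G D A ν)
    (hc : Comps θ τ H n' w' g s R G A) {e : Finset V} (heA : e ∈ A) (heD : e ∉ D)
    (nw : NW θ H n n' w' s R (insert e D)) (hw : w' + g ≤ ((e ∩ R) \ Un G).card) :
    Comps θ τ H n' w' g s R (insert e G) A := by
  have heG : e ∉ G := fun h => heD (b.gd h)
  have hN : ∀ x, Nk τ A G x ≤ Nk τ A (insert e G) x := nk_mono (Subset.refl _) (subset_insert _ _)
  intro f hf
  obtain ⟨K, hfK, k1, k2, k3, hd⟩ := hc f hf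
  by_cases heK : e ∈ K
  swap
  · exact ⟨K, hfK, k1, k2, by rw [insert_inter_of_notMem heK]; exact k3, by
      rw [insert_inter_of_notMem heK]; exact hd.mono hN (Subset.refl _) (Subset.refl _)⟩
  obtain ⟨ρ, S, Λ, v, s1, s2, s3⟩ := hd
  have hk : (insert e (G ∩ K)).card = (G ∩ K).card + 1 :=
    card_insert_of_notMem fun h => heG (mem_inter.1 h).1
  have h1 := val_insert (R := R) e (inter_subset_left : G ∩ K ⊆ G)
  have hKH := k1.1.trans b.ah
  have hd' : Desc θ τ H n' w' g (Nk τ A (insert e G)) R (insert e (G ∩ K)) K w' 0 := by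
    by_cases heS : e ∈ S
    · refine ⟨ρ, S, Λ, v, insert_subset heS s1, s2, ?_⟩
      unfold Ineq at s3 ⊢
      have h2 := cost_mono (n' := n') (w' := w') hN S Λ
      have h3 := kl_mono τ (show (G ∩ K).card ≤ (insert e (G ∩ K)).card by omega)
      rw [hk] at h3 ⊢
      rw [mul_add g]
      omega
    · refine ⟨ρ, insert e S, Λ, valid_insert v (Subset.refl _)
        (v.2.1.trans (subset_insert _ _)) (Or.inr ?_), insert_subset_insert _ s1,
        insert_subset heK s2, ineq_step s3 heS hN (fun _ _ => Iff.rfl) hk ?_⟩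
      · rw [inter_eq_left.2 ((sub_un heK).trans (comp_sub_W2 p b k1 s1 (s2.trans hKH)))]
        exact p.two e (b.ah heA)
      · rw [if_neg fun h => heS (v.2.1 h)]
        have := nn_bad p b heA heG
        have := hN e
        have := p.nu4
        have := p.sum
        omega
  refine ⟨K, hfK, k1, k2, ?_, by rw [insert_inter_of_mem heK]; exact hd'⟩
  rw [insert_inter_of_mem heK]
  refine small_of_nw p nw hKH (insert_subset_insert _ (inter_subset_left.trans b.gd)) hd' ?_
  have : s ≤ s * n := Nat.le_mul_of_pos_right _ (by have := p.sum; omega)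
  omega

/-- The witness invariant. -/
def WI (θ τ : ℕ) (H : Finset (Finset V)) (n' w' g ν s : ℕ) (R : Finset V) (D A : Finset (Finset V)) :
    Prop := ∃ G, Base H G D A ν ∧ Comps θ τ H n' w' g s R G A

theorem wi_act (p : Par θ τ γ H n m n' w' g ν s l) (h : WI θ τ H n' w' g ν s R D A) {e : Finset V}
    (he : e ∈ H) (heA : e ∉ A) (hν : ν ≤ (e ∩ Un D).card) (nw : NW θ H n n' w' s R D) :
    WI θ τ H n' w' g ν s R D (insert e A) := by
  obtain ⟨G, b, hc⟩ := h
  refine ⟨G, ⟨b.gd, b.da.trans (subset_insert _ _), insert_subset he b.ah, b.poor,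
    fun x hx hxD => ?_⟩, merge_bad p b hc he heA b.gd nw hν⟩
  rcases mem_insert.1 hx with rfl | hx
  · exact hν
  · exact b.link x hx hxD

theorem wi_dang (p : Par θ τ γ H n m n' w' g ν s l) (h : WI θ τ H n' w' g ν s R D A) {e L : Finset V}
    (he : e ∈ H) (heD : e ∉ D) (hL : L ⊆ e ∩ Un D) (hLc : L.card ≤ ν) (hLR : Disjoint L R)
    (hpr : n ≤ (e ∩ R).card + L.card + m) (nw : NW θ H n n' w' s R (insert e D)) :
    WI θ τ H n' w' g ν s R (insert e D) (insert e A) := by
  obtain ⟨G, b, hc⟩ := h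
  by_cases hw : w' + g ≤ ((e ∩ R) \ Un G).card
  · refine ⟨insert e G, base_ins b he (subset_insert _ _) (Subset.refl _)
      fun h => absurd (mem_insert_self _ _) h, ?_⟩
    by_cases heA : e ∈ A
    · rw [insert_eq_of_mem heA]; exact promote p b hc heA heD nw hw
    · exact merge_good p b hc he heA nw hL hLR hpr hw
  · have h1 : ν ≤ (e ∩ Un G).card := by
      have h2 : e ∩ R ⊆ ((e ∩ R) \ Un G) ∪ (e ∩ Un G) := by
        intro q hq
        simp only [mem_union, mem_inter, mem_sdiff] at hq ⊢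
        tauto
      have h3 := (card_le_card h2).trans (card_union_le _ _)
      have := p.poor
      omega
    refine ⟨G, base_ins b he (Subset.refl _) (subset_insert _ _) fun _ => h1, ?_⟩
    by_cases heA : e ∈ A
    · rw [insert_eq_of_mem heA]; exact hc
    · exact merge_bad p b hc he heA (b.gd.trans (subset_insert _ _)) nw
        (h1.trans (card_le_card (inter_subset_inter (Subset.refl _) (un_mono b.gd))))

theorem card_two (hco : ∀ q : Finset V, q.card = θ + 1 → (H.filter fun e => q ⊆ e).card ≤ γ)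
    (X : Finset V) : (H.filter fun e => θ + 1 ≤ (e ∩ X).card).card ≤ X.card ^ (θ + 1) * γ := by
  refine (card_le_card (t := (powersetCard (θ + 1) X).biUnion fun q => H.filter fun e => q ⊆ e)
    fun e he => ?_).trans ((card_biUnion_le_card_mul _ _ γ fun q hq =>
      hco q (mem_powersetCard.1 hq).2).trans (Nat.mul_le_mul_right _ ?_))
  · obtain ⟨q, hq, hc⟩ := exists_subset_card_eq (mem_filter.1 he).2
    exact mem_biUnion.2 ⟨q, mem_powersetCard.2 ⟨hq.trans inter_subset_right, hc⟩,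
      mem_filter.2 ⟨(mem_filter.1 he).1, hq.trans inter_subset_left⟩⟩
  · rw [card_powersetCard]
    exact Nat.choose_le_pow _ _

theorem card_W2 (p : Par θ τ γ H n m n' w' g ν s l) {S : Finset (Finset V)} (hS : S ⊆ H) {σ : ℕ}
    (h : S.card ≤ σ) : (W2 θ H S).card ≤ ((σ * n) ^ (θ + 1) * γ * n) ^ (θ + 1) * γ * n := by
  have h1 : ∀ T ⊆ H, (Un T).card ≤ T.card * n := fun T hT =>
    card_biUnion_le_card_mul _ _ _ fun e he => (p.card e (hT he)).le
  have h2 : ∀ X : Finset V, (W1 θ H X).card ≤ X.card ^ (θ + 1) * γ * n := fun X =>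
    (h1 _ (filter_subset _ _)).trans (Nat.mul_le_mul_right _ (card_two p.co X))
  have h3 := (h1 S hS).trans (Nat.mul_le_mul_right n h)
  refine (h2 _).trans ?_
  gcongr
  refine (h2 _).trans ?_
  gcongr

theorem wi_size (p : Par θ τ γ H n m n' w' g ν s l) (h : WI θ τ H n' w' g ν s R D A) :
    ∀ e ∈ A, ∃ K, e ∈ K ∧ Closed A K ∧
      K.card ≤ (((n * (s * n + 1) * n) ^ (θ + 1) * γ * n) ^ (θ + 1) * γ * n) ^ (θ + 1) * γ := by
  obtain ⟨G, b, hc⟩ := h
  intro e he
  obtain ⟨K, heK, k1, _, k3, ρ, S, Λ, v, s1, s2, s3⟩ := hc e he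
  have hKH := k1.1.trans b.ah
  refine ⟨K, heK, k1, ?_⟩
  have hS : S.card ≤ n * (s * n + 1) := by
    unfold Ineq at s3
    have hsn : s ≤ s * n := Nat.le_mul_of_pos_right _ (by have := p.sum; omega)
    have a1 := cost_ge (n' := n') (w' := w') (N := Nk τ A G) v.2.1
    have a2 : Nat.log 2 (G ∩ K).card ≤ l := (Nat.log_mono_right (by omega)).trans p.lg
    have a3 := Nat.mul_le_mul_left τ (Nat.mul_le_mul_left (G ∩ K).card a2)
    have a4 : g * (G ∩ K).card = 40 * (τ * ((G ∩ K).card * l)) + (G ∩ K).card := by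
      rw [p.gl]; ring
    have a5 : (Un (G ∩ K) ∩ R).card ≤ (G ∩ K).card * n :=
      (card_le_card inter_subset_left).trans (card_biUnion_le_card_mul _ _ _
        fun e he => (p.card e (hKH (mem_inter.1 he).2)).le)
    have a6 : Λ.card ≤ n' * Λ.card := Nat.le_mul_of_pos_left _ p.n1
    have a7 : (S \ Λ).card ≤ w' * (S \ Λ).card := Nat.le_mul_of_pos_left _ p.w1
    have a8 := card_sdiff_add_card_eq_card v.2.1
    have a9 : (G ∩ K).card * n ≤ n * (s * n + 1) := by
      rw [mul_comm]; exact Nat.mul_le_mul_left _ (by omega)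
    omega
  have hW := comp_sub_W2 p b k1 s1 (s2.trans hKH)
  refine (card_le_card (t := H.filter fun e => θ + 1 ≤ (e ∩ W2 θ H S).card) fun f hf => ?_).trans
    ((card_two p.co _).trans (Nat.mul_le_mul_right _
      (Nat.pow_le_pow_left (card_W2 p (s2.trans hKH) hS) _)))
  refine mem_filter.2 ⟨hKH hf, ?_⟩
  rw [inter_eq_left.2 ((sub_un hf).trans hW)]
  exact p.two f (hKH hf)

end Pool.Agent.Lib.MP_af2b3e_co.BSK
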