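import Pool.Agent.Lib.MP_af2b3e_co.BSOps
import Pool.Agent.Lib.MP_af2b3e_co.BSLost

set_option autoImplicit false
set_option linter.unusedSectionVars false
set_option exponentiation.threshold 700

/-! Almost disjoint hypergraphs: degree `2^n / poly(n log |H|)`. -/

namespace Pool.Agent.Lib.MP_af2b3e_co.BS

open Finset

variable {V : Type} [DecidableEq V]

open Classical in
/-- Extensions of a partial description by `i` expensive and `j` cheap edges. -/
noncomputable def Ext2 (H K Λ₀ : Finset (Finset V)) (i j : ℕ) :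
    Finset (Finset (Finset V) × Finset (Finset V)) :=
  (H.powerset ×ˢ H.powerset).filter fun q => K ⊆ q.1 ∧ q.2 ⊆ q.1 ∧ q.2 ∩ K = Λ₀ ∧
    (q.2 \ K).card = i ∧ ((q.1 \ q.2) \ K).card = j ∧
    ∀ T, K ⊆ T → T ⊆ q.1 → T ≠ q.1 → ∃ x ∈ q.1, x ∉ T ∧
      ((x ∈ q.2 ∧ ¬ Disjoint x (W2 H T)) ∨ 2 ≤ (x ∩ W2 H T).card)

theorem card_ext2 {H : Finset (Finset V)} {σ X Y : ℕ}
    (hX : ∀ T ⊆ H, T.card ≤ σ → (H.filter fun x => ¬ Disjoint x (W2 H T)).card ≤ X)
    (hY : ∀ T ⊆ H, T.card ≤ σ → (H.filter fun x => 2 ≤ (x ∩ W2 H T).card).card ≤ Y) :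
    ∀ (N i j : ℕ) (K Λ₀ : Finset (Finset V)), i + j = N → K ⊆ H → K.card + N ≤ σ →
      (Ext2 H K Λ₀ i j).card ≤ 2 ^ N * (X ^ i * Y ^ j) := by
  classical
  intro N
  induction N with
  | zero =>
    intro i j K Λ₀ hN _ _
    obtain ⟨rfl, rfl⟩ : i = 0 ∧ j = 0 := by omega
    refine (card_le_card (t := {(K, Λ₀)}) fun q hq => ?_).trans (by simp)
    obtain ⟨_, h1, h2, h3, h4, h5, _⟩ := mem_filter.1 hq
    have a1 := sdiff_eq_empty_iff_subset.1 (card_eq_zero.1 h4)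
    have a2 := sdiff_eq_empty_iff_subset.1 (card_eq_zero.1 h5)
    rw [mem_singleton]
    refine Prod.ext (Subset.antisymm (fun x hx => ?_) h1) (by rw [← h3, inter_eq_left.2 a1])
    by_cases h : x ∈ q.2
    · exact a1 h
    · exact a2 (mem_sdiff.2 ⟨hx, h⟩)
  | succ N ih =>
    intro i j K Λ₀ hN hK hσ
    have hsub : Ext2 H K Λ₀ i j ⊆
        (if i = 0 then ∅ else (H.filter fun x => ¬ Disjoint x (W2 H K)).biUnion
          fun x => Ext2 H (insert x K) (insert x Λ₀) (i - 1) j) ∪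
        (if j = 0 then ∅ else (H.filter fun x => 2 ≤ (x ∩ W2 H K).card).biUnion
          fun x => Ext2 H (insert x K) Λ₀ i (j - 1)) := by
      intro q hq
      obtain ⟨h0, h1, h2, h3, h4, h5, h6⟩ := mem_filter.1 hq
      obtain ⟨x, hx, hxK, hh⟩ := h6 K (Subset.refl _) h1 fun h => by
        rw [← h] at h2 h5
        rw [sdiff_eq_empty_iff_subset.2 h2] at h4
        rw [sdiff_eq_empty_iff_subset.2 sdiff_subset] at h5
        simp at h4 h5
        omega
      have hxH : x ∈ H := mem_powerset.1 (mem_product.1 h0).1 hx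
      have h7 : ∀ T, insert x K ⊆ T → T ⊆ q.1 → T ≠ q.1 → ∃ x ∈ q.1, x ∉ T ∧
          ((x ∈ q.2 ∧ ¬ Disjoint x (W2 H T)) ∨ 2 ≤ (x ∩ W2 H T).card) :=
        fun T hT => h6 T ((subset_insert _ _).trans hT)
      by_cases hxL : x ∈ q.2
      · have hm : x ∈ q.2 \ K := mem_sdiff.2 ⟨hxL, hxK⟩
        have hi : i ≠ 0 := by rw [← h4]; exact card_ne_zero_of_mem hm
        refine mem_union_left _ ?_
        rw [if_neg hi]
        refine mem_biUnion.2 ⟨x, mem_filter.2 ⟨hxH, ?_⟩, mem_filter.2 ⟨h0, insert_subset hx h1,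
          h2, by rw [inter_insert_of_mem hxL, h3], by rw [sdiff_insert, card_erase_of_mem hm, h4],
          ?_, h7⟩⟩
        · rcases hh with hh | hh
          · exact hh.2
          · exact not_disjoint_iff_nonempty_inter.2 (card_pos.1 (by omega))
        · rw [sdiff_insert, erase_eq_of_notMem fun h => (mem_sdiff.1 (mem_sdiff.1 h).1).2 hxL, h5]
      · have hm : x ∈ (q.1 \ q.2) \ K := mem_sdiff.2 ⟨mem_sdiff.2 ⟨hx, hxL⟩, hxK⟩
        have hj : j ≠ 0 := by rw [← h5]; exact card_ne_zero_of_mem hm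
        refine mem_union_right _ ?_
        rw [if_neg hj]
        exact mem_biUnion.2 ⟨x, mem_filter.2 ⟨hxH, hh.resolve_left fun h => hxL h.1⟩,
          mem_filter.2 ⟨h0, insert_subset hx h1, h2, by rw [inter_insert_of_notMem hxL, h3],
          by rw [sdiff_insert, erase_eq_of_notMem fun h => hxL (mem_sdiff.1 h).1, h4],
          by rw [sdiff_insert, card_erase_of_mem hm, h5], h7⟩⟩
    have hc : ∀ x : Finset V, (insert x K).card + N ≤ σ := fun x => by
      have := card_insert_le x K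
      omega
    refine (card_le_card hsub).trans ((card_union_le _ _).trans ?_)
    rw [pow_succ, mul_right_comm, mul_two]
    refine Nat.add_le_add ?_ ?_
    · split_ifs with hi
      · simp
      · obtain ⟨i, rfl⟩ := Nat.exists_eq_succ_of_ne_zero hi
        refine (card_biUnion_le_card_mul _ _ (2 ^ N * (X ^ i * Y ^ j)) fun x hx =>
          ih i j _ _ (by omega) (insert_subset (mem_filter.1 hx).1 hK) (hc x)).trans ?_
        refine (Nat.mul_le_mul_right _ (hX K hK (by omega))).trans (le_of_eq ?_)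
        rw [pow_succ X]; ring
    · split_ifs with hj
      · simp
      · obtain ⟨j, rfl⟩ := Nat.exists_eq_succ_of_ne_zero hj
        refine (card_biUnion_le_card_mul _ _ (2 ^ N * (X ^ i * Y ^ j)) fun x hx =>
          ih i j _ _ (by omega) (insert_subset (mem_filter.1 hx).1 hK) (hc x)).trans ?_
        refine (Nat.mul_le_mul_right _ (hY K hK (by omega))).trans (le_of_eq ?_)
        rw [pow_succ Y]; ring

theorem valid_mem_ext2 {H S Λ : Finset (Finset V)} {ρ : Finset V} (v : Valid H ρ S Λ)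
    (hS : S ⊆ H) {i : ℕ} (hi : Λ.card = i + 1) : (S, Λ) ∈ Ext2 H {ρ} {ρ} i (S \ Λ).card := by
  classical
  have a1 : (Λ \ {ρ}).card = i := by
    rw [sdiff_singleton_eq_erase, card_erase_of_mem v.1, hi]; rfl
  have a2 : ((S \ Λ) \ {ρ}).card = (S \ Λ).card := by
    rw [sdiff_singleton_eq_erase, erase_eq_of_notMem fun h => (mem_sdiff.1 h).2 v.1]
  unfold Ext2
  rw [mem_filter, mem_product, mem_powerset, mem_powerset]
  exact ⟨⟨hS, v.2.1.trans hS⟩, singleton_subset_iff.2 (v.2.1 v.1), v.2.1,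
    inter_singleton_of_mem v.1, a1, a2, fun T k1 k2 k3 =>
      v.2.2 T k2 (singleton_subset_iff.1 k1) k3⟩

theorem ext2_card {H : Finset (Finset V)} {ρ : Finset V} {i j : ℕ}
    {r : Finset (Finset V) × Finset (Finset V)} (hr : r ∈ Ext2 H {ρ} {ρ} i j) :
    r.1.card ≤ i + j + 1 := by
  classical
  obtain ⟨_, _, _, _, h4, h5, _⟩ := mem_filter.1 hr
  have : r.1 ⊆ (r.2 \ {ρ}) ∪ (((r.1 \ r.2) \ {ρ}) ∪ {ρ}) := by
    intro x hx
    simp only [mem_union, mem_sdiff, mem_singleton]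
    tauto
  have a1 := (card_le_card this).trans (card_union_le _ _)
  have a2 := card_union_le ((r.1 \ r.2) \ {ρ}) {ρ}
  rw [card_singleton] at a2
  omega

/-- Descriptions with a choice of good edges. -/
noncomputable def Trip (H : Finset (Finset V)) (σ : ℕ) (ij : ℕ × ℕ) :
    Finset ((Finset (Finset V) × Finset (Finset V)) × Finset (Finset V)) :=
  if ij.1 + ij.2 + 1 ≤ σ then (H.biUnion fun ρ => Ext2 H {ρ} {ρ} ij.1 ij.2).biUnion
    fun r => r.1.powerset.image fun G' => (r, G') else ∅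

theorem mem_trip {H S Λ G' : Finset (Finset V)} {ρ : Finset V} (v : Valid H ρ S Λ)
    (hS : S ⊆ H) {i σ : ℕ} (hi : Λ.card = i + 1) (hG : G' ⊆ S) (hσ : S.card ≤ σ) :
    ((S, Λ), G') ∈ Trip H σ (i, (S \ Λ).card) := by
  have hc := card_sdiff_add_card_eq_card v.2.1
  unfold Trip
  rw [if_pos (by simp only; omega), mem_biUnion]
  refine ⟨(S, Λ), ?_, mem_image.2 ⟨G', mem_powerset.2 hG, rfl⟩⟩
  rw [mem_biUnion]
  exact ⟨ρ, hS (v.2.1 v.1), valid_mem_ext2 v hS hi⟩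

theorem card_trip {H : Finset (Finset V)} {σ X Y : ℕ}
    (hX : ∀ T ⊆ H, T.card ≤ σ → (H.filter fun x => ¬ Disjoint x (W2 H T)).card ≤ X)
    (hY : ∀ T ⊆ H, T.card ≤ σ → (H.filter fun x => 2 ≤ (x ∩ W2 H T).card).card ≤ Y) (i j : ℕ) :
    (Trip H σ (i, j)).card ≤ H.card * (2 ^ (i + j) * (X ^ i * Y ^ j)) * 2 ^ (i + j + 1) := by
  unfold Trip
  split_ifs with hij
  · refine (card_biUnion_le_card_mul _ _ (2 ^ (i + j + 1)) fun r hr => ?_).trans
      (Nat.mul_le_mul_right _ (card_biUnion_le_card_mul _ _ _ fun ρ hρ =>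
        card_ext2 hX hY _ i j _ _ rfl (singleton_subset_iff.2 hρ) (by
          simp only [card_singleton] at hij ⊢; omega)))
    refine card_image_le.trans ?_
    rw [card_powerset]
    obtain ⟨ρ, _, hr⟩ := mem_biUnion.1 hr
    exact Nat.pow_le_pow_right (by norm_num) (ext2_card hr)
  · simp

theorem linear_core [Fintype V] {H : Finset (Finset V)} {n m n' w' g ν s l Dg : ℕ}
    (p : Par H n m n' w' g ν s l) (hD : ∀ v, (H.filter fun e => v ∈ e).card ≤ Dg)
    (hm : 2 * (((n * (s * n + 1) * n) ^ 2 * n) ^ 2 * n) ^ 2 < 2 ^ m)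
    (hw : 8 * (((n * (s * n + 1) * n) ^ 2 * n) ^ 2 * n) ^ 2 ≤ 2 ^ w')
    (hn' : 8 * ((((n * (s * n + 1) * n) ^ 2 * n) ^ 2 * n) * Dg) ≤ 2 ^ n')
    (hs : 8 * H.card < 2 ^ s) (hm0 : 0 < m) : Loc univ H ∅ ∅ := by
  classical
  set σ := n * (s * n + 1) with hσ
  set Wm := ((σ * n) ^ 2 * n) ^ 2 * n with hWm
  have hX : ∀ T ⊆ H, T.card ≤ σ → (H.filter fun x => ¬ Disjoint x (W2 H T)).card ≤ Wm * Dg := by
    intro T hT hc
    refine (card_le_card (t := (W2 H T).biUnion fun v => H.filter fun e => v ∈ e)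
      fun x hx => ?_).trans ((card_biUnion_le_card_mul _ _ Dg fun v _ => hD v).trans
        (Nat.mul_le_mul_right _ (card_W2 p hT hc)))
    obtain ⟨v, h1, h2⟩ := not_disjoint_iff.1 (mem_filter.1 hx).2
    exact mem_biUnion.2 ⟨v, h2, mem_filter.2 ⟨(mem_filter.1 hx).1, h1⟩⟩
  have hY : ∀ T ⊆ H, T.card ≤ σ → (H.filter fun x => 2 ≤ (x ∩ W2 H T).card).card ≤ Wm ^ 2 :=
    fun T hT hc => (card_two p.lin _).trans (Nat.pow_le_pow_left (card_W2 p hT hc) 2)
  let Tr := Trip H σ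
  let w : ℕ × ℕ → ℝ := fun ij => (1 / 2) ^ (n' * (ij.1 + 1) + w' * ij.2 + s)
  have hw0 : ∀ ij, 0 ≤ w ij := fun ij => by positivity
  let c : (Finset (Finset V) × Finset (Finset V)) × Finset (Finset V) → ℝ :=
    fun q => ∑ ij ∈ range σ ×ˢ range σ, if q ∈ Tr ij then w ij else 0
  have hnw : ∀ R D, NoWit (fun q => q.2) c R D → NW H n n' w' s R D := by
    intro R D h ρ S Λ G' v hS h1 h2 h3
    have hρ := v.2.1 v.1
    have hc := card_sdiff_add_card_eq_card v.2.1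
    obtain ⟨i, hi⟩ : ∃ i, Λ.card = i + 1 := ⟨Λ.card - 1, by have := card_pos.2 ⟨ρ, v.1⟩; omega⟩
    have hmem : ((S, Λ), G') ∈ Tr (i, (S \ Λ).card) := mem_trip v hS hi h1 h3
    have k2 := single_le_sum (s := range σ ×ˢ range σ)
      (f := fun ij => if ((S, Λ), G') ∈ Tr ij then w ij else 0)
      (fun ij _ => by have := hw0 ij; split_ifs <;> positivity)
      (mem_product.2 ⟨mem_range.2 (by omega), mem_range.2 (by omega)⟩ :
        (i, (S \ Λ).card) ∈ range σ ×ˢ range σ)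
    simp only [hmem, if_true] at k2
    have k3 := lt_of_le_of_lt (mul_le_mul_of_nonneg_right k2 (by positivity)) (h ((S, Λ), G') h2)
    simp only [w] at k3
    rw [one_div, inv_pow, inv_mul_eq_div, div_lt_one (by positivity)] at k3
    rw [hi]
    exact (pow_lt_pow_iff_right₀ (by norm_num)).1 k3
  have hsum := p.sum
  refine breaker_lost (a := n - m) (m := m) (j := ν) (Gi := fun q => q.2) (c := c)
    (fun e he => by rw [p.card e he]; omega) (by omega) hm0 (by have := p.nu2; omega) hm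
    (fun q => sum_nonneg fun ij _ => by have := hw0 ij; split_ifs <;> positivity) ?_
    (𝒲 := WI H n' w' g ν s) ⟨∅, ⟨by simp, by simp, by simp, by simp, by simp⟩, by simp [Comps]⟩
    ?_ (fun R D A e h he heA hν nw => wi_act p h he heA hν (hnw _ _ nw))
    (fun R D A e L h he heD hL hLc hLR hpr nw =>
      wi_dang p h he heD hL hLc hLR (by omega) (hnw _ _ nw))
    (fun R D A h => wi_size p h)
  · simp only [c]
    rw [sum_comm]
    have h1 : ∀ ij ∈ range σ ×ˢ range σ, (∑ q, if q ∈ Tr ij then w ij else 0) ≤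
        (H.card * (1 / 2) ^ s : ℝ) * ((1 / 2) ^ ij.1 * (1 / 2) ^ ij.2) := by
      rintro ⟨i, j⟩ _
      rw [sum_ite_mem, univ_inter, sum_const, nsmul_eq_mul]
      have k1 := card_trip hX hY i j
      have k2 : (Tr (i, j)).card * (2 ^ s * (2 ^ i * 2 ^ j)) ≤
          H.card * 2 ^ (n' * (i + 1) + w' * j + s) := by
        have a1 : (8 * (Wm * Dg)) ^ i ≤ (2 ^ n') ^ i := Nat.pow_le_pow_left hn' i
        have a2 : (8 * Wm ^ 2) ^ j ≤ (2 ^ w') ^ j := Nat.pow_le_pow_left hw j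
        have a3 : 2 ≤ 2 ^ n' := Nat.le_self_pow (by have := p.n1; omega) 2
        calc (Tr (i, j)).card * (2 ^ s * (2 ^ i * 2 ^ j))
            ≤ H.card * (2 ^ (i + j) * ((Wm * Dg) ^ i * (Wm ^ 2) ^ j)) * 2 ^ (i + j + 1) *
              (2 ^ s * (2 ^ i * 2 ^ j)) := Nat.mul_le_mul_right _ k1
          _ = H.card * ((8 * (Wm * Dg)) ^ i * 2 * (8 * Wm ^ 2) ^ j * 2 ^ s) := by
            have e8 : ∀ k : ℕ, (8 : ℕ) ^ k = 2 ^ (3 * k) := fun k => by rw [pow_mul]; norm_num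
            rw [mul_pow 8, mul_pow 8, e8, e8]
            ring
          _ ≤ H.card * ((2 ^ n') ^ i * 2 ^ n' * (2 ^ w') ^ j * 2 ^ s) := by gcongr
          _ = H.card * 2 ^ (n' * (i + 1) + w' * j + s) := by
            rw [← pow_mul, ← pow_mul]; ring
      have k3 : ((Tr (i, j)).card : ℝ) * (2 ^ s * (2 ^ i * 2 ^ j)) ≤
          H.card * 2 ^ (n' * (i + 1) + w' * j + s) := by exact_mod_cast k2
      simp only [w, one_div, inv_pow]
      rw [mul_assoc, ← mul_inv, ← mul_inv, ← div_eq_mul_inv, ← div_eq_mul_inv,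
        div_le_div_iff₀ (by positivity) (by positivity)]
      exact k3
    have h2 := sum_le_sum h1
    have e0 : ∑ ij ∈ range σ ×ˢ range σ, (1 / 2 : ℝ) ^ ij.1 * (1 / 2) ^ ij.2 =
        (∑ i ∈ range σ, (1 / 2 : ℝ) ^ i) * ∑ i ∈ range σ, (1 / 2 : ℝ) ^ i := by
      rw [sum_mul_sum, sum_product]
    rw [← mul_sum, e0] at h2
    have h3 := sum_geometric_two_le σ
    have h4 : (0 : ℝ) ≤ ∑ i ∈ range σ, (1 / 2 : ℝ) ^ i := by positivity
    have h5 : (∑ i ∈ range σ, (1 / 2 : ℝ) ^ i) * (∑ i ∈ range σ, (1 / 2 : ℝ) ^ i) ≤ 4 := by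
      nlinarith
    have h6 : (8 : ℝ) * H.card < 2 ^ s := by exact_mod_cast hs
    have h7 : 8 * ((H.card : ℝ) * (1 / 2) ^ s) < 1 := by
      rw [← mul_assoc, one_div, inv_pow, mul_inv_lt_iff₀ (by positivity), one_mul]
      exact h6
    have h8 : (0 : ℝ) ≤ H.card * (1 / 2) ^ s := by positivity
    nlinarith
  · rintro R R' D A hR ⟨G, b, hc⟩
    refine ⟨G, b, fun e he => ?_⟩
    obtain ⟨K, k0, k1, k2, k3, k4⟩ := hc e he
    exact ⟨K, k0, k1, k2, k3, k4.mono (fun _ => le_rfl) hR (Subset.refl _)⟩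

theorem linear_log [Fintype V] {H : Finset (Finset V)} {n Dg : ℕ} (hn2 : 2 ≤ n)
    (hn : ∀ e ∈ H, e.card = n) (hlin : ∀ e ∈ H, ∀ f ∈ H, e ≠ f → (e ∩ f).card ≤ 1)
    (hD : ∀ v, (H.filter fun e => v ∈ e).card ≤ Dg)
    (hnum : Dg * (n * (Nat.log 2 H.card + 1)) ^ 640 ≤ 2 ^ n) : Loc univ H ∅ ∅ := by
  rcases H.eq_empty_or_nonempty with rfl | ⟨e₀, he₀⟩
  · exact loc_empty _ _ _
  have hD1 : 1 ≤ Dg := by
    obtain ⟨v, hv⟩ : e₀.Nonempty := card_pos.1 (by rw [hn e₀ he₀]; omega)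
    exact le_trans (card_pos.2 ⟨e₀, mem_filter.2 ⟨he₀, hv⟩⟩) (hD v)
  set L := Nat.log 2 H.card with hL
  set P := n * (L + 1) with hP
  have hPn : n ≤ P := Nat.le_mul_of_pos_right _ (by omega)
  have hbig : 640 ≤ n := by
    refine (Nat.pow_le_pow_iff_right (a := 2) (by norm_num)).1 (le_trans ?_ hnum)
    exact (Nat.pow_le_pow_left (by omega) _).trans (Nat.le_mul_of_pos_left _ hD1)
  set l := Nat.log 2 ((L + 4) * n + 1) + 1 with hl
  have hQ1 : (L + 4) * n + 1 ≤ 2 ^ l := (Nat.lt_pow_succ_log_self (by norm_num) _).le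
  have hQ2 : 2 ^ l ≤ P ^ 2 := by
    have h1 : 2 ^ Nat.log 2 ((L + 4) * n + 1) ≤ (L + 4) * n + 1 :=
      Nat.pow_log_le_self 2 (by omega)
    have h2 : (L + 4) * n + 1 ≤ 5 * P := by rw [hP]; nlinarith
    rw [hl, pow_succ]
    nlinarith
  have hQ3 : Dg * 2 ^ (320 * l) ≤ 2 ^ n := by
    refine le_trans (Nat.mul_le_mul_left _ ?_) hnum
    rw [mul_comm, pow_mul, show 640 = 2 * 320 by norm_num, pow_mul]
    exact Nat.pow_le_pow_left hQ2 _
  have hln : 320 * l ≤ n := (Nat.pow_le_pow_iff_right (a := 2) (by norm_num)).1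
    (le_trans (Nat.le_mul_of_pos_left _ hD1) hQ3)
  have hnQ : n ≤ 2 ^ l := le_trans (by nlinarith) hQ1
  have hW : ((n * ((L + 4) * n + 1) * n) ^ 2 * n) ^ 2 * n ≤ 2 ^ (15 * l) := by
    calc _ ≤ ((2 ^ l * 2 ^ l * 2 ^ l) ^ 2 * 2 ^ l) ^ 2 * 2 ^ l := by gcongr
      _ = 2 ^ (15 * l) := by ring
  have hW2 : (((n * ((L + 4) * n + 1) * n) ^ 2 * n) ^ 2 * n) ^ 2 ≤ 2 ^ (30 * l) := by
    refine (Nat.pow_le_pow_left hW 2).trans (le_of_eq ?_)
    ring
  obtain ⟨k, hk⟩ : ∃ k, n = k + (100 * l + 7) := ⟨n - (100 * l + 7), by omega⟩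
  refine linear_core (m := 30 * l + 2) (n' := k) (w' := 30 * l + 3) (g := 40 * l + 1)
    (ν := n / 3) (s := L + 4) (l := l) ⟨hn, hlin, by omega, by omega, by omega, by omega,
      by omega, by omega, rfl, by omega, by omega⟩ hD ?_ ?_ ?_ ?_ (by omega)
  · rw [pow_add]
    have : 0 < 2 ^ (30 * l) := by positivity
    omega
  · rw [pow_add]; omega
  · have h1 : Dg * 2 ^ (15 * l + 3) * 2 ^ (100 * l + 7) ≤ 2 ^ k * 2 ^ (100 * l + 7) := by
      rw [mul_assoc, ← pow_add, ← pow_add, ← hk]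
      exact le_trans (Nat.mul_le_mul_left _ (Nat.pow_le_pow_right (by norm_num) (by omega))) hQ3
    refine le_trans ?_ (Nat.le_of_mul_le_mul_right h1 (by positivity))
    calc _ ≤ 8 * (2 ^ (15 * l) * Dg) := by gcongr
      _ = Dg * 2 ^ (15 * l + 3) := by ring
  · have : H.card < 2 ^ (L + 1) := Nat.lt_pow_succ_log_self (by norm_num) _
    rw [show L + 4 = L + 1 + 3 by ring, pow_add]
    omega

end Pool.Agent.Lib.MP_af2b3e_co.BS
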