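import Mathlib

set_option autoImplicit false

/-! Local Breaker strategies and the Erdos-Selfridge potential. -/

namespace Pool.Agent.Lib.MP_af2b3e_co.BS

open Finset

variable {V : Type} [DecidableEq V]

/-- Breaker keeps Maker from owning a set of `F`, answering only inside `U` and only to moves
inside `U`; extra Breaker moves never hurt. -/
def Loc (U : Finset V) (F : Finset (Finset V)) (M B : Finset V) : Prop :=
  ∃ I : Finset V → Finset V → Prop, I M B ∧ ∀ M B, I M B →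
    (∀ A ∈ F, ¬ A ⊆ M) ∧ (∀ y, y ∉ M → I M (insert y B)) ∧
    ∀ x, x ∉ M → x ∉ B → I (insert x M) B ∨
      (x ∈ U ∧ ∃ y ∈ U, y ∉ insert x M ∧ I (insert x M) (insert y B))

theorem Loc.safe {U : Finset V} {F : Finset (Finset V)} {M B : Finset V} (h : Loc U F M B) :
    ∀ A ∈ F, ¬ A ⊆ M := by
  obtain ⟨I, h0, hI⟩ := h
  exact (hI M B h0).1

theorem Loc.extra {U : Finset V} {F : Finset (Finset V)} {M B : Finset V} (h : Loc U F M B)
    {y : V} (hy : y ∉ M) : Loc U F M (insert y B) := by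
  obtain ⟨I, h0, hI⟩ := h
  exact ⟨I, (hI M B h0).2.1 y hy, hI⟩

theorem Loc.move {U : Finset V} {F : Finset (Finset V)} {M B : Finset V} (h : Loc U F M B)
    {x : V} (hx : x ∉ M) (hxB : x ∉ B) : Loc U F (insert x M) B ∨
      (x ∈ U ∧ ∃ y ∈ U, y ∉ insert x M ∧ Loc U F (insert x M) (insert y B)) := by
  obtain ⟨I, h0, hI⟩ := h
  rcases (hI M B h0).2.2 x hx hxB with h | ⟨hU, y, hy, hy', h⟩
  · exact Or.inl ⟨I, h, hI⟩
  · exact Or.inr ⟨hU, y, hy, hy', I, h, hI⟩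

theorem Loc.mono {U U' : Finset V} {F : Finset (Finset V)} {M B : Finset V} (h : Loc U F M B)
    (hU : U ⊆ U') : Loc U' F M B := by
  refine ⟨Loc U F, h, fun M B h => ⟨h.safe, fun y hy => h.extra hy, fun x hx hxB => ?_⟩⟩
  rcases h.move hx hxB with h | ⟨hx, y, hy, hy', h⟩
  · exact Or.inl h
  · exact Or.inr ⟨hU hx, y, hU hy, hy', h⟩

theorem loc_empty (U M B : Finset V) : Loc U ∅ M B :=
  ⟨fun _ _ => True, trivial, fun _ _ _ => ⟨by simp, fun _ _ => trivial, fun _ _ _ => Or.inl trivial⟩⟩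

theorem Loc.union {U₁ U₂ : Finset V} {F₁ F₂ : Finset (Finset V)} {M B : Finset V}
    (h₁ : Loc U₁ F₁ M B) (h₂ : Loc U₂ F₂ M B) (hd : Disjoint U₁ U₂) :
    Loc (U₁ ∪ U₂) (F₁ ∪ F₂) M B := by
  refine ⟨fun M B => Loc U₁ F₁ M B ∧ Loc U₂ F₂ M B, ⟨h₁, h₂⟩, ?_⟩
  rintro M B ⟨h₁, h₂⟩
  refine ⟨fun A hA => ?_, fun y hy => ⟨h₁.extra hy, h₂.extra hy⟩, fun x hx hxB => ?_⟩
  · rcases mem_union.1 hA with hA | hA
    · exact h₁.safe A hA
    · exact h₂.safe A hA
  · rcases h₁.move hx hxB with g₁ | ⟨hx₁, y₁, hy₁, hy₁', g₁⟩ <;>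
      rcases h₂.move hx hxB with g₂ | ⟨hx₂, y₂, hy₂, hy₂', g₂⟩
    · exact Or.inl ⟨g₁, g₂⟩
    · exact Or.inr ⟨mem_union_right _ hx₂, y₂, mem_union_right _ hy₂, hy₂', g₁.extra hy₂', g₂⟩
    · exact Or.inr ⟨mem_union_left _ hx₁, y₁, mem_union_left _ hy₁, hy₁', g₁, g₂.extra hy₁'⟩
    · exact absurd hx₂ (disjoint_left.1 hd hx₁)

/-- The Breaker-win predicate of the frozen statement. -/
theorem Loc.wins [Fintype V] {U : Finset V} {H : Finset (Finset V)} (h : Loc U H ∅ ∅) :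
    ∃ W : Set (Finset V × Finset V), ((∅ : Finset V), (∅ : Finset V)) ∈ W ∧
      ∀ M B : Finset V, (M, B) ∈ W → ∀ x : V, x ∉ M → x ∉ B →
        (∀ e ∈ H, ¬ e ⊆ insert x M) ∧
        (insert x M ∪ B = Finset.univ ∨
          ∃ y : V, y ∉ insert x M ∧ y ∉ B ∧ (insert x M, insert y B) ∈ W) := by
  refine ⟨{p | Loc U H p.1 p.2}, h, fun M B hW x hx hxB => ?_⟩
  have hW : Loc U H M B := hW
  have key : ∀ (g : Loc U H (insert x M) B), (∀ e ∈ H, ¬ e ⊆ insert x M) ∧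
        (insert x M ∪ B = Finset.univ ∨
          ∃ y : V, y ∉ insert x M ∧ y ∉ B ∧ Loc U H (insert x M) (insert y B)) := by
    intro g
    refine ⟨g.safe, ?_⟩
    by_cases hu : insert x M ∪ B = univ
    · exact Or.inl hu
    · right
      obtain ⟨y, hy⟩ : ∃ y, y ∉ insert x M ∪ B := by
        by_contra hc
        push Not at hc
        exact hu (eq_univ_iff_forall.2 hc)
      rw [mem_union, not_or] at hy
      exact ⟨y, hy.1, hy.2, g.extra hy.1⟩
  rcases hW.move hx hxB with g | ⟨_, y, _, hy', g⟩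
  · exact key g
  · by_cases hyB : y ∈ B
    · rw [insert_eq_of_mem hyB] at g
      exact key g
    · exact ⟨g.safe, Or.inr ⟨y, hy', hyB, g⟩⟩

section ES

variable {ι : Type} (𝒜 : Finset ι) (A : ι → Finset V) (c : ι → ℝ)

/-- Erdos-Selfridge potential. -/
noncomputable def Phi (M B : Finset V) : ℝ :=
  ∑ i ∈ 𝒜, if Disjoint (A i) B then c i * 2 ^ (A i ∩ M).card else 0

/-- Weight of a point. -/
noncomputable def Wt (M B : Finset V) (z : V) : ℝ :=
  ∑ i ∈ 𝒜, if Disjoint (A i) B ∧ z ∈ A i then c i * 2 ^ (A i ∩ M).card else 0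

variable {𝒜 A c}

theorem phi_insert_le (hc : ∀ i, 0 ≤ c i) (M B : Finset V) (z : V) :
    Phi 𝒜 A c (insert z M) B ≤ Phi 𝒜 A c M B + Wt 𝒜 A c M B z := by
  unfold Phi Wt
  rw [← sum_add_distrib]
  refine sum_le_sum fun i _ => ?_
  have hci := hc i
  by_cases hd : Disjoint (A i) B
  · by_cases hz : z ∈ A i
    · simp only [hd, hz, and_self, if_true]
      have h1 : (A i ∩ insert z M).card ≤ (A i ∩ M).card + 1 := by
        rw [inter_insert_of_mem hz]; exact card_insert_le _ _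
      have h2 : (2 : ℝ) ^ (A i ∩ insert z M).card ≤ 2 ^ ((A i ∩ M).card + 1) :=
        pow_le_pow_right₀ (by norm_num) h1
      rw [pow_succ] at h2
      nlinarith
    · simp only [hd, hz, and_false, if_true, if_false, inter_insert_of_notMem hz]
      linarith
  · simp [hd]

theorem phi_insert_B (M B : Finset V) (y : V) :
    Phi 𝒜 A c M (insert y B) = Phi 𝒜 A c M B - Wt 𝒜 A c M B y := by
  unfold Phi Wt
  rw [← sum_sub_distrib]
  refine sum_congr rfl fun i _ => ?_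
  by_cases hd : Disjoint (A i) B <;> by_cases hz : y ∈ A i <;> simp [hd, hz]

theorem wt_nonneg (hc : ∀ i, 0 ≤ c i) (M B : Finset V) (z : V) : 0 ≤ Wt 𝒜 A c M B z := by
  unfold Wt
  refine sum_nonneg fun i _ => ?_
  have := hc i
  split_ifs <;> positivity

theorem wt_le_phi (hc : ∀ i, 0 ≤ c i) (M B : Finset V) (z : V) :
    Wt 𝒜 A c M B z ≤ Phi 𝒜 A c M B := by
  unfold Wt Phi
  refine sum_le_sum fun i _ => ?_
  have := hc i
  by_cases hd : Disjoint (A i) B <;> by_cases hz : z ∈ A i <;> simp [hd, hz]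
  positivity

theorem wt_insert_B (hc : ∀ i, 0 ≤ c i) (M B : Finset V) (y z : V) :
    Wt 𝒜 A c M (insert y B) z ≤ Wt 𝒜 A c M B z := by
  unfold Wt
  refine sum_le_sum fun i _ => ?_
  have := hc i
  by_cases hd : Disjoint (A i) B <;> by_cases hz : z ∈ A i <;> by_cases hy : y ∈ A i <;>
    simp [hd, hz, hy]
  positivity

theorem phi_extra (hc : ∀ i, 0 ≤ c i) (M B : Finset V) (y : V) :
    Phi 𝒜 A c M (insert y B) ≤ Phi 𝒜 A c M B := by
  rw [phi_insert_B]
  linarith [wt_nonneg (𝒜 := 𝒜) (A := A) hc M B y]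

theorem phi_double (hc : ∀ i, 0 ≤ c i) (M B : Finset V) (z : V) :
    Phi 𝒜 A c (insert z M) B ≤ 2 * Phi 𝒜 A c M B := by
  linarith [phi_insert_le (𝒜 := 𝒜) (A := A) hc M B z, wt_le_phi (𝒜 := 𝒜) (A := A) hc M B z]

theorem es_step (hc : ∀ i, 0 ≤ c i) (M B Av : Finset V) (hne : Av.Nonempty) :
    ∃ y ∈ Av, ∀ z ∈ Av, Phi 𝒜 A c (insert z M) (insert y B) ≤ Phi 𝒜 A c M B := by
  obtain ⟨y, hy, hmax⟩ := exists_max_image Av (Wt 𝒜 A c M B) hne
  refine ⟨y, hy, fun z hz => ?_⟩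
  have h1 := phi_insert_le (𝒜 := 𝒜) (A := A) hc M (insert y B) z
  have h2 := phi_insert_B (𝒜 := 𝒜) (A := A) (c := c) M B y
  have h3 := wt_insert_B (𝒜 := 𝒜) (A := A) hc M B y z
  have h4 := hmax z hz
  linarith

theorem phi_out {U : Finset V} (hU : ∀ i ∈ 𝒜, A i ⊆ U) (M B : Finset V) {z : V}
    (hz : z ∉ U \ M) : Phi 𝒜 A c (insert z M) B = Phi 𝒜 A c M B := by
  by_cases hM : z ∈ M
  · rw [insert_eq_of_mem hM]
  · have hzU : z ∉ U := fun h => hz (mem_sdiff.2 ⟨h, hM⟩)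
    unfold Phi
    refine sum_congr rfl fun i hi => ?_
    rw [inter_insert_of_notMem fun h => hzU (hU i hi h)]

theorem le_phi (hc : ∀ i, 0 ≤ c i) (M B : Finset V) {i : ι} (hi : i ∈ 𝒜)
    (hd : Disjoint (A i) B) : c i * 2 ^ (A i ∩ M).card ≤ Phi 𝒜 A c M B := by
  unfold Phi
  have := single_le_sum (s := 𝒜)
    (f := fun i => if Disjoint (A i) B then c i * 2 ^ (A i ∩ M).card else 0)
    (fun i _ => by have := hc i; split_ifs <;> positivity) hi
  simpa [hd] using this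

theorem phi_le_sum (hc : ∀ i, 0 ≤ c i) (M B : Finset V) (hM : ∀ i ∈ 𝒜, Disjoint (A i) M) :
    Phi 𝒜 A c M B ≤ ∑ i ∈ 𝒜, c i := by
  unfold Phi
  refine sum_le_sum fun i hi => ?_
  rw [disjoint_iff_inter_eq_empty.1 (hM i hi)]
  have := hc i
  split_ifs <;> simp [this]

/-- Erdos-Selfridge as a local strategy. -/
theorem loc_es (hc : ∀ i, 0 ≤ c i) {U : Finset V} {F : Finset (Finset V)}
    (hF : ∀ e ∈ F, ∃ i ∈ 𝒜, A i ⊆ e ∧ 1 ≤ c i * 2 ^ (A i).card)
    (hU : ∀ i ∈ 𝒜, A i ⊆ U) {M B : Finset V} (hMB : Disjoint M B)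
    (h : 2 * Phi 𝒜 A c M B < 1) : Loc U F M B := by
  refine ⟨fun M B => Disjoint M B ∧ Phi 𝒜 A c M B < 1 ∧ ∀ z, Phi 𝒜 A c (insert z M) B < 1,
    ⟨hMB, ?_, fun z => (phi_double hc M B z).trans_lt h⟩, ?_⟩
  · have : 0 ≤ Phi 𝒜 A c M B := by
      unfold Phi
      refine sum_nonneg fun i _ => ?_
      have := hc i
      split_ifs <;> positivity
    linarith
  rintro M B ⟨hMB, h0, h1⟩
  refine ⟨fun e he heM => ?_, fun y hy => ⟨disjoint_insert_right.2 ⟨hy, hMB⟩,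
    (phi_extra hc _ _ _).trans_lt h0, fun z => (phi_extra hc _ _ _).trans_lt (h1 z)⟩,
    fun x hx hxB => ?_⟩
  · obtain ⟨i, hi, hie, hi1⟩ := hF e he
    have hAM : A i ⊆ M := hie.trans heM
    have := le_phi (𝒜 := 𝒜) hc M B hi (hMB.mono_left hAM)
    rw [inter_eq_left.2 hAM] at this
    linarith
  · have hd : Disjoint (insert x M) B := disjoint_insert_left.2 ⟨hxB, hMB⟩
    by_cases hxU : x ∈ U
    · rcases (U \ insert x M).eq_empty_or_nonempty with he | hne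
      · left
        refine ⟨hd, h1 x, fun z => ?_⟩
        rw [phi_out hU _ _ (by rw [he]; simp)]
        exact h1 x
      · right
        obtain ⟨y, hy, hmax⟩ := es_step (𝒜 := 𝒜) (A := A) hc (insert x M) B _ hne
        have hy' := mem_sdiff.1 hy
        refine ⟨hxU, y, hy'.1, hy'.2, disjoint_insert_right.2 ⟨hy'.2, hd⟩,
          (phi_extra hc _ _ _).trans_lt (h1 x), fun z => ?_⟩
        by_cases hz : z ∈ U \ insert x M
        · exact (hmax z hz).trans_lt (h1 x)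
        · rw [phi_out hU _ _ hz]
          exact (phi_extra hc _ _ _).trans_lt (h1 x)
    · left
      refine ⟨hd, h1 x, fun z => ?_⟩
      rw [insert_comm, phi_out hU _ _ (fun h => hxU (mem_sdiff.1 h).1)]
      exact h1 z

end ES

end Pool.Agent.Lib.MP_af2b3e_co.BS
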