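import Pool.Agent.Lib.MP_af2b3e_co.BSLoc

set_option autoImplicit false
set_option linter.unusedSectionVars false

/-! The big game / small game decomposition with cascades. -/

namespace Pool.Agent.Lib.MP_af2b3e_co.BS

open Finset

variable {V : Type} [DecidableEq V]

/-- Union of a family. -/
def Un (S : Finset (Finset V)) : Finset V := S.biUnion id

theorem mem_un {S : Finset (Finset V)} {p : V} : p ∈ Un S ↔ ∃ e ∈ S, p ∈ e := by
  simp [Un]

theorem un_insert (e : Finset V) (S : Finset (Finset V)) : Un (insert e S) = e ∪ Un S := by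
  simp [Un]

theorem sub_un {S : Finset (Finset V)} {e : Finset V} (he : e ∈ S) : e ⊆ Un S :=
  fun _ hp => mem_un.2 ⟨e, he, hp⟩

theorem un_mono {S T : Finset (Finset V)} (h : S ⊆ T) : Un S ⊆ Un T := fun _ hp => by
  obtain ⟨e, he, hp⟩ := mem_un.1 hp
  exact mem_un.2 ⟨e, h he, hp⟩

/-- Connected family (cut form). -/
def Conn (K : Finset (Finset V)) : Prop :=
  ∀ K' ⊆ K, K'.Nonempty → K' ≠ K → ∃ f ∈ K, f ∉ K' ∧ ∃ g ∈ K', ¬ Disjoint f g

/-- `K` is a subfamily of `P` closed under meeting inside `P`. -/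
def Closed (P K : Finset (Finset V)) : Prop :=
  K ⊆ P ∧ ∀ f ∈ P, ∀ g ∈ K, ¬ Disjoint f g → f ∈ K

/-- All components of `P` have fewer than `t` sets. -/
def Comp (t : ℕ) (P : Finset (Finset V)) : Prop :=
  ∀ e ∈ P, ∃ K, e ∈ K ∧ Closed P K ∧ Conn K ∧ K.card < t

/-- Every point of `Sm` is among the at most `m` points owned by some set of `P`. -/
def Own (m : ℕ) (P : Finset (Finset V)) (Sm : Finset V) : Prop :=
  ∃ O : Finset V → Finset V, (∀ e, O e ⊆ e ∧ (O e).card ≤ m) ∧ ∀ p ∈ Sm, ∃ e ∈ P, p ∈ O e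

theorem conn_singleton (e : Finset V) : Conn ({e} : Finset (Finset V)) := by
  intro K' hK' hne hK
  exact absurd (hne.subset_singleton_iff.1 hK') hK

theorem conn_empty : Conn (∅ : Finset (Finset V)) := by
  intro K' hK' hne _
  rw [subset_empty.1 hK'] at hne
  exact absurd hne (by simp)

theorem conn_part {K₁ K' : Finset (Finset V)} (h : Conn K₁) :
    (∃ f ∈ K₁, f ∉ K' ∧ ∃ g ∈ K', ¬ Disjoint f g) ∨ K₁ ⊆ K' ∨ Disjoint K₁ K' := by
  rcases (K₁ ∩ K').eq_empty_or_nonempty with he | hne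
  · exact Or.inr (Or.inr (disjoint_iff_inter_eq_empty.2 he))
  · by_cases hK : K₁ ∩ K' = K₁
    · exact Or.inr (Or.inl (inter_eq_left.1 hK))
    · obtain ⟨f, hf, hf', g, hg, hfg⟩ := h _ inter_subset_left hne hK
      exact Or.inl ⟨f, hf, fun h => hf' (mem_inter.2 ⟨hf, h⟩), g, (mem_inter.1 hg).2, hfg⟩

theorem conn_union {K₁ K₂ : Finset (Finset V)} (h₁ : Conn K₁) (h₂ : Conn K₂) {f g : Finset V}
    (hf : f ∈ K₁) (hg : g ∈ K₂) (hfg : ¬ Disjoint f g) : Conn (K₁ ∪ K₂) := by
  intro K' hK' hne hK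
  rcases conn_part (K' := K') h₁ with ⟨a, ha, h⟩ | s₁ | d₁
  · exact ⟨a, mem_union_left _ ha, h⟩
  · rcases conn_part (K' := K') h₂ with ⟨a, ha, h⟩ | s₂ | d₂
    · exact ⟨a, mem_union_right _ ha, h⟩
    · exact absurd (Subset.antisymm hK' (union_subset s₁ s₂)) hK
    · exact ⟨g, mem_union_right _ hg, disjoint_left.1 d₂ hg, f, s₁ hf,
        fun h => hfg h.symm⟩
  · rcases conn_part (K' := K') h₂ with ⟨a, ha, h⟩ | s₂ | d₂
    · exact ⟨a, mem_union_right _ ha, h⟩
    · exact ⟨f, mem_union_left _ hf, disjoint_left.1 d₁ hf, g, s₂ hg, hfg⟩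
    · obtain ⟨a, ha⟩ := hne
      rcases mem_union.1 (hK' ha) with h | h
      · exact absurd ha (disjoint_left.1 d₁ h)
      · exact absurd ha (disjoint_left.1 d₂ h)

theorem conn_sub {P C K : Finset (Finset V)} (hC : Conn C) (hCP : C ⊆ P) (hK : Closed P K)
    {g : Finset V} (hgC : g ∈ C) (hgK : g ∈ K) : C ⊆ K := by
  rcases conn_part (K' := K) hC with ⟨a, ha, ha', b, hb, hab⟩ | s | d
  · exact absurd (hK.2 a (hCP ha) b hb hab) ha'
  · exact s
  · exact absurd hgK (disjoint_left.1 d hgC)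

theorem comp_insert {t : ℕ} (ht : 1 < t) {P : Finset (Finset V)} (hP : Comp t P) (e : Finset V)
    (hw : ∀ K, Closed P K → Conn (insert e K) → t ≤ (insert e K).card →
      (insert e K).card < 2 * t → False) : Comp t (insert e P) := by
  have key : ∀ T : Finset (Finset V), (∀ g ∈ T, g ∈ P ∧ ¬ Disjoint g e) →
      ∃ K, T ⊆ K ∧ Closed P K ∧ Conn (insert e K) ∧ (insert e K).card < t := by
    intro T
    induction T using Finset.induction_on with
    | empty =>
      intro _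
      exact ⟨∅, Subset.refl _, ⟨empty_subset _, by simp⟩, conn_singleton e, by simpa using ht⟩
    | insert g T _ ih =>
      intro hT
      obtain ⟨K, hTK, hK, hc, hcard⟩ := ih fun a ha => hT a (mem_insert_of_mem ha)
      obtain ⟨hgP, hge⟩ := hT g (mem_insert_self _ _)
      obtain ⟨L, hgL, hL, hLc, hLcard⟩ := hP g hgP
      have hcl : Closed P (L ∪ K) := ⟨union_subset hL.1 hK.1, fun f hf a ha hfa => by
        rcases mem_union.1 ha with ha | ha
        · exact mem_union_left _ (hL.2 f hf a ha hfa)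
        · exact mem_union_right _ (hK.2 f hf a ha hfa)⟩
      have heq : insert e (L ∪ K) = L ∪ insert e K := by rw [union_insert]
      have hcn : Conn (insert e (L ∪ K)) := by
        rw [heq]; exact conn_union hLc hc hgL (mem_insert_self _ _) hge
      have hlt : (insert e (L ∪ K)).card < 2 * t := by
        rw [heq]
        have := card_union_le L (insert e K)
        omega
      refine ⟨L ∪ K, insert_subset (mem_union_left _ hgL) (hTK.trans subset_union_right), hcl,
        hcn, ?_⟩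
      by_contra hc'
      exact hw _ hcl hcn (not_lt.1 hc') hlt
  obtain ⟨K, hTK, hK, hc, hcard⟩ := key (P.filter fun g => ¬ Disjoint g e)
    fun g hg => mem_filter.1 hg
  have hmeet : ∀ g ∈ P, ¬ Disjoint g e → g ∈ K := fun g hg h => hTK (mem_filter.2 ⟨hg, h⟩)
  have hL : Closed (insert e P) (insert e K) := by
    refine ⟨insert_subset_insert _ hK.1, fun f hf g hg hfg => ?_⟩
    rcases mem_insert.1 hf with hf' | hf'
    · rw [hf']; exact mem_insert_self _ _
    · rcases mem_insert.1 hg with hg' | hg'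
      · exact mem_insert_of_mem (hmeet f hf' (hg' ▸ hfg))
      · exact mem_insert_of_mem (hK.2 f hf' g hg' hfg)
  intro f hf
  by_cases hfL : f ∈ insert e K
  · exact ⟨_, hfL, hL, hc, hcard⟩
  · have hfe : f ≠ e := fun h => hfL (h ▸ mem_insert_self _ _)
    have hfP : f ∈ P := (mem_insert.1 hf).resolve_left hfe
    obtain ⟨L, hfL', hLc, hLn, hLcard⟩ := hP f hfP
    refine ⟨L, hfL', ⟨hLc.1.trans (subset_insert _ _), fun a ha g hg hag => ?_⟩, hLn, hLcard⟩
    rcases mem_insert.1 ha with rfl | ha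
    · have hgK := hmeet g (hLc.1 hg) fun h => hag h.symm
      exact absurd (mem_insert_of_mem (conn_sub hLn hLc.1 hK hg hgK hfL')) hfL
    · exact hLc.2 a ha g hg hag

section Main

variable [Fintype V] {H : Finset (Finset V)} {n m t : ℕ} {c : Finset (Finset V) → ℝ}

theorem no_wit (hn : ∀ e ∈ H, e.card = n) (hc : ∀ S, 0 ≤ c S)
    (wit : ∀ S ⊆ H, Conn S → t ≤ S.card → S.card < 2 * t →
      ∃ S₀ ⊆ S, (2 : ℝ) ^ (m * S.card + n) ≤ c S₀ * 2 ^ (Un S₀).card)
    {Q : Finset (Finset V)} {Mb Bb Sm : Finset V}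
    (hQ : ∀ f ∈ Q, f ∈ H ∧ Disjoint f Bb ∧ f ⊆ Mb ∪ Sm) (hown : Own m Q Sm)
    (hphi : Phi univ Un c Mb Bb < 1) {e : Finset V} (he : e ∈ H) (heB : Disjoint e Bb)
    (K : Finset (Finset V)) (hK : Closed Q K) (hcn : Conn (insert e K))
    (h1 : t ≤ (insert e K).card) (h2 : (insert e K).card < 2 * t) : False := by
  obtain ⟨O, hO, hown⟩ := hown
  obtain ⟨S₀, hS₀, hw⟩ := wit (insert e K)
    (insert_subset he fun f hf => (hQ f (hK.1 hf)).1) hcn h1 h2
  have hd : Disjoint (Un S₀) Bb := by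
    rw [disjoint_left]
    intro p hp hpB
    obtain ⟨f, hf, hpf⟩ := mem_un.1 hp
    rcases mem_insert.1 (hS₀ hf) with rfl | hf
    · exact disjoint_left.1 heB hpf hpB
    · exact disjoint_left.1 (hQ f (hK.1 hf)).2.1 hpf hpB
  have hsub : Un S₀ ⊆ (Un S₀ ∩ Mb) ∪ (e ∪ K.biUnion O) := by
    intro p hp
    obtain ⟨f, hf, hpf⟩ := mem_un.1 hp
    rcases mem_insert.1 (hS₀ hf) with rfl | hf
    · exact mem_union_right _ (mem_union_left _ hpf)
    · rcases mem_union.1 ((hQ f (hK.1 hf)).2.2 hpf) with hM | hS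
      · exact mem_union_left _ (mem_inter.2 ⟨hp, hM⟩)
      · obtain ⟨g, hg, hpg⟩ := hown p hS
        have hgK : g ∈ K := hK.2 g hg f hf
          (not_disjoint_iff.2 ⟨p, (hO g).1 hpg, hpf⟩)
        exact mem_union_right _ (mem_union_right _ (mem_biUnion.2 ⟨g, hgK, hpg⟩))
  have hcard : (Un S₀).card ≤ (Un S₀ ∩ Mb).card + (m * (insert e K).card + n) := by
    have a1 := card_le_card hsub
    have a2 := card_union_le (Un S₀ ∩ Mb) (e ∪ K.biUnion O)
    have a3 := card_union_le e (K.biUnion O)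
    have a4 : (K.biUnion O).card ≤ K.card * m :=
      card_biUnion_le_card_mul _ _ _ fun g _ => (hO g).2
    have a5 : K.card * m ≤ (insert e K).card * m :=
      Nat.mul_le_mul_right _ (card_le_card (subset_insert _ _))
    have a6 := hn e he
    rw [mul_comm m]
    omega
  have hle := le_phi (𝒜 := univ) (A := Un) hc Mb Bb (mem_univ S₀) hd
  have h3 : (2 : ℝ) ^ (Un S₀).card ≤
      2 ^ (Un S₀ ∩ Mb).card * 2 ^ (m * (insert e K).card + n) := by
    rw [← pow_add]; exact pow_le_pow_right₀ (by norm_num) hcard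
  have h4 : (0 : ℝ) < 2 ^ (m * (insert e K).card + n) := by positivity
  have h5 := mul_le_mul_of_nonneg_left h3 (hc S₀)
  have h6 : 1 * (2 : ℝ) ^ (m * (insert e K).card + n) ≤
      (c S₀ * 2 ^ (Un S₀ ∩ Mb).card) * 2 ^ (m * (insert e K).card + n) := by
    linarith
  have := le_of_mul_le_mul_right h6 h4
  linarith

theorem cascade (hn : ∀ e ∈ H, e.card = n) (hc : ∀ S, 0 ≤ c S) (ht : 1 < t)
    (wit : ∀ S ⊆ H, Conn S → t ≤ S.card → S.card < 2 * t →
      ∃ S₀ ⊆ S, (2 : ℝ) ^ (m * S.card + n) ≤ c S₀ * 2 ^ (Un S₀).card)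
    {P : Finset (Finset V)} {Mb Bb Sm : Finset V} {x : V}
    (hP : ∀ f ∈ P, f ∈ H ∧ Disjoint f Bb ∧ f ⊆ insert x Mb ∪ Sm) (hown : Own m P Sm)
    (hcomp : Comp t P) (hphi : Phi univ Un c (insert x Mb) Bb < 1)
    (hbig : ∀ e ∈ H, e ∉ P → Disjoint e Bb → m < (e \ (Mb ∪ Sm)).card) :
    ∃ C ⊆ H, (∀ e ∈ C, e ∉ P ∧ Disjoint e Bb) ∧
      Own m (P ∪ C) (Sm ∪ (Un C \ (insert x Mb ∪ Sm))) ∧ Comp t (P ∪ C) ∧ C.card < t ∧
      ∀ e ∈ H, e ∉ P ∪ C → Disjoint e Bb → m < (e \ (insert x Mb ∪ Sm ∪ Un C)).card := by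
  classical
  set X := insert x Mb ∪ Sm with hX
  let Cas : Finset (Finset V) → Prop := fun C => C ⊆ H ∧ (∀ e ∈ C, e ∉ P ∧ Disjoint e Bb) ∧
    Own m (P ∪ C) (Sm ∪ (Un C \ X)) ∧ Comp t (P ∪ C) ∧ Conn C ∧ (C = ∅ ∨ ∃ f ∈ C, x ∈ f)
  have h0 : Cas ∅ := ⟨empty_subset _, by simp, by simpa [Un] using hown, by simpa using hcomp,
    conn_empty, Or.inl rfl⟩
  obtain ⟨C, hC, hmax⟩ := exists_max_image (univ.filter Cas) card ⟨∅, by simpa using h0⟩
  obtain ⟨hCH, hCa, hCo, hCc, hCn, hCx⟩ : Cas C := by simpa using hC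
  refine ⟨C, hCH, hCa, hCo, hCc, ?_, fun e he heP heB => ?_⟩
  · rcases hCx with rfl | ⟨f, hf, _⟩
    · simp only [card_empty]; omega
    · obtain ⟨K, hfK, hK, _, hKc⟩ := hCc f (mem_union_right _ hf)
      exact (card_le_card (conn_sub hCn subset_union_right hK hf hfK)).trans_lt hKc
  by_contra hle
  push Not at hle
  rw [mem_union, not_or] at heP
  have hQ : ∀ f ∈ P ∪ C, f ∈ H ∧ Disjoint f Bb ∧ f ⊆ insert x Mb ∪ (Sm ∪ (Un C \ X)) := by
    intro f hf
    rcases mem_union.1 hf with hf | hf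
    · exact ⟨(hP f hf).1, (hP f hf).2.1, (hP f hf).2.2.trans
        (union_subset_union (Subset.refl _) subset_union_left)⟩
    · refine ⟨hCH hf, (hCa f hf).2, fun p hp => ?_⟩
      by_cases hpX : p ∈ X
      · rw [← union_assoc]; exact mem_union_left _ hpX
      · exact mem_union_right _ (mem_union_right _ (mem_sdiff.2 ⟨sub_un hf hp, hpX⟩))
  obtain ⟨p, hpe, hp1, hp2⟩ : ∃ p ∈ e, p ∉ Mb ∪ Sm ∧ p ∈ X ∪ Un C := by
    by_contra hcon
    push Not at hcon
    have : e \ (Mb ∪ Sm) ⊆ e \ (X ∪ Un C) := fun p hp =>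
      mem_sdiff.2 ⟨(mem_sdiff.1 hp).1, hcon p (mem_sdiff.1 hp).1 (mem_sdiff.1 hp).2⟩
    have := card_le_card this
    have := hbig e he heP.1 heB
    omega
  have hp3 : p = x ∨ p ∈ Un C := by
    rcases mem_union.1 hp2 with h | h
    · rw [hX, insert_union] at h
      exact Or.inl ((mem_insert.1 h).resolve_right hp1)
    · exact Or.inr h
  have hnew : Cas (insert e C) := by
    refine ⟨insert_subset he hCH, fun f hf => ?_, ?_, ?_, ?_, ?_⟩
    · rcases mem_insert.1 hf with rfl | hf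
      · exact ⟨heP.1, heB⟩
      · exact hCa f hf
    · obtain ⟨O, hO, hOp⟩ := hCo
      refine ⟨Function.update O e (e \ (X ∪ Un C)), fun f => ?_, fun q hq => ?_⟩
      · by_cases hfe : f = e
        · subst hfe
          rw [Function.update_self]
          exact ⟨sdiff_subset, hle⟩
        · rw [Function.update_of_ne hfe]; exact hO f
      · by_cases hq' : q ∈ Sm ∪ (Un C \ X)
        · obtain ⟨f, hf, hqf⟩ := hOp q hq'
          have hfe : f ≠ e := by
            rintro rfl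
            rcases mem_union.1 hf with h | h
            · exact heP.1 h
            · exact heP.2 h
          refine ⟨f, union_subset_union (Subset.refl _) (subset_insert _ _) hf, ?_⟩
          rw [Function.update_of_ne hfe]; exact hqf
        · refine ⟨e, mem_union_right _ (mem_insert_self _ _), ?_⟩
          rw [Function.update_self]
          rw [un_insert] at hq
          simp only [mem_union, mem_sdiff] at hq hq' ⊢
          tauto
    · rw [union_insert]
      exact comp_insert ht hCc e (no_wit hn hc wit hQ hCo hphi he heB)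
    · rcases hCx with rfl | ⟨f, hf, hxf⟩
      · exact conn_singleton e
      · rw [insert_eq, union_comm]
        rcases hp3 with rfl | h
        · exact conn_union hCn (conn_singleton e) hf (mem_singleton_self e)
            (not_disjoint_iff.2 ⟨p, hxf, hpe⟩)
        · obtain ⟨g, hg, hpg⟩ := mem_un.1 h
          exact conn_union hCn (conn_singleton e) hg (mem_singleton_self e)
            (not_disjoint_iff.2 ⟨p, hpg, hpe⟩)
    · right
      rcases hCx with rfl | ⟨f, hf, hxf⟩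
      · rcases hp3 with rfl | h
        · exact ⟨e, mem_insert_self _ _, hpe⟩
        · simp [Un] at h
      · exact ⟨f, mem_insert_of_mem hf, hxf⟩
  have := hmax (insert e C) (by simpa using hnew)
  rw [card_insert_of_notMem heP.2] at this
  omega

theorem breaker_of (hn : ∀ e ∈ H, e.card = n) (hmn : m < n) (hc : ∀ S, 0 ≤ c S) (ht : 1 < t)
    (hsum : 2 * ∑ S, c S < 1)
    (wit : ∀ S ⊆ H, Conn S → t ≤ S.card → S.card < 2 * t →
      ∃ S₀ ⊆ S, (2 : ℝ) ^ (m * S.card + n) ≤ c S₀ * 2 ^ (Un S₀).card)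
    (small : ∀ C ⊆ H, C.card < t → ∀ (X U M B : Finset V),
      (∀ e ∈ C, e \ X ⊆ U ∧ m ≤ (e \ X).card ∧ Disjoint (e \ X) M ∧ Disjoint (e \ X) B) →
      Disjoint M B → Loc U C M B) :
    Loc univ H ∅ ∅ := by
  refine ⟨fun M B => ∃ Sm P, Loc Sm P M B ∧ Disjoint M B ∧ (∀ f ∈ P, f ∈ H ∧ f ⊆ M ∪ Sm) ∧
    Own m P Sm ∧ Comp t P ∧
    (∀ e ∈ H, e ∉ P → Disjoint e (B \ Sm) → m < (e \ (M ∪ Sm)).card) ∧
    ∀ z, z ∉ M ∪ Sm → Phi univ Un c (insert z (M \ Sm)) (B \ Sm) < 1,
    ⟨∅, ∅, loc_empty _ _ _, by simp, by simp, ⟨fun _ => ∅, by simp, by simp⟩,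
      by simp [Comp], fun e he _ _ => by simpa [hn e he] using hmn, fun z _ => ?_⟩, ?_⟩
  · have h1 := phi_double (𝒜 := univ) (A := Un) hc (∅ \ ∅) (∅ \ ∅) z
    have h2 := phi_le_sum (𝒜 := univ) (A := Un) hc (∅ \ ∅) (∅ \ ∅ : Finset V) (by simp)
    linarith
  have extra : ∀ (M B Sm : Finset V) (P : Finset (Finset V)) (y : V),
      (∀ e ∈ H, e ∉ P → Disjoint e (B \ Sm) → m < (e \ (M ∪ Sm)).card) →
      ∀ e ∈ H, e ∉ P → Disjoint e (insert y B \ Sm) → m < (e \ (M ∪ Sm)).card :=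
    fun M B Sm P y h e he heP hd =>
      h e he heP (hd.mono_right (sdiff_subset_sdiff (subset_insert _ _) (Subset.refl _)))
  rintro M B ⟨Sm, P, hL, hMB, hP, hown, hcomp, hbig, hphi⟩
  refine ⟨fun e he heM => ?_, fun y hy => ⟨Sm, P, hL.extra hy,
    disjoint_insert_right.2 ⟨hy, hMB⟩, hP, hown, hcomp, extra M B Sm P y hbig,
    fun z hz => ?_⟩, fun x hx hxB => ?_⟩
  · by_cases heP : e ∈ P
    · exact hL.safe e heP heM
    · have := hbig e he heP ((hMB.mono_left heM).mono_right sdiff_subset)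
      rw [sdiff_eq_empty_iff_subset.2 (heM.trans subset_union_left)] at this
      simp at this
  · by_cases hyS : y ∈ Sm
    · rw [insert_sdiff_of_mem _ hyS]; exact hphi z hz
    · rw [insert_sdiff_of_notMem _ hyS]
      exact (phi_extra hc _ _ _).trans_lt (hphi z hz)
  have hd : Disjoint (insert x M) B := disjoint_insert_left.2 ⟨hxB, hMB⟩
  by_cases hxS : x ∈ Sm
  · have e1 : insert x M ∪ Sm = M ∪ Sm := by
      rw [insert_union, insert_eq_of_mem (mem_union_right _ hxS)]
    have e2 : insert x M \ Sm = M \ Sm := insert_sdiff_of_mem _ hxS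
    rcases hL.move hx hxB with g | ⟨_, y, hy, hy', g⟩
    · exact Or.inl ⟨Sm, P, g, hd, by rw [e1]; exact hP, hown, hcomp, by rw [e1]; exact hbig,
        by rw [e1, e2]; exact hphi⟩
    · have e3 : insert y B \ Sm = B \ Sm := insert_sdiff_of_mem _ hy
      exact Or.inr ⟨mem_univ _, y, mem_univ _, hy', Sm, P, g,
        disjoint_insert_right.2 ⟨hy', hd⟩, by rw [e1]; exact hP, hown, hcomp,
        by rw [e1, e3]; exact hbig, by rw [e1, e2, e3]; exact hphi⟩
  have hL1 : Loc Sm P (insert x M) B := (hL.move hx hxB).resolve_right fun h => hxS h.1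
  have e0 : M \ Sm ∪ Sm = M ∪ Sm := sdiff_union_self_eq_union
  have e1 : insert x (M \ Sm) ∪ Sm = insert x M ∪ Sm := by rw [insert_union, e0, insert_union]
  have hphi1 := hphi x (by simp [hx, hxS])
  obtain ⟨C, hCH, hCa, hCo, hCc, hCt, hCb⟩ := cascade (P := P) (Mb := M \ Sm) (Bb := B \ Sm)
    (Sm := Sm) (x := x) hn hc ht wit (fun f hf => ⟨(hP f hf).1, by
      rw [disjoint_left]
      intro p hp hpB
      rcases mem_union.1 ((hP f hf).2 hp) with h | h
      · exact disjoint_left.1 hMB h (mem_sdiff.1 hpB).1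
      · exact (mem_sdiff.1 hpB).2 h, by
      rw [e1]
      exact (hP f hf).2.trans (union_subset_union (subset_insert _ _) (Subset.refl _))⟩)
    hown hcomp hphi1 (by rw [e0]; exact hbig)
  rw [e1] at hCo hCb
  set X := insert x M ∪ Sm with hX
  have hfree : ∀ e ∈ C, Disjoint (e \ X) B := by
    intro e he
    rw [disjoint_left]
    intro p hp hpB
    have hp' := mem_sdiff.1 hp
    exact disjoint_left.1 (hCa e he).2 hp'.1
      (mem_sdiff.2 ⟨hpB, fun h => hp'.2 (mem_union_right _ h)⟩)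
  have hL2 : Loc (Un C \ X) C (insert x M) B := by
    refine small C hCH hCt X _ _ _ (fun e he => ⟨sdiff_subset_sdiff (sub_un he) (Subset.refl _),
      ?_, disjoint_sdiff_self_left.mono_right subset_union_left, hfree e he⟩) hd
    have h1 := hbig e (hCH he) (hCa e he).1 (hCa e he).2
    have h2 : e \ (M ∪ Sm) ⊆ insert x (e \ X) := by
      intro p hp
      rw [hX]
      simp only [mem_sdiff, mem_union, mem_insert] at hp ⊢
      tauto
    have h3 := card_le_card h2
    have h4 := card_insert_le x (e \ X)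
    omega
  have hL3 := hL1.union hL2 (disjoint_sdiff_self_right.mono_left subset_union_right)
  set Sm' := Sm ∪ (Un C \ X) with hSm'
  have e2 : insert x M ∪ Sm' = X ∪ Un C := by
    rw [hSm', ← union_assoc, ← hX, union_sdiff_self_eq_union]
  have e3 : insert x M \ Sm' = insert x (M \ Sm) := by
    ext p
    rw [hSm', hX]
    simp only [mem_sdiff, mem_union, mem_insert]
    constructor
    · tauto
    · rintro (rfl | h) <;> tauto
  have e4 : B \ Sm' = B \ Sm := by
    ext p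
    rw [hSm']
    simp only [mem_sdiff, mem_union]
    constructor
    · tauto
    · rintro ⟨h1, h2⟩
      refine ⟨h1, ?_⟩
      rintro (h | ⟨h, h'⟩)
      · exact h2 h
      · obtain ⟨e, he, hpe⟩ := mem_un.1 h
        exact disjoint_left.1 (hfree e he) (mem_sdiff.2 ⟨hpe, h'⟩) h1
  have hP' : ∀ f ∈ P ∪ C, f ∈ H ∧ f ⊆ insert x M ∪ Sm' := by
    intro f hf
    rw [e2]
    rcases mem_union.1 hf with hf | hf
    · exact ⟨(hP f hf).1, ((hP f hf).2.trans
        (union_subset_union (subset_insert _ _) (Subset.refl _))).trans subset_union_left⟩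
    · exact ⟨hCH hf, (sub_un hf).trans subset_union_right⟩
  have hbig' : ∀ e ∈ H, e ∉ P ∪ C → Disjoint e (B \ Sm') →
      m < (e \ (insert x M ∪ Sm')).card := by
    rw [e2, e4]; exact hCb
  rcases (univ \ (insert x M ∪ Sm')).eq_empty_or_nonempty with he | hne
  · refine Or.inl ⟨Sm', P ∪ C, hL3, hd, hP', hCo, hCc, hbig', fun z hz => ?_⟩
    have : z ∈ univ \ (insert x M ∪ Sm') := mem_sdiff.2 ⟨mem_univ _, hz⟩
    rw [he] at this
    simp at this
  · obtain ⟨y, hy, hmax⟩ := es_step (𝒜 := univ) (A := Un) hc (insert x (M \ Sm)) (B \ Sm) _ hne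
    have hy' := (mem_sdiff.1 hy).2
    rw [mem_union, not_or] at hy'
    refine Or.inr ⟨mem_univ _, y, mem_univ _, hy'.1, Sm', P ∪ C, hL3.extra hy'.1,
      disjoint_insert_right.2 ⟨hy'.1, hd⟩, hP', hCo, hCc, extra _ _ _ _ y hbig', fun z hz => ?_⟩
    rw [e3, insert_sdiff_of_notMem _ hy'.2, e4]
    exact (hmax z (mem_sdiff.2 ⟨mem_univ _, hz⟩)).trans_lt hphi1

end Main

end Pool.Agent.Lib.MP_af2b3e_co.BS
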