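import Pool.Agent.Lib.MP_af2b3e_co.BSFreeze

set_option autoImplicit false
set_option linter.unusedSectionVars false

/-! Robust threshold games: the freezing strategy over an arbitrary strategy for the big game. -/

namespace Pool.Agent.Lib.MP_af2b3e_co.BS

open Finset

variable {V : Type} [DecidableEq V] [Fintype V]

/-- Breaker keeps Maker below `a` points in every set of `H` he has not hit, although free points
may be deleted (moved into `X`) at any time. -/
def Rob (H : Finset (Finset V)) (a : ℕ) (M B X : Finset V) : Prop :=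
  ∃ I : Finset V → Finset V → Finset V → Prop, I M B X ∧ ∀ M B X, I M B X →
    (∀ e ∈ H, Disjoint e B → (e ∩ M).card < a) ∧
    (∀ y, y ∉ M → y ∉ X → I M (insert y B) X) ∧
    (∀ Y, Disjoint Y M → Disjoint Y B → I M B (X ∪ Y)) ∧
    ∀ x, x ∉ M → x ∉ B → x ∉ X → I (insert x M) B X ∨
      ∃ y, y ∉ insert x M ∧ y ∉ X ∧ I (insert x M) (insert y B) X

variable {H : Finset (Finset V)} {a b : ℕ} {M B X : Finset V}

theorem Rob.safe (h : Rob H a M B X) : ∀ e ∈ H, Disjoint e B → (e ∩ M).card < a := by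
  obtain ⟨I, h0, hI⟩ := h
  exact (hI M B X h0).1

theorem Rob.extra (h : Rob H a M B X) {y : V} (hy : y ∉ M) (hy' : y ∉ X) :
    Rob H a M (insert y B) X := by
  obtain ⟨I, h0, hI⟩ := h
  exact ⟨I, (hI M B X h0).2.1 y hy hy', hI⟩

theorem Rob.del (h : Rob H a M B X) {Y : Finset V} (h1 : Disjoint Y M) (h2 : Disjoint Y B) :
    Rob H a M B (X ∪ Y) := by
  obtain ⟨I, h0, hI⟩ := h
  exact ⟨I, (hI M B X h0).2.2.1 Y h1 h2, hI⟩

theorem Rob.move (h : Rob H a M B X) {x : V} (hx : x ∉ M) (hxB : x ∉ B) (hxX : x ∉ X) :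
    Rob H a (insert x M) B X ∨
      ∃ y, y ∉ insert x M ∧ y ∉ X ∧ Rob H a (insert x M) (insert y B) X := by
  obtain ⟨I, h0, hI⟩ := h
  rcases (hI M B X h0).2.2.2 x hx hxB hxX with h | ⟨y, hy, hy', h⟩
  · exact Or.inl ⟨I, h, hI⟩
  · exact Or.inr ⟨y, hy, hy', I, h, hI⟩

theorem Rob.loc {n : ℕ} (hn : ∀ e ∈ H, e.card = n) (h : Rob H n ∅ ∅ ∅) : Loc univ H ∅ ∅ := by
  refine ⟨fun M B => Disjoint M B ∧ Rob H n M B ∅, ⟨by simp, h⟩, ?_⟩
  rintro M B ⟨hd, h⟩
  refine ⟨fun e he heM => ?_, fun y hy => ⟨disjoint_insert_right.2 ⟨hy, hd⟩,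
    h.extra hy (by simp)⟩, fun x hx hxB => ?_⟩
  · have := h.safe e he (hd.mono_left heM)
    rw [inter_eq_left.2 heM, hn e he] at this
    omega
  · have hd' : Disjoint (insert x M) B := disjoint_insert_left.2 ⟨hxB, hd⟩
    rcases h.move hx hxB (by simp) with g | ⟨y, hy, _, g⟩
    · exact Or.inl ⟨hd', g⟩
    · exact Or.inr ⟨mem_univ _, y, mem_univ _, hy, disjoint_insert_right.2 ⟨hy, hd'⟩, g⟩

theorem rob_es (h : 2 * H.card < 2 ^ a) : Rob H a ∅ ∅ ∅ := by
  have hc := half_nonneg (V := V) a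
  refine ⟨fun M B X => Psi a H M B < 1 ∧ ∀ z, z ∉ M ∪ X → Psi a H (insert z M) B < 1, ?_, ?_⟩
  · have h1 := phi_le_sum (𝒜 := H) (A := id) hc ∅ ∅ (by simp)
    rw [sum_const, nsmul_eq_mul] at h1
    have h2 : (2 : ℝ) * H.card < 2 ^ a := by exact_mod_cast h
    have h3 : 2 * ((H.card : ℝ) * (1 / 2) ^ a) < 1 := by
      rw [← mul_assoc, one_div, inv_pow, mul_inv_lt_iff₀ (by positivity), one_mul]
      exact h2
    have h4 : (0 : ℝ) ≤ H.card * (1 / 2) ^ a := by positivity
    unfold Psi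
    refine ⟨by linarith, fun z _ => ?_⟩
    have := phi_double (𝒜 := H) (A := id) hc ∅ ∅ z
    linarith
  rintro M B X ⟨h0, h1⟩
  refine ⟨fun e he hd => ?_, fun y _ _ => ⟨(phi_extra hc _ _ _).trans_lt h0,
    fun z hz => (phi_extra hc _ _ _).trans_lt (h1 z hz)⟩, fun Y _ _ => ⟨h0, fun z hz =>
      h1 z fun h => hz (union_subset_union (Subset.refl _) subset_union_left h)⟩,
    fun x hx _ hxX => ?_⟩
  · have h6 := (le_phi (𝒜 := H) (A := id) hc M B he hd).trans_lt h0
    rw [one_div, inv_pow, inv_mul_eq_div, div_lt_one (by positivity)] at h6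
    exact (pow_lt_pow_iff_right₀ (by norm_num)).1 h6
  have h2 := h1 x (by simp [hx, hxX])
  rcases (univ \ (insert x M ∪ X)).eq_empty_or_nonempty with he | hne
  · refine Or.inl ⟨h2, fun z hz => ?_⟩
    have : z ∈ univ \ (insert x M ∪ X) := mem_sdiff.2 ⟨mem_univ _, hz⟩
    rw [he] at this
    simp at this
  · obtain ⟨y, hy, hmax⟩ := es_step (𝒜 := H) (A := id) hc (insert x M) B _ hne
    have hy' := (mem_sdiff.1 hy).2
    rw [mem_union, not_or] at hy'
    exact Or.inr ⟨y, hy'.1, hy'.2, (phi_extra hc _ _ _).trans_lt h2, fun z hz =>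
      (hmax z (mem_sdiff.2 ⟨mem_univ _, hz⟩)).trans_lt h2⟩

/-- Small potentials, Maker being restricted to points outside `Z`. -/
def SmallX (H : Finset (Finset V)) (b : ℕ) (Z N B F : Finset V) (D : Finset (Finset V)) : Prop :=
  ∀ K, ClosedF F (Act H 1 D F) K → Psi b K N B ≤ 2 ^ 1 * (1 / 2) ^ b * K.card ∧
    ∀ z, z ∉ Z → Psi b K (insert z N) B ≤ 2 ^ 1 * (1 / 2) ^ b * K.card

theorem SmallX.extra {Z N F : Finset V} {D : Finset (Finset V)} (h : SmallX H b Z N B F D)
    (y : V) : SmallX H b Z N (insert y B) F D := fun K hK =>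
  ⟨(phi_extra (half_nonneg b) _ _ _).trans (h K hK).1, fun z hz =>
    (phi_extra (half_nonneg b) _ _ _).trans ((h K hK).2 z hz)⟩

theorem SmallX.mono {Z Z' N F : Finset V} {D : Finset (Finset V)} (h : SmallX H b Z N B F D)
    (hZ : Z ⊆ Z') : SmallX H b Z' N B F D := fun K hK =>
  ⟨(h K hK).1, fun z hz => (h K hK).2 z fun g => hz (hZ g)⟩

theorem freeze_big {F Z : Finset V} {D : Finset (Finset V)} (hC : Core H a M B F D)
    (hS : SmallX H b Z (M ∩ F) B F D) {x : V} (hx : x ∉ M) (hxB : x ∉ B) (hxF : x ∉ F) :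
    ∃ Y D', Disjoint Y (insert x M) ∧ Disjoint Y (B \ F) ∧
      Core H a (insert x M) B (F ∪ Y) D' ∧ SmallX H b Z (M ∩ F) B (F ∪ Y) D' := by
  have hd : Disjoint (insert x M) B := disjoint_insert_left.2 ⟨hxB, hC.1⟩
  set R := insert x (M \ F) with hR
  set N := H.filter fun e => e ∉ D ∧ Disjoint e (B \ F) ∧ a ≤ (e ∩ R).card with hN
  have hY : Disjoint (Un N \ insert x M) (B \ F) := by
    rw [disjoint_left]
    intro p hp hpB
    obtain ⟨e, he, hpe⟩ := mem_un.1 (mem_sdiff.1 hp).1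
    exact disjoint_left.1 (mem_filter.1 he).2.2.1 hpe hpB
  refine ⟨Un N \ insert x M, D ∪ N, disjoint_sdiff_self_left, hY, ?_, ?_⟩
  · have e1 : insert x M \ (F ∪ (Un N \ insert x M)) = R := by
      ext p
      rw [hR]
      simp only [mem_sdiff, mem_union, mem_insert]
      constructor
      · tauto
      · rintro (rfl | h) <;> tauto
    have e2 : B \ (F ∪ (Un N \ insert x M)) = B \ F := by
      ext p
      have : p ∈ Un N \ insert x M → p ∉ B \ F := fun h => disjoint_left.1 hY h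
      simp only [mem_sdiff, mem_union] at this ⊢
      tauto
    refine ⟨hd, fun d hd' => ?_, fun e he heD hal => ?_, fun p hp => ?_⟩
    · rw [e1]
      rcases mem_union.1 hd' with h | h
      · obtain ⟨h1, h2, h3⟩ := hC.2.1 d h
        refine ⟨h1, h2.trans (union_subset_union (subset_insert _ _) subset_union_left), ?_⟩
        rw [hR, inter_insert_of_notMem fun hxd => ?_, h3]
        rcases mem_union.1 (h2 hxd) with h | h
        · exact hx h
        · exact hxF h
      · obtain ⟨h1, h2, h3, h4⟩ := mem_filter.1 h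
        refine ⟨h1, fun p hp => ?_, le_antisymm ?_ h4⟩
        · by_cases hpM : p ∈ insert x M
          · exact mem_union_left _ hpM
          · exact mem_union_right _ (mem_union_right _ (mem_sdiff.2 ⟨sub_un h hp, hpM⟩))
        · have h5 := hC.2.2.1 d h1 h2 h3
          have h6 : d ∩ R ⊆ insert x (d ∩ (M \ F)) := by
            intro p hp
            rw [hR] at hp
            simp only [mem_inter, mem_insert] at hp ⊢
            tauto
          have h7 := (card_le_card h6).trans (card_insert_le _ _)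
          omega
    · rw [e1]
      rw [e2] at hal
      rw [mem_union, not_or] at heD
      by_contra hcon
      exact heD.2 (mem_filter.2 ⟨he, heD.1, hal, not_lt.1 hcon⟩)
    · rcases mem_union.1 hp with h | h
      · obtain ⟨d, hd, hpd⟩ := hC.2.2.2 p h
        exact ⟨d, mem_union_left _ hd, hpd⟩
      · obtain ⟨d, hd, hpd⟩ := mem_un.1 (mem_sdiff.1 h).1
        exact ⟨d, mem_union_right _ hd, hpd⟩
  · intro K hK
    have hAA : Act H 1 D F ⊆ Act H 1 (D ∪ N) (F ∪ (Un N \ insert x M)) := by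
      intro e he
      obtain ⟨h1, h2⟩ := mem_filter.1 he
      refine mem_filter.2 ⟨h1, h2.imp (mem_union_left _) fun h => h.trans (card_le_card
        (inter_subset_inter (Subset.refl _) subset_union_left))⟩
    have hK1 : ClosedF F (Act H 1 D F) (K ∩ Act H 1 D F) :=
      ⟨inter_subset_right, fun f hf g hg ⟨p, hp, h⟩ => mem_inter.2
        ⟨hK.2 f (hAA hf) g (mem_inter.1 hg).1 ⟨p, mem_union_left _ hp, h⟩, hf⟩⟩
    have hfresh : ∀ e ∈ K \ Act H 1 D F, (e ∩ (M ∩ F)).card < 1 := by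
      intro e he
      have he' := mem_sdiff.1 he
      have heH : e ∈ H := (mem_filter.1 (hK.1 he'.1)).1
      by_contra hcon
      exact he'.2 (mem_filter.2 ⟨heH, Or.inr ((not_lt.1 hcon).trans (card_le_card
        (inter_subset_inter (Subset.refl _) inter_subset_right)))⟩)
    have h3 : ((K ∩ Act H 1 D F).card : ℝ) + (K \ Act H 1 D F).card = K.card := by
      exact_mod_cast card_inter_add_card_sdiff K _
    refine ⟨?_, fun z hz => ?_⟩
    · have h1 := (hS _ hK1).1
      have h2 := psi_fresh (b := b) (B := B) fun e he => (hfresh e he).le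
      unfold Psi at h1 h2 ⊢
      rw [phi_split K (Act H 1 D F), ← h3]
      linarith
    · have h1 := (hS _ hK1).2 z hz
      have h2 := psi_fresh (b := b) (j := 1) (K := K \ Act H 1 D F) (N := insert z (M ∩ F))
        (B := B) fun e he => by
          have h4 := hfresh e he
          have h6 : e ∩ insert z (M ∩ F) ⊆ insert z (e ∩ (M ∩ F)) := by
            intro p hp
            simp only [mem_inter, mem_insert] at hp ⊢
            tauto
          have h7 := (card_le_card h6).trans (card_insert_le _ _)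
          omega
      unfold Psi at h1 h2 ⊢
      rw [phi_split K (Act H 1 D F), ← h3]
      linarith

theorem rob_step {T a₂ : ℕ} {H₂ : Finset (Finset V)} (ha : 0 < a) (hb : 1 ≤ b)
    (hT : T * 2 ≤ 2 ^ b) (h₂ : Rob H₂ a₂ ∅ ∅ ∅)
    (wit : ∀ (D K : Finset (Finset V)) (F R : Finset V), D ⊆ K → K ⊆ H →
      (∀ d ∈ D, a ≤ (d ∩ R).card) → (∀ e ∈ K, ∀ p ∈ e, p ∈ F → ∃ d ∈ D, p ∈ d) →
      (∀ e ∈ K, e ∈ D ∨ 1 ≤ (e ∩ F).card) → ConnF F K → T ≤ K.card →
      ∃ S₀ ⊆ D, Un S₀ ∈ H₂ ∧ a₂ ≤ (Un S₀ ∩ R).card) :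
    Rob H (a + b) ∅ ∅ ∅ := by
  refine ⟨fun M B X => ∃ F D, Core H a M B F D ∧ Rob H₂ a₂ (M \ F) (B \ F) (X ∪ F) ∧
    SmallX H b (M ∪ X) (M ∩ F) B F D,
    ⟨∅, ∅, ⟨by simp, by simp, fun e _ _ _ => by simpa using ha, by simp⟩, by simpa using h₂,
      fun K hK => ⟨psi_fresh fun e _ => by simp, fun z _ => psi_fresh fun e _ =>
        (card_le_card inter_subset_right).trans (by simp)⟩⟩, ?_⟩
  have bextra : ∀ {M B X F : Finset V} {y : V}, Rob H₂ a₂ (M \ F) (B \ F) (X ∪ F) → y ∉ M →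
      y ∉ X → Rob H₂ a₂ (M \ F) (insert y B \ F) (X ∪ F) := by
    intro M B X F y h hy hyX
    by_cases hyF : y ∈ F
    · rw [insert_sdiff_of_mem _ hyF]; exact h
    · rw [insert_sdiff_of_notMem _ hyF]
      exact h.extra (fun g => hy (mem_sdiff.1 g).1) (by simp [hyX, hyF])
  rintro M B X ⟨F, D, hC, hB, hS⟩
  refine ⟨fun e he heB => ?_, fun y hy hyX => ⟨F, D, hC.extra hy, bextra hB hy hyX, hS.extra y⟩,
    fun Y h1 h2 => ⟨F, D, hC, ?_, hS.mono (union_subset_union (Subset.refl _) subset_union_left)⟩,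
    fun x hx hxB hxX => ?_⟩
  · by_contra hcon
    have h1 : (e ∩ (M \ F)).card ≤ a := by
      by_cases heD : e ∈ D
      · exact (hC.2.1 e heD).2.2.le
      · exact (hC.2.2.1 e he heD (heB.mono_right sdiff_subset)).le
    have h2 : e ∩ M ⊆ (e ∩ (M ∩ F)) ∪ (e ∩ (M \ F)) := by
      intro p hp
      simp only [mem_union, mem_inter, mem_sdiff] at hp ⊢
      tauto
    have h3 := (card_le_card h2).trans (card_union_le _ _)
    have h4 : b ≤ (e ∩ (M ∩ F)).card := by omega
    have h5 : (e ∩ (M ∩ F)).card ≤ (e ∩ F).card :=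
      card_le_card (inter_subset_inter (Subset.refl _) inter_subset_right)
    have heA : e ∈ Act H 1 D F := mem_filter.2 ⟨he, Or.inr (by omega)⟩
    obtain ⟨K, heK, hK, hKc, _⟩ := exists_comp F heA
    have hKT : K.card < T := by
      by_contra hcon
      obtain ⟨S₀, hS₀, hw, hw'⟩ := wit (D ∩ K) K F (M \ F) inter_subset_right
        (hK.1.trans (filter_subset _ _))
        (fun d hd => (hC.2.1 d (mem_inter.1 hd).1).2.2.ge)
        (fun f hf p hp hpF => by
          obtain ⟨d, hd, hpd⟩ := hC.2.2.2 p hpF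
          exact ⟨d, mem_inter.2 ⟨hd, hK.2 d (mem_filter.2 ⟨(hC.2.1 d hd).1, Or.inl hd⟩) f hf
            ⟨p, hpF, hpd, hp⟩⟩, hpd⟩)
        (fun f hf => (mem_filter.1 (hK.1 hf)).2.imp_left fun h => mem_inter.2 ⟨h, hf⟩)
        hKc (not_lt.1 hcon)
      have hd : Disjoint (Un S₀) (B \ F) := by
        rw [disjoint_left]
        intro p hp hpB
        obtain ⟨d, hd, hpd⟩ := mem_un.1 hp
        rcases mem_union.1 ((hC.2.1 d (mem_inter.1 (hS₀ hd)).1).2.1 hpd) with h | h
        · exact disjoint_left.1 hC.1 h (mem_sdiff.1 hpB).1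
        · exact (mem_sdiff.1 hpB).2 h
      have := hB.safe _ hw hd
      omega
    have h6 := le_phi (𝒜 := K) (A := id) (half_nonneg b) (M ∩ F) B heK heB
    have h7 := (hS K hK).1
    have h8 : (2 : ℝ) ^ b ≤ 2 ^ (e ∩ (M ∩ F)).card := pow_le_pow_right₀ (by norm_num) h4
    have h9 : (K.card : ℝ) * 2 < 2 ^ b := by
      have : K.card * 2 < 2 ^ b := by omega
      exact_mod_cast this
    have h10 : (0 : ℝ) < (1 / 2) ^ b := by positivity
    unfold Psi at h7
    simp only [id] at h6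
    nlinarith
  · rw [union_right_comm]
    exact hB.del (h1.mono_right sdiff_subset) (h2.mono_right sdiff_subset)
  have hd : Disjoint (insert x M) B := disjoint_insert_left.2 ⟨hxB, hC.1⟩
  have hxZ : x ∉ M ∪ X := by simp [hx, hxX]
  have hZ : M ∪ X ⊆ insert x M ∪ X := union_subset_union (subset_insert _ _) (Subset.refl _)
  by_cases hxF : x ∈ F
  · have e1 : insert x M ∪ F = M ∪ F := by
      rw [insert_union, insert_eq_of_mem (mem_union_right _ hxF)]
    have e2 : insert x M \ F = M \ F := insert_sdiff_of_mem _ hxF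
    have e3 : insert x M ∩ F = insert x (M ∩ F) := insert_inter_of_mem hxF
    have hC1 : Core H a (insert x M) B F D := by
      refine ⟨hd, ?_⟩
      rw [e1, e2]; exact hC.2
    have hB1 : Rob H₂ a₂ (insert x M \ F) (B \ F) (X ∪ F) := by rw [e2]; exact hB
    rcases (univ \ (insert x M ∪ X)).eq_empty_or_nonempty with he | hne
    · refine Or.inl ⟨F, D, hC1, hB1, fun K hK => ⟨by rw [e3]; exact (hS K hK).2 x hxZ,
        fun z hz => ?_⟩⟩
      have : z ∈ univ \ (insert x M ∪ X) := mem_sdiff.2 ⟨mem_univ _, hz⟩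
      rw [he] at this
      simp at this
    obtain ⟨d, hdD, hxd⟩ := hC.2.2.2 x hxF
    have hdA : d ∈ Act H 1 D F := mem_filter.2 ⟨(hC.2.1 d hdD).1, Or.inl hdD⟩
    obtain ⟨K₀, hdK, hK₀, _, hmin⟩ := exists_comp F hdA
    obtain ⟨y, hy, hmax⟩ := es_step (𝒜 := K₀) (A := id) (half_nonneg b) (insert x (M ∩ F)) B _ hne
    have hy' := (mem_sdiff.1 hy).2
    rw [mem_union, not_or] at hy'
    refine Or.inr ⟨y, hy'.1, hy'.2, F, D, hC1.extra hy'.1, bextra hB1 hy'.1 hy'.2,
      fun K hK => ?_⟩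
    rw [e3]
    refine ⟨(phi_extra (half_nonneg b) _ _ _).trans ((hS K hK).2 x hxZ), fun z hz => ?_⟩
    have hzM : z ∉ M ∪ X := fun h => hz (hZ h)
    have far : ∀ L, ClosedF F (Act H 1 D F) L → d ∉ L →
        Psi b L (insert z (insert x (M ∩ F))) (insert y B) ≤ 2 ^ 1 * (1 / 2) ^ b * L.card := by
      intro L hL hdL
      unfold Psi
      rw [insert_comm, phi_notin (A := id) fun e he hxe =>
        hdL (hL.2 d hdA e he ⟨x, hxF, hxd, hxe⟩)]
      exact (phi_extra (half_nonneg b) _ _ _).trans ((hS L hL).2 z hzM)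
    by_cases hdK' : d ∈ K
    · have hsub := hmin K hK hdK'
      have h1 := far _ (hK.sdiff hK₀) fun h => (mem_sdiff.1 h).2 hdK
      have h2 := (hmax z (mem_sdiff.2 ⟨mem_univ _, hz⟩)).trans ((hS K₀ hK₀).2 x hxZ)
      have h3 : ((K \ K₀).card : ℝ) + K₀.card = K.card := by
        exact_mod_cast card_sdiff_add_card_eq_card hsub
      unfold Psi at h1 ⊢
      rw [phi_split K K₀, inter_eq_right.2 hsub, ← h3]
      linarith
    · exact far K hK hdK'
  have fin : ∀ B', x ∉ B' → Core H a M B' F D → SmallX H b (M ∪ X) (M ∩ F) B' F D →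
      Rob H₂ a₂ (insert x (M \ F)) (B' \ F) (X ∪ F) →
      ∃ F D, Core H a (insert x M) B' F D ∧ Rob H₂ a₂ (insert x M \ F) (B' \ F) (X ∪ F) ∧
        SmallX H b (insert x M ∪ X) (insert x M ∩ F) B' F D := by
    intro B' hxB' hC' hS' hB'
    obtain ⟨Y, D', y1, y2, y3, y4⟩ := freeze_big hC' hS' hx hxB' hxF
    have hY : ∀ p, p ∈ Y → p ∉ insert x M := fun p h => disjoint_left.1 y1 h
    have hY' : ∀ p, p ∈ Y → p ∉ B' \ F := fun p h => disjoint_left.1 y2 h
    have e1 : insert x M \ (F ∪ Y) = insert x (M \ F) := by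
      ext p
      have := hY p
      simp only [mem_sdiff, mem_union, mem_insert] at this ⊢
      constructor
      · tauto
      · rintro (rfl | h) <;> tauto
    have e2 : B' \ (F ∪ Y) = B'  \ F := by
      ext p
      have := hY' p
      simp only [mem_sdiff, mem_union] at this ⊢
      tauto
    have e3 : insert x M ∩ (F ∪ Y) = M ∩ F := by
      ext p
      have := hY p
      simp only [mem_union, mem_insert, mem_inter] at this ⊢
      constructor
      · rintro ⟨rfl | h, h'⟩ <;> tauto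
      · tauto
    refine ⟨F ∪ Y, D', y3, ?_, by rw [e3]; exact y4.mono hZ⟩
    rw [e1, e2, ← union_assoc]
    exact hB'.del (y1.mono_right (insert_subset_insert _ sdiff_subset)) y2
  rcases hB.move (x := x) (fun h => hx (mem_sdiff.1 h).1) (fun h => hxB (mem_sdiff.1 h).1)
    (by simp [hxX, hxF]) with g | ⟨y, hy, hy', g⟩
  · exact Or.inl (fin B hxB hC hS g)
  · rw [mem_union, not_or] at hy'
    have hyM : y ∉ insert x M := by
      simp only [mem_insert, mem_sdiff] at hy ⊢
      tauto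
    refine Or.inr ⟨y, hyM, hy'.1, fin _ ?_ (hC.extra fun h => hyM (mem_insert_of_mem h))
      (hS.extra y) (by rw [insert_sdiff_of_notMem _ hy'.2]; exact g)⟩
    rw [mem_insert, not_or]
    exact ⟨fun h => hyM (h ▸ mem_insert_self _ _), hxB⟩

end Pool.Agent.Lib.MP_af2b3e_co.BS
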