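import Pool.Agent.Lib.MP_af2b3e_co.BSMain
import Pool.Agent.Lib.MP_af2b3e_co.BSCount

set_option autoImplicit false
set_option linter.unusedSectionVars false

/-! Sharp neighbourhood bound for locally sparse hypergraphs. -/

namespace Pool.Agent.Lib.MP_af2b3e_co.BS

open Finset

variable {V : Type} [DecidableEq V]

theorem loc_small_es {C : Finset (Finset V)} {m : ℕ} (hC : 2 * C.card < 2 ^ m)
    {X U M B : Finset V}
    (h : ∀ e ∈ C, e \ X ⊆ U ∧ m ≤ (e \ X).card ∧ Disjoint (e \ X) M ∧ Disjoint (e \ X) B)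
    (hMB : Disjoint M B) : Loc U C M B := by
  have hc : ∀ _ : Finset V, (0 : ℝ) ≤ (1 / 2) ^ m := fun _ => by positivity
  refine loc_es (𝒜 := C) (A := fun e => e \ X) hc (fun e he => ⟨e, he, sdiff_subset, ?_⟩)
    (fun e he => (h e he).1) hMB ?_
  · rw [one_div, inv_pow, inv_mul_eq_div, one_le_div (by positivity)]
    exact pow_le_pow_right₀ (by norm_num) (h e he).2.1
  · have h1 := phi_le_sum (𝒜 := C) (A := fun e => e \ X) hc M B fun e he => (h e he).2.2.1
    rw [sum_const, nsmul_eq_mul] at h1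
    have h2 : (2 : ℝ) * C.card < 2 ^ m := by exact_mod_cast hC
    have h3 : 2 * ((C.card : ℝ) * (1 / 2) ^ m) < 1 := by
      rw [← mul_assoc, one_div, inv_pow, mul_inv_lt_iff₀ (by positivity), one_mul]
      exact h2
    linarith

theorem loc_pairs (P : Finset V → Finset V) {M B : Finset V} (hMB : Disjoint M B)
    (C : Finset (Finset V))
    (hP : ∀ e ∈ C, P e ⊆ e ∧ 2 ≤ (P e).card ∧ Disjoint (P e) M)
    (hd : ∀ e ∈ C, ∀ f ∈ C, e ≠ f → Disjoint (P e) (P f)) : Loc (C.biUnion P) C M B := by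
  induction C using Finset.induction_on with
  | empty => exact loc_empty _ _ _
  | insert e C he ih =>
    have h1 := ih (fun f hf => hP f (mem_insert_of_mem hf))
      fun f hf g hg => hd f (mem_insert_of_mem hf) g (mem_insert_of_mem hg)
    obtain ⟨a1, a2, a3⟩ := hP e (mem_insert_self _ _)
    have hc : ∀ _ : Finset V, (0 : ℝ) ≤ 1 / 4 := fun _ => by norm_num
    have h2 : Loc (P e) {e} M B := by
      refine loc_es (𝒜 := {e}) (A := P) hc (fun f hf => ⟨e, mem_singleton_self _,
        mem_singleton.1 hf ▸ a1, ?_⟩) (fun f hf => mem_singleton.1 hf ▸ Subset.refl _) hMB ?_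
      · have : (2 : ℝ) ^ 2 ≤ 2 ^ (P e).card := pow_le_pow_right₀ (by norm_num) a2
        linarith
      · have := phi_le_sum (𝒜 := {e}) (A := P) hc M B fun f hf => mem_singleton.1 hf ▸ a3
        rw [sum_singleton] at this
        linarith
    rw [biUnion_insert, insert_eq]
    refine h2.union h1 ((disjoint_biUnion_right _ _ _).2 fun f hf => ?_)
    exact hd e (mem_insert_self _ _) f (mem_insert_of_mem hf) fun h => he (h ▸ hf)

theorem loc_small_hall {C : Finset (Finset V)} {X U M B : Finset V}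
    (hall : ∀ S ⊆ C, 2 * S.card ≤ (Un S \ X).card)
    (h : ∀ e ∈ C, e \ X ⊆ U ∧ Disjoint (e \ X) M) (hMB : Disjoint M B) : Loc U C M B := by
  classical
  obtain ⟨f, hf, hft⟩ := (all_card_le_biUnion_card_iff_exists_injective
    (fun i : {e // e ∈ C} × Bool => i.1.1 \ X)).1 fun s => by
      have h1 : s ⊆ (s.image Prod.fst) ×ˢ univ := fun i hi =>
        mem_product.2 ⟨mem_image_of_mem _ hi, mem_univ _⟩
      have h2 := card_le_card h1
      rw [card_product, card_univ, Fintype.card_bool] at h2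
      have h3 := hall ((s.image Prod.fst).image Subtype.val) fun e he => by
        obtain ⟨g, _, rfl⟩ := mem_image.1 he
        exact g.2
      rw [card_image_of_injective _ Subtype.val_injective] at h3
      have h4 : Un ((s.image Prod.fst).image Subtype.val) \ X ⊆
          s.biUnion fun i => i.1.1 \ X := by
        intro p hp
        obtain ⟨e, he, hpe⟩ := mem_un.1 (mem_sdiff.1 hp).1
        obtain ⟨g, hg, rfl⟩ := mem_image.1 he
        obtain ⟨i, hi, rfl⟩ := mem_image.1 hg
        exact mem_biUnion.2 ⟨i, hi, mem_sdiff.2 ⟨hpe, (mem_sdiff.1 hp).2⟩⟩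
      have h5 := card_le_card h4
      omega
  let P : Finset V → Finset V := fun e =>
    if he : e ∈ C then {f (⟨e, he⟩, true), f (⟨e, he⟩, false)} else ∅
  have hsub : ∀ e ∈ C, P e ⊆ e \ X := by
    intro e he
    simp only [P, he, dif_pos]
    exact insert_subset (hft _) (singleton_subset_iff.2 (hft _))
  refine (loc_pairs P hMB C (fun e he => ⟨(hsub e he).trans sdiff_subset, ?_,
    (h e he).2.mono_left (hsub e he)⟩) fun e he g hg heg => ?_).mono
    (biUnion_subset.2 fun e he => (hsub e he).trans (h e he).1)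
  · simp only [P, he, dif_pos]
    rw [card_pair fun h => by simpa using hf h]
  · simp only [P, he, hg, dif_pos, disjoint_insert_left, disjoint_singleton_left, mem_insert,
      mem_singleton, hf.eq_iff, Prod.mk.injEq, Subtype.mk.injEq]
    simp [heg]

theorem sparse [Fintype V] {H : Finset (Finset V)} {n K Δ : ℕ} (hn1 : 1 ≤ n)
    (hn : ∀ e ∈ H, e.card = n)
    (hΔ : ∀ e ∈ H, (H.filter fun f => ¬ Disjoint f e).card ≤ Δ)
    (hsp : ∀ S ⊆ H, S.card ≤ Nat.log 2 H.card → n * S.card ≤ (S.biUnion id).card + K * S.card)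
    (hnum : Δ * 2 ^ (2 * K + 10) ≤ 2 ^ n) : Loc univ H ∅ ∅ := by
  classical
  by_cases hsm : 2 * H.card < 2 ^ n
  · exact loc_small_es (X := ∅) hsm (fun e he => by simp [hn e he]) (by simp)
  obtain ⟨e₀, he₀⟩ : H.Nonempty := by
    rw [← card_pos]
    have : 0 < 2 ^ n := by positivity
    omega
  have hΔ1 : 1 ≤ Δ := by
    refine le_trans (card_pos.2 ⟨e₀, mem_filter.2 ⟨he₀, fun h => ?_⟩⟩) (hΔ e₀ he₀)
    have := hn e₀ he₀
    rw [disjoint_self.1 h] at this
    simp at this
    omega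
  have hKn : 2 * K + 10 ≤ n := by
    refine (Nat.pow_le_pow_iff_right (a := 2) (by norm_num)).1 (le_trans ?_ hnum)
    exact Nat.le_mul_of_pos_left _ hΔ1
  set L := Nat.log 2 H.card with hL
  have hL1 : H.card < 2 ^ (L + 1) := Nat.lt_pow_succ_log_self (by norm_num) _
  have hL2 : n ≤ L + 1 := by
    have : 2 ^ n < 2 ^ (L + 2) := by rw [pow_succ]; omega
    have := (Nat.pow_lt_pow_iff_right (a := 2) (by norm_num)).1 this
    omega
  set t := (L + 1) / 2 with ht
  obtain ⟨k, rfl⟩ : ∃ k, n = K + k := ⟨n - K, by omega⟩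
  let W : ℕ → Finset (Finset (Finset V)) := fun s =>
    H.powerset.filter fun S => S.card = s + 1 ∧ ConnR (fun f g => ¬ Disjoint f g) S
  let w : ℕ → ℝ := fun s => 2 ^ ((K + 2) * (s + 1) + (K + k)) * (1 / 2) ^ (k * (s + 1))
  have hw : ∀ s, 0 ≤ w s := fun s => by positivity
  refine breaker_of (m := K + 2) (t := t)
    (c := fun S => ∑ s ∈ Ico (t - 1) (2 * t - 1), if S ∈ W s then w s else 0) hn (by omega)
    (fun S => sum_nonneg fun s _ => by have := hw s; split_ifs <;> positivity) (by omega)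
    ?_ ?_ ?_
  · rw [sum_comm]
    have h1 : ∀ s ∈ Ico (t - 1) (2 * t - 1), (∑ S, if S ∈ W s then w s else 0) ≤
        (2 : ℝ) ^ (2 * L + 1) * (1 / 2) ^ (6 * t) := by
      intro s hs
      rw [sum_ite_mem, univ_inter, sum_const, nsmul_eq_mul]
      have k1 : (W s).card ≤ H.card * (2 ^ (1 + 2 * s) * Δ ^ s) := by
        convert card_conn H (fun f g => ¬ Disjoint f g) Δ (fun g hg => by
          convert hΔ g hg) s
      have hs' := mem_Ico.1 hs
      have k2 : (W s).card * 2 ^ ((K + 2) * (s + 1) + (K + k)) * 2 ^ (6 * t) ≤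
          2 ^ (2 * L + 1) * 2 ^ (k * (s + 1)) := by
        have a1 : (Δ * 2 ^ (K + 10)) ≤ 2 ^ k := by
          rw [show 2 * K + 10 = K + (K + 10) by ring, pow_add, pow_add 2 K k, mul_left_comm]
            at hnum
          exact Nat.le_of_mul_le_mul_left hnum (by positivity)
        have a2 : (Δ * 2 ^ (K + 10)) ^ (s + 1) ≤ (2 ^ k) ^ (s + 1) := Nat.pow_le_pow_left a1 _
        have a3 : Δ ^ s ≤ Δ ^ (s + 1) := Nat.pow_le_pow_right hΔ1 (by omega)
        have a4 : 2 ^ (6 * t) ≤ 2 ^ (6 * (s + 1)) :=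
          Nat.pow_le_pow_right (by norm_num) (by omega)
        have a5 : 2 ^ (K + k) ≤ 2 ^ (L + 1) := Nat.pow_le_pow_right (by norm_num) hL2
        calc (W s).card * 2 ^ ((K + 2) * (s + 1) + (K + k)) * 2 ^ (6 * t)
            ≤ (2 ^ (L + 1) * (2 ^ (1 + 2 * s) * Δ ^ (s + 1))) *
              (2 ^ ((K + 2) * (s + 1)) * 2 ^ (L + 1)) * 2 ^ (6 * (s + 1)) := by
              rw [pow_add 2 ((K + 2) * (s + 1))]
              gcongr
              exact k1.trans (by gcongr)
          _ = 2 ^ (2 * L + 1) * (Δ * 2 ^ (K + 10)) ^ (s + 1) := by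
              rw [mul_pow, ← pow_mul]; ring
          _ ≤ 2 ^ (2 * L + 1) * 2 ^ (k * (s + 1)) := by rw [pow_mul]; gcongr
      have k3 : ((W s).card : ℝ) * 2 ^ ((K + 2) * (s + 1) + (K + k)) * 2 ^ (6 * t) ≤
          2 ^ (2 * L + 1) * 2 ^ (k * (s + 1)) := by exact_mod_cast k2
      simp only [w, one_div, inv_pow]
      rw [← mul_assoc, ← div_eq_mul_inv, ← div_eq_mul_inv,
        div_le_div_iff₀ (by positivity) (by positivity)]
      exact k3
    have h2 := sum_le_card_nsmul _ _ _ h1
    rw [Nat.card_Ico, nsmul_eq_mul] at h2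
    refine lt_of_le_of_lt (mul_le_mul_of_nonneg_left h2 (by norm_num)) ?_
    have h3 : 2 * (2 * t - 1 - (t - 1)) * 2 ^ (2 * L + 1) < 2 ^ (6 * t) := by
      have a1 : 2 * t - 1 - (t - 1) < 2 ^ t := by
        have := Nat.lt_two_pow_self (n := t)
        omega
      calc 2 * (2 * t - 1 - (t - 1)) * 2 ^ (2 * L + 1) < 2 * 2 ^ t * 2 ^ (2 * L + 1) := by gcongr
        _ = 2 ^ (t + 2 * L + 2) := by ring
        _ ≤ 2 ^ (6 * t) := Nat.pow_le_pow_right (by norm_num) (by omega)
    have h4 : (2 : ℝ) * ((2 * t - 1 - (t - 1) : ℕ) : ℝ) * 2 ^ (2 * L + 1) < 2 ^ (6 * t) := by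
      exact_mod_cast h3
    rw [← mul_assoc, ← mul_assoc, one_div, inv_pow, mul_inv_lt_iff₀ (by positivity), one_mul]
    exact h4
  · intro S hS hc h1 h2
    refine ⟨S, Subset.refl _, ?_⟩
    obtain ⟨s, hs⟩ : ∃ s, S.card = s + 1 := ⟨S.card - 1, by omega⟩
    have k1 : S ∈ W s := mem_filter.2 ⟨mem_powerset.2 hS, hs, hc⟩
    have k2 := single_le_sum (s := Ico (t - 1) (2 * t - 1))
      (f := fun s => if S ∈ W s then w s else 0)
      (fun s _ => by have := hw s; split_ifs <;> positivity) (mem_Ico.2 ⟨by omega, by omega⟩ :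
        s ∈ Ico (t - 1) (2 * t - 1))
    simp only [k1, if_true] at k2
    have k3 := hsp S hS (by omega)
    have k4 : k * (s + 1) ≤ (Un S).card := by
      rw [hs, add_mul] at k3
      unfold Un
      omega
    refine le_trans ?_ (mul_le_mul_of_nonneg_right k2 (by positivity))
    rw [hs]
    simp only [w]
    rw [mul_assoc]
    refine le_mul_of_one_le_right (by positivity) ?_
    rw [one_div, inv_pow, inv_mul_eq_div, one_le_div (by positivity)]
    exact pow_le_pow_right₀ (by norm_num) k4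
  · intro C hC hCt X U M B h hMB
    refine loc_small_hall (X := X) (fun S hS => ?_) (fun e he => ⟨(h e he).1, (h e he).2.2.1⟩) hMB
    have k1 := hsp S (hS.trans hC) (by have := card_le_card hS; omega)
    have k2 : (Un S \ X).card + (Un S ∩ X).card = (Un S).card := card_sdiff_add_card_inter _ _
    have k3 : (Un S ∩ X).card ≤ ∑ e ∈ S, (e ∩ X).card := by
      refine le_trans (card_le_card fun p hp => ?_) card_biUnion_le
      obtain ⟨e, he, hpe⟩ := mem_un.1 (mem_inter.1 hp).1
      exact mem_biUnion.2 ⟨e, he, mem_inter.2 ⟨hpe, (mem_inter.1 hp).2⟩⟩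
    have k4 : ∑ e ∈ S, ((e ∩ X).card + (K + 2)) ≤ ∑ e ∈ S, (K + k) := by
      refine sum_le_sum fun e he => ?_
      have := card_sdiff_add_card_inter e X
      have := (h e (hS he)).2.1
      have := hn e (hC (hS he))
      omega
    rw [sum_add_distrib, sum_const, sum_const, smul_eq_mul, smul_eq_mul] at k4
    unfold Un at k2 k3 ⊢
    nlinarith

end Pool.Agent.Lib.MP_af2b3e_co.BS
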