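import Pool.Agent.Lib.MP_af2b3e_co.BSRob
import Pool.Agent.Lib.MP_af2b3e_co.BSDouble

set_option autoImplicit false
set_option linter.unusedSectionVars false

/-! Iterating the freezing strategy in the big game: sizes up to towers. -/

namespace Pool.Agent.Lib.MP_af2b3e_co.BS

open Finset

open Classical in
theorem mem_ext {α : Type} [DecidableEq α] {H T : Finset α} {r : α → α → Prop} {s : ℕ} {g : α}
    (b1 : T ∈ H.powerset) (b2 : T.card = s + 1) (b3 : ConnR r T) (hg : g ∈ T) :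
    T ∈ Ext H r {g} {g} s := by
  refine mem_filter.2 ⟨b1, singleton_subset_iff.2 hg, ?_, fun K' k1 k2 k3 => ?_⟩
  · rw [sdiff_singleton_eq_erase, card_erase_of_mem hg, b2]; rfl
  · obtain ⟨f, c1, c2, u, hu, c3⟩ := b3 K' k2 ⟨g, k1 (mem_singleton_self g)⟩ k3
    refine ⟨f, c1, c2, u, ?_, c3⟩
    simp only [mem_union, mem_sdiff, mem_singleton]
    tauto

variable {V : Type} [DecidableEq V] [Fintype V]

open Classical in
/-- Connected families of `s + 1` sets at distance at most three. -/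
noncomputable def Trees (H : Finset (Finset V)) (s : ℕ) : Finset (Finset (Finset V)) :=
  H.powerset.filter fun S => S.card = s + 1 ∧ ConnR (R3 H) S

variable {H : Finset (Finset V)} {Δ : ℕ}

open Classical in
theorem r3_deg (hΔ : ∀ e ∈ H, (H.filter fun f => ¬ Disjoint f e).card ≤ Δ) :
    ∀ g ∈ H, (H.filter fun f => R3 H f g).card ≤ Δ ^ 3 := by
  intro g hg
  have k1 := card_nb hΔ (singleton_subset_iff.2 hg)
  have k2 := card_nb hΔ (nb_sub H {g})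
  have k3 := card_nb hΔ (nb_sub H (Nb H {g}))
  rw [card_singleton, one_mul] at k1
  refine (card_le_card (t := Nb H (Nb H (Nb H {g}))) fun f hf => ?_).trans ?_
  · obtain ⟨hfH, u, hu, v, hv, a1, a2, a3⟩ := mem_filter.1 hf
    exact mem_filter.2 ⟨hfH, u, mem_filter.2 ⟨hu, v, mem_filter.2
      ⟨hv, g, mem_singleton_self g, a3⟩, a2⟩, a1⟩
  · calc _ ≤ Δ * Δ * Δ := k3.trans (Nat.mul_le_mul_right _
          (k2.trans (Nat.mul_le_mul_right _ k1)))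
      _ = Δ ^ 3 := by ring

theorem pow_aux (Δ s : ℕ) : 4 * (2 ^ (1 + 2 * s) * (Δ ^ 3) ^ s) * 2 ^ s = (8 * Δ ^ 3) ^ s * 8 := by
  have e8 : (8 : ℕ) ^ s = 2 ^ (3 * s) := by rw [pow_mul]; norm_num
  rw [mul_pow, e8]; ring

theorem card_trees (hΔ : ∀ e ∈ H, (H.filter fun f => ¬ Disjoint f e).card ≤ Δ) (s : ℕ) :
    ((Trees H s).image Un).card ≤ H.card * (2 ^ (1 + 2 * s) * (Δ ^ 3) ^ s) :=
  card_image_le.trans (card_conn H (R3 H) (Δ ^ 3) (r3_deg hΔ) s)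

theorem trees_ne (hne : ∀ e ∈ H, e.Nonempty) (s : ℕ) :
    ∀ e ∈ (Trees H s).image Un, e.Nonempty := by
  classical
  intro e he
  obtain ⟨S, hS, rfl⟩ := mem_image.1 he
  obtain ⟨h1, h2, _⟩ := mem_filter.1 hS
  obtain ⟨d, hd⟩ : S.Nonempty := card_pos.1 (by omega)
  exact (hne d (mem_powerset.1 h1 hd)).mono (sub_un hd)

theorem trees_deg (hΔ : ∀ e ∈ H, (H.filter fun f => ¬ Disjoint f e).card ≤ Δ)
    (s : ℕ) : ∀ e ∈ (Trees H s).image Un,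
      (((Trees H s).image Un).filter fun f => ¬ Disjoint f e).card ≤ (8 * Δ ^ 3) ^ (s + 1) := by
  classical
  intro e he
  obtain ⟨S, hS, rfl⟩ := mem_image.1 he
  obtain ⟨a1, a2, _⟩ := mem_filter.1 hS
  have hsub : (((Trees H s).image Un).filter fun f => ¬ Disjoint f (Un S)) ⊆
      ((Nb H S).biUnion fun g => Ext H (R3 H) {g} {g} s).image Un := by
    intro f hf
    obtain ⟨hf1, hf2⟩ := mem_filter.1 hf
    obtain ⟨T, hT, rfl⟩ := mem_image.1 hf1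
    obtain ⟨b1, b2, b3⟩ := mem_filter.1 hT
    obtain ⟨p, hp1, hp2⟩ := not_disjoint_iff.1 hf2
    obtain ⟨g, hg, hpg⟩ := mem_un.1 hp1
    obtain ⟨d, hd, hpd⟩ := mem_un.1 hp2
    exact mem_image_of_mem _ (mem_biUnion.2 ⟨g, mem_filter.2 ⟨mem_powerset.1 b1 hg, d, hd,
      not_disjoint_iff.2 ⟨p, hpg, hpd⟩⟩, mem_ext b1 b2 b3 hg⟩)
  have h2 := card_biUnion_le_card_mul (Nb H S) (fun g => Ext H (R3 H) {g} {g} s)
    (2 ^ (1 + 2 * s) * (Δ ^ 3) ^ s) fun g hg => card_ext H (R3 H) (Δ ^ 3) (r3_deg hΔ) _ s _ _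
      (singleton_subset_iff.2 (nb_sub H S hg)) (by simp)
  have h3 := card_nb hΔ (mem_powerset.1 a1)
  rw [a2] at h3
  have h4 : s + 1 ≤ 2 ^ s := Nat.lt_two_pow_self
  have h5 : Δ ≤ Δ ^ 3 := Nat.le_self_pow (by norm_num) _
  refine (card_le_card hsub).trans (card_image_le.trans (h2.trans ?_))
  calc _ ≤ 2 ^ s * Δ ^ 3 * (2 ^ (1 + 2 * s) * (Δ ^ 3) ^ s) :=
        Nat.mul_le_mul_right _ (h3.trans (Nat.mul_le_mul h4 h5))
    _ ≤ (4 * (2 ^ (1 + 2 * s) * (Δ ^ 3) ^ s) * 2 ^ s) * Δ ^ 3 := by nlinarith [Nat.zero_le (2 ^ s * Δ ^ 3 * (2 ^ (1 + 2 * s) * (Δ ^ 3) ^ s))]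
    _ = (8 * Δ ^ 3) ^ (s + 1) := by rw [pow_aux, pow_succ]; ring

theorem rob_tree (hne : ∀ e ∈ H, e.Nonempty)
    (hΔ : ∀ e ∈ H, (H.filter fun f => ¬ Disjoint f e).card ≤ Δ) {a b s : ℕ} (ha : 0 < a)
    (hT : (s * Δ * Δ + 1) * 2 ≤ 2 ^ b)
    (h₂ : Rob ((Trees H s).image Un) (a * (s + 1)) ∅ ∅ ∅) : Rob H (a + b) ∅ ∅ ∅ := by
  classical
  refine rob_step ha ?_ hT h₂ fun D K F R hDK hKH hR hown hact hc hK => ?_
  · rcases b with _ | b
    · omega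
    · omega
  obtain ⟨e, he⟩ : K.Nonempty := card_pos.1 (by omega)
  have hD : D.Nonempty := by
    rcases hact e he with h | h
    · exact ⟨e, h⟩
    · obtain ⟨p, hp⟩ := card_pos.1 h
      obtain ⟨d, hd, _⟩ := hown e he p (mem_inter.1 hp).1 (mem_inter.1 hp).2
      exact ⟨d, hd⟩
  obtain ⟨S, hSD, hSc, hSn, hSd⟩ := tree3 hne hΔ hDK hKH hown hD hc s hK
  refine ⟨S, hSD, mem_image_of_mem _ (mem_filter.2
    ⟨mem_powerset.2 (hSD.trans (hDK.trans hKH)), hSc, hSn⟩), ?_⟩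
  rw [← hSc]
  exact card_un_inter S (fun d hd => hR d (hSD hd)) hSd

theorem Rob.mono {a a' : ℕ} {M B X : Finset V} (h : Rob H a M B X) (ha : a ≤ a') :
    Rob H a' M B X := by
  obtain ⟨I, h0, hI⟩ := h
  exact ⟨I, h0, fun M B X h => ⟨fun e he hd => ((hI M B X h).1 e he hd).trans_le ha,
    (hI M B X h).2⟩⟩

/-- One step of the iterated logarithm. -/
def lg (x : ℕ) : ℕ := Nat.log 2 x + 1

theorem lg_mono : Monotone lg := fun _ _ h => Nat.succ_le_succ (Nat.log_mono_right h)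

theorem lt_lg (x : ℕ) : x < 2 ^ lg x := Nat.lt_pow_succ_log_self (by norm_num) _

theorem lg_le {x y : ℕ} (h : x < 2 ^ y) (hy : 1 ≤ y) : lg x ≤ y := by
  rcases Nat.eq_zero_or_pos x with rfl | hx
  · simpa [lg] using hy
  · exact Nat.log_lt_of_lt_pow hx.ne' h

theorem lg_pos (k x : ℕ) : 1 ≤ lg^[k + 1] x := by
  rw [Function.iterate_succ_apply']; exact Nat.succ_le_succ (Nat.zero_le _)

theorem lg_mul (k x y : ℕ) (hy : 1 ≤ y) : lg^[k + 1] (x * 2 ^ y) ≤ lg^[k + 1] x + y := by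
  induction k with
  | zero =>
    refine lg_le ?_ (by simp only [zero_add, Function.iterate_one]; omega)
    simp only [zero_add, Function.iterate_one]
    rw [pow_add]
    exact Nat.mul_lt_mul_of_pos_right (lt_lg x) (by positivity)
  | succ k ih =>
    rw [Function.iterate_succ_apply' lg (k + 1), Function.iterate_succ_apply' lg (k + 1)]
    refine (lg_mono ih).trans (lg_le ?_ (by omega))
    have h1 := lt_lg (lg^[k + 1] x)
    have h2 : y < 2 ^ y := Nat.lt_two_pow_self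
    have h3 : 2 ≤ 2 ^ y := Nat.le_self_pow (by omega) 2
    have h4 : 2 ≤ 2 ^ lg (lg^[k + 1] x) := Nat.le_self_pow (by unfold lg; omega) 2
    rw [pow_add]
    nlinarith

theorem split_pow {a X : ℕ} (hX : 1 ≤ X) {Y : ℕ} (h : 2 * X * Y ≤ 2 ^ a) (hY : 1 ≤ Y) :
    ∃ a' b, a = a' + b ∧ X ≤ 2 ^ b ∧ Y ≤ 2 ^ a' := by
  set b := Nat.clog 2 X with hb
  have h1 : X ≤ 2 ^ b := Nat.le_pow_clog (by norm_num) _
  have h2 : 2 ^ b ≤ 2 * X := by
    rcases Nat.eq_zero_or_pos b with h0 | h0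
    · rw [h0]; omega
    · have h3 : 2 ^ (b - 1) < X := Nat.pow_pred_clog_lt_self (by norm_num) (by
        by_contra hc
        have : X = 1 := by omega
        rw [this] at hb
        simp at hb
        omega)
      obtain ⟨k, hk⟩ : ∃ k, b = k + 1 := ⟨b - 1, by omega⟩
      rw [hk] at h3 ⊢
      simp only [Nat.add_sub_cancel] at h3
      rw [pow_succ]; omega
  have h3 : 2 ^ b * Y ≤ 2 ^ a := (Nat.mul_le_mul_right _ h2).trans h
  have h4 : b ≤ a := (Nat.pow_le_pow_iff_right (a := 2) (by norm_num)).1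
    (le_trans (Nat.le_mul_of_pos_right _ hY) h3)
  obtain ⟨a', rfl⟩ : ∃ a', a = b + a' := ⟨a - b, by omega⟩
  rw [pow_add] at h3
  exact ⟨a', b, add_comm _ _, h1, Nat.le_of_mul_le_mul_left h3 (by positivity)⟩

theorem rob_tower : ∀ (k : ℕ) (H : Finset (Finset V)) (a Δ : ℕ), 1 ≤ Δ → (∀ e ∈ H, e.Nonempty) →
    (∀ e ∈ H, (H.filter fun f => ¬ Disjoint f e).card ≤ Δ) →
    (32 * Δ ^ 5 * lg^[k + 1] H.card) ^ 6 ^ k ≤ 2 ^ a → Rob H a ∅ ∅ ∅ := by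
  intro k
  induction k with
  | zero =>
    intro H a Δ hΔ1 hne hΔ hnum
    set s := Nat.log 2 H.card with hs
    have hΔ3 : 1 ≤ Δ ^ 3 := Nat.one_le_pow _ _ hΔ1
    obtain ⟨a', b, rfl, h1, h2⟩ := split_pow (a := a) (X := (s * Δ * Δ + 1) * 2) (by omega)
      (Y := 8 * Δ ^ 3) (by
        have h1 : s * Δ * Δ + 1 ≤ Δ ^ 2 * (s + 1) := by nlinarith
        calc 2 * ((s * Δ * Δ + 1) * 2) * (8 * Δ ^ 3)
            ≤ 2 * (Δ ^ 2 * (s + 1) * 2) * (8 * Δ ^ 3) := by gcongr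
          _ = 32 * Δ ^ 5 * (s + 1) := by ring
          _ ≤ 2 ^ a := by simpa [lg] using hnum) (by omega)
    have ha : 0 < a' := by
      rcases a' with _ | a'
      · omega
      · omega
    refine rob_tree hne hΔ ha h1 (rob_es ?_)
    have h3 := card_trees hΔ s
    have h4 : H.card < 2 ^ (s + 1) := Nat.lt_pow_succ_log_self (by norm_num) _
    calc 2 * _ ≤ 2 * (H.card * (2 ^ (1 + 2 * s) * (Δ ^ 3) ^ s)) := by omega
      _ < 2 * (2 ^ (s + 1) * (2 ^ (1 + 2 * s) * (Δ ^ 3) ^ s)) := by gcongr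
      _ = (8 * Δ ^ 3) ^ s * 8 := by rw [← pow_aux]; ring
      _ ≤ (2 ^ a') ^ s * 2 ^ a' := Nat.mul_le_mul (Nat.pow_le_pow_left h2 s) (by omega)
      _ = 2 ^ (a' * (s + 1)) := by rw [← pow_succ, ← pow_mul]
  | succ k ih =>
    intro H a Δ hΔ1 hne hΔ hnum
    set l := lg^[k + 1 + 1] H.card with hl
    have hl1 : 1 ≤ l := lg_pos _ _
    set Q := 32 * Δ ^ 5 * l with hQ
    have hΔ5 : 1 ≤ Δ ^ 5 := Nat.one_le_pow _ _ hΔ1
    have hQ1 : 32 * Δ ^ 5 ≤ Q := Nat.le_mul_of_pos_right _ hl1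
    have hQ2 : l ≤ Q := Nat.le_mul_of_pos_left _ (by omega)
    obtain ⟨s, hs⟩ : ∃ s, Q = s + 1 := ⟨Q - 1, by omega⟩
    have hΔ2 : Δ * Δ ≤ Δ ^ 5 := by
      rw [← sq]; exact Nat.pow_le_pow_right hΔ1 (by norm_num)
    have h6 : 1 ≤ 6 ^ k := Nat.one_le_pow _ _ (by norm_num)
    obtain ⟨a', b, rfl, h1, h2⟩ := split_pow (a := a) (X := (s * Δ * Δ + 1) * 2) (by omega)
      (Y := Q ^ (4 * 6 ^ k)) (by
        have h1 : 2 * ((s * Δ * Δ + 1) * 2) ≤ Q ^ 2 := by nlinarith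
        calc _ ≤ Q ^ 2 * Q ^ (4 * 6 ^ k) := Nat.mul_le_mul_right _ h1
          _ = Q ^ (2 + 4 * 6 ^ k) := by rw [pow_add]
          _ ≤ Q ^ 6 ^ (k + 1) := Nat.pow_le_pow_right (by omega) (by rw [pow_succ]; omega)
          _ ≤ 2 ^ a := hnum) (Nat.one_le_pow _ _ (by omega))
    have ha : 0 < a' := by
      rcases a' with _ | a'
      · have : Q ≤ Q ^ (4 * 6 ^ k) := Nat.le_self_pow (by omega) Q
        omega
      · omega
    have hΔ3 : 1 ≤ 8 * Δ ^ 3 := by have := Nat.one_le_pow 3 _ hΔ1; omega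
    refine rob_tree hne hΔ ha h1 (ih _ _ ((8 * Δ ^ 3) ^ (s + 1)) (Nat.one_le_pow _ _ hΔ3)
      (trees_ne hne s) (trees_deg hΔ s) ?_)
    rw [← hs]
    have k1 : ((8 * Δ ^ 3) ^ Q) ^ 5 ≤ Q ^ (3 * Q) := by
      calc ((8 * Δ ^ 3) ^ Q) ^ 5 = ((32 * Δ ^ 5) ^ 3) ^ Q := by
            rw [← pow_mul, mul_comm Q 5, pow_mul]; congr 1; ring
        _ ≤ (Q ^ 3) ^ Q := by gcongr
        _ = Q ^ (3 * Q) := (pow_mul Q 3 Q).symm
    have k2 : ((Trees H s).image Un).card ≤ H.card * 2 ^ (Q * Q) := by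
      refine (card_trees hΔ s).trans (Nat.mul_le_mul_left _ ?_)
      have a1 : 8 * Δ ^ 3 ≤ 2 ^ Q := by
        have : Δ ^ 3 ≤ Δ ^ 5 := Nat.pow_le_pow_right hΔ1 (by norm_num)
        have : Q < 2 ^ Q := Nat.lt_two_pow_self
        omega
      have a2 := pow_aux Δ s
      have a3 : 1 ≤ 2 ^ s := Nat.one_le_two_pow
      calc _ ≤ (8 * Δ ^ 3) ^ s * 8 := by nlinarith [Nat.zero_le (2 ^ (1 + 2 * s) * (Δ ^ 3) ^ s)]
        _ ≤ (2 ^ Q) ^ s * 2 ^ Q := Nat.mul_le_mul (Nat.pow_le_pow_left a1 s) (by omega)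
        _ = 2 ^ (Q * Q) := by rw [← pow_succ, ← hs, ← pow_mul]
    have k3 : lg^[k + 1] ((Trees H s).image Un).card ≤ 2 ^ Q + Q * Q := by
      refine (lg_mono.iterate (k + 1) k2).trans ((lg_mul k _ _ (by nlinarith)).trans ?_)
      have a1 := lt_lg (lg^[k + 1] H.card)
      rw [← Function.iterate_succ_apply' lg (k + 1)] at a1
      have a2 : 2 ^ l ≤ 2 ^ Q := Nat.pow_le_pow_right (by norm_num) hQ2
      have a3 : lg^[k + 1] H.card < 2 ^ l := a1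
      omega
    have k4 : 32 * (2 ^ Q + Q * Q) ≤ Q ^ Q := by
      obtain ⟨r, hr⟩ : ∃ r, Q = r + 4 := ⟨Q - 4, by omega⟩
      have a1 : 2 ^ r ≤ Q ^ r := Nat.pow_le_pow_left (by omega) r
      have a2 : 1 ≤ 2 ^ r := Nat.one_le_two_pow
      have a3 : Q ^ Q = Q ^ r * (Q * Q * (Q * Q)) := by
        conv_lhs => rw [show Q ^ Q = Q ^ (r + 4) by rw [← hr]]
        ring
      have a4 : 2 ^ Q = 2 ^ r * 16 := by rw [hr, pow_add]; norm_num
      have a5 : 1024 ≤ Q * Q := by nlinarith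
      rw [a3, a4]
      have a6 : 2 ^ r * (1024 * (Q * Q)) ≤ Q ^ r * (Q * Q * (Q * Q)) := by gcongr
      nlinarith
    calc (32 * ((8 * Δ ^ 3) ^ Q) ^ 5 * lg^[k + 1] ((Trees H s).image Un).card) ^ 6 ^ k
        ≤ (Q ^ (4 * Q)) ^ 6 ^ k := by
          refine Nat.pow_le_pow_left ?_ _
          calc _ ≤ 32 * Q ^ (3 * Q) * (2 ^ Q + Q * Q) := by gcongr
            _ = Q ^ (3 * Q) * (32 * (2 ^ Q + Q * Q)) := by ring
            _ ≤ Q ^ (3 * Q) * Q ^ Q := by gcongr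
            _ = Q ^ (4 * Q) := by ring
      _ = (Q ^ (4 * 6 ^ k)) ^ Q := by rw [← pow_mul, ← pow_mul]; congr 1; ring
      _ ≤ (2 ^ a') ^ Q := Nat.pow_le_pow_left h2 _
      _ = 2 ^ (a' * Q) := by rw [← pow_mul]

theorem tower {n k : ℕ} (hn1 : 1 ≤ n) (hn : ∀ e ∈ H, e.card = n)
    (hΔ : ∀ e ∈ H, (H.filter fun f => ¬ Disjoint f e).card ≤ Δ)
    (hnum : (32 * Δ ^ 5 * (fun x => Nat.log 2 x + 1)^[k + 1] H.card) ^ 6 ^ k ≤ 2 ^ n) :
    Loc univ H ∅ ∅ := by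
  rcases H.eq_empty_or_nonempty with rfl | ⟨e₀, he₀⟩
  · exact loc_empty _ _ _
  have hne : ∀ e ∈ H, e.Nonempty := fun e he => card_pos.1 (by rw [hn e he]; exact hn1)
  have hΔ1 : 1 ≤ Δ := by
    refine le_trans (card_pos.2 ⟨e₀, mem_filter.2 ⟨he₀, fun h => ?_⟩⟩) (hΔ e₀ he₀)
    exact (hne e₀ he₀).ne_empty (disjoint_self.1 h)
  exact (rob_tower k H n Δ hΔ1 hne hΔ hnum).loc hn

end Pool.Agent.Lib.MP_af2b3e_co.BS
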