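import Pool.Agent.Lib.MP_af2b3e_co.BSDesc

set_option autoImplicit false
set_option linter.unusedSectionVars false

/-! The chronological witness invariant for almost disjoint hypergraphs. -/

namespace Pool.Agent.Lib.MP_af2b3e_co.BS

open Finset

variable {V : Type} [DecidableEq V]

/-- Numerical and structural hypotheses. -/
structure Par (H : Finset (Finset V)) (n m n' w' g ν s l : ℕ) : Prop where
  card : ∀ e ∈ H, e.card = n
  lin : ∀ e ∈ H, ∀ f ∈ H, e ≠ f → (e ∩ f).card ≤ 1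
  nu2 : 2 ≤ ν
  nu4 : n + 4 ≤ 4 * ν
  sum : n' + w' + g + m + 1 = n
  poor : m + w' + g + 2 * ν ≤ n
  n1 : 1 ≤ n'
  w1 : 1 ≤ w'
  gl : g = 40 * l + 1
  lg : Nat.log 2 (s * n + 1) ≤ l
  s1 : 1 ≤ s

/-- Good, dangerous and active edges. -/
structure Base (H G D A : Finset (Finset V)) (ν : ℕ) : Prop where
  gd : G ⊆ D
  da : D ⊆ A
  ah : A ⊆ H
  poor : ∀ d ∈ D, d ∉ G → ν ≤ (d ∩ Un G).card
  link : ∀ x ∈ A, x ∉ D → ν ≤ (x ∩ Un D).card

/-- The value inequality of a description. -/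
def Ineq (n' w' g : ℕ) (N : Finset V → ℕ) (R : Finset V) (GK S Λ : Finset (Finset V))
    (sp debt : ℕ) : Prop :=
  cost n' w' N S Λ + sp + g * GK.card ≤
    (Un GK ∩ R).card + debt + 40 * (GK.card * Nat.log 2 GK.card)

/-- A description of the family `K` with good edges `GK`. -/
def Desc (H : Finset (Finset V)) (n' w' g : ℕ) (N : Finset V → ℕ) (R : Finset V)
    (GK K : Finset (Finset V)) (sp debt : ℕ) : Prop :=
  ∃ ρ S Λ, Valid H ρ S Λ ∧ GK ⊆ S ∧ S ⊆ K ∧ Ineq n' w' g N R GK S Λ sp debt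

/-- Every active edge lies in a small described component. -/
def Comps (H : Finset (Finset V)) (n' w' g s : ℕ) (R : Finset V) (G A : Finset (Finset V)) :
    Prop :=
  ∀ e ∈ A, ∃ K, e ∈ K ∧ Closed A K ∧ Conn K ∧ (G ∩ K).card < s ∧
    Desc H n' w' g (Nn A G) R (G ∩ K) K w' 0

/-- No description is a witness. -/
def NW (H : Finset (Finset V)) (n n' w' s : ℕ) (R : Finset V) (D : Finset (Finset V)) : Prop :=
  ∀ ρ S Λ G', Valid H ρ S Λ → S ⊆ H → G' ⊆ S → G' ⊆ D → S.card ≤ n * (s * n + 1) →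
    (Un G' ∩ R).card < n' * Λ.card + w' * (S \ Λ).card + s

variable {H G D A : Finset (Finset V)} {n m n' w' g ν s l : ℕ} {R : Finset V}

theorem Par.two (p : Par H n m n' w' g ν s l) : ∀ e ∈ H, 2 ≤ e.card := fun e he => by
  have := p.card e he; have := p.poor; have := p.nu2; omega

theorem Par.self (p : Par H n m n' w' g ν s l) : ∀ e ∈ H, ¬ Disjoint e e := fun e he h => by
  have := p.two e he
  rw [disjoint_self.1 h] at this
  simp at this

theorem meet_le_nn (p : Par H n m n' w' g ν s l) (b : Base H G D A ν) (x : Finset V) :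
    (G.filter fun y => ¬ Disjoint x y).card ≤ Nn A G x := by
  refine card_le_card fun y hy => ?_
  obtain ⟨h1, h2⟩ := mem_filter.1 hy
  have := b.da (b.gd h1)
  exact mem_filter.2 ⟨h1, y, this, h2, p.self y (b.ah this)⟩

theorem nn_core (p : Par H n m n' w' g ν s l) (b : Base H G D A ν) {x : Finset V} (hx : x ∈ H)
    (hxG : x ∉ G) : (x ∩ Un D).card ≤ Nn A G x ∨ ν ≤ Nn A G x := by
  have hGH : G ⊆ H := b.gd.trans (b.da.trans b.ah)
  by_cases h : ∃ d ∈ D, d ∉ G ∧ ¬ Disjoint x d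
  · obtain ⟨d, hd, hdG, hxd⟩ := h
    right
    refine (b.poor d hd hdG).trans ((card_inter_un p.lin (b.ah (b.da hd)) hGH hdG).trans
      (card_le_card fun y hy => ?_))
    exact mem_filter.2 ⟨(mem_filter.1 hy).1, d, b.da hd, hxd, (mem_filter.1 hy).2⟩
  · left
    refine le_trans (card_le_card fun q hq => ?_)
      ((card_inter_un p.lin hx hGH hxG).trans (meet_le_nn p b x))
    obtain ⟨d, hd, hqd⟩ := mem_un.1 (mem_inter.1 hq).2
    refine mem_inter.2 ⟨(mem_inter.1 hq).1, mem_un.2 ⟨d, ?_, hqd⟩⟩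
    by_contra hdG
    exact h ⟨d, hd, hdG, not_disjoint_iff.2 ⟨q, (mem_inter.1 hq).1, hqd⟩⟩

theorem nn_bad (p : Par H n m n' w' g ν s l) (b : Base H G D A ν) {x : Finset V} (hx : x ∈ A)
    (hxG : x ∉ G) : ν ≤ Nn A G x := by
  by_cases h : x ∈ D
  · exact (b.poor x h hxG).trans ((card_inter_un p.lin (b.ah hx)
      (b.gd.trans (b.da.trans b.ah)) hxG).trans (meet_le_nn p b x))
  · have := b.link x hx h
    rcases nn_core p b (b.ah hx) hxG with h | h <;> omega

theorem nn_closed (b : Base H G D A ν) {K : Finset (Finset V)} (hK : Closed A K) {x : Finset V}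
    (hx : x ∈ K) : (G.filter fun y => ∃ u ∈ A, ¬ Disjoint x u ∧ ¬ Disjoint u y) =
      (G ∩ K).filter fun y => ∃ u ∈ K, ¬ Disjoint x u ∧ ¬ Disjoint u y := by
  ext y
  simp only [mem_filter, mem_inter]
  constructor
  · rintro ⟨hy, u, hu, h1, h2⟩
    have huK := hK.2 u hu x hx fun h => h1 h.symm
    exact ⟨⟨hy, hK.2 y (b.da (b.gd hy)) u huK fun h => h2 h.symm⟩, u, huK, h1, h2⟩
  · rintro ⟨hy, u, hu, h⟩
    exact ⟨hy.1, u, hK.1 hu, h⟩

theorem touch_le (p : Par H n m n' w' g ν s l) (b : Base H G D A ν) {K : Finset (Finset V)}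
    (hK : Closed A K) {e : Finset V} (he : e ∈ H) (heK : e ∉ K) :
    (e ∩ Un K).card ≤ 4 * (G ∩ K).card := by
  by_cases h : K ⊆ G
  · have := (card_inter_un p.lin he (hK.1.trans b.ah) heK).trans (card_filter_le _ _)
    rw [inter_eq_right.2 h]
    omega
  · obtain ⟨x, hx, hxG⟩ := not_subset.1 h
    have h1 := nn_bad p b (hK.1 hx) hxG
    unfold Nn at h1
    rw [nn_closed b hK hx] at h1
    have h2 := h1.trans (card_filter_le _ _)
    have h3 := card_le_card (inter_subset_left : e ∩ Un K ⊆ e)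
    have := p.card e he
    have := p.nu4
    omega

theorem comp_sub_W2 (p : Par H n m n' w' g ν s l) (b : Base H G D A ν) {K S : Finset (Finset V)}
    (hK : Closed A K) (hS : G ∩ K ⊆ S) (hSH : S ⊆ H) : Un K ⊆ W2 H S := by
  have h1 : ∀ d ∈ D, d ∈ K → d ⊆ W1 H (Un S) := by
    intro d hd hdK
    by_cases hdG : d ∈ G
    · exact (sub_un (hS (mem_inter.2 ⟨hdG, hdK⟩))).trans (un_sub_W1 p.two hSH)
    · refine sub_W1 (b.ah (b.da hd)) (p.nu2.trans ((b.poor d hd hdG).trans
        (card_le_card fun q hq => ?_)))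
      obtain ⟨y, hy, hqy⟩ := mem_un.1 (mem_inter.1 hq).2
      exact mem_inter.2 ⟨(mem_inter.1 hq).1, mem_un.2 ⟨y, hS (mem_inter.2 ⟨hy,
        hK.2 y (b.da (b.gd hy)) d hdK (not_disjoint_iff.2 ⟨q, hqy, (mem_inter.1 hq).1⟩)⟩), hqy⟩⟩
  intro q hq
  obtain ⟨x, hx, hqx⟩ := mem_un.1 hq
  by_cases hxD : x ∈ D
  · exact un_sub_W1 p.two (filter_subset _ _) (h1 x hxD hx hqx)
  · refine sub_W1 (b.ah (hK.1 hx)) (p.nu2.trans ((b.link x (hK.1 hx) hxD).trans
      (card_le_card fun r hr => ?_))) hqx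
    obtain ⟨d, hd, hrd⟩ := mem_un.1 (mem_inter.1 hr).2
    exact mem_inter.2 ⟨(mem_inter.1 hr).1, h1 d hd (hK.2 d (b.da hd) x hx
      (not_disjoint_iff.2 ⟨r, hrd, (mem_inter.1 hr).1⟩)) hrd⟩

theorem reroot (p : Par H n m n' w' g ν s l) (b : Base H G D A ν) {K : Finset (Finset V)}
    (hK : Closed A K) (hc : Conn K) {ρ d : Finset V} {S Λ : Finset (Finset V)}
    (hv : Valid H ρ S Λ) (h1 : G ∩ K ⊆ S) (h2 : S ⊆ K) (hd : d ∈ K) :
    ∃ S' Λ', Valid H d S' Λ' ∧ G ∩ K ⊆ S' ∧ S' ⊆ K ∧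
      cost n' w' (Nn A G) S' Λ' ≤ cost n' w' (Nn A G) S Λ + 20 * (G ∩ K).card := by
  obtain ⟨P, hPK, hdP, hρP, hPc, hP5⟩ := exists_path hc (h2 (hv.2.1 hv.1)) hd
  have hKH : K ⊆ H := hK.1.trans b.ah
  refine ⟨P ∪ S, P ∪ Λ, valid_union p.two (hPK.trans hKH)
    (valid_conn p.two (hPK.trans hKH) hPc hdP) hv
    (fun h => p.self ρ (hKH (hPK hρP)) (h.mono_right (sub_un hρP))),
    h1.trans subset_union_right, union_subset hPK h2, (cost_path fun x hx hxS => ?_).trans ?_⟩
  · have := nn_bad p b (hK.1 (hPK hx)) fun h => hxS (h1 (mem_inter.2 ⟨h, hPK hx⟩))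
    have := p.nu4
    have := p.sum
    omega
  · have h3 : ∑ x ∈ P, Nn A G x ≤ (G ∩ K).card * 5 := by
      have e1 : ∑ x ∈ P, Nn A G x = ∑ x ∈ P, ∑ y ∈ G ∩ K,
          if ∃ u ∈ K, ¬ Disjoint x u ∧ ¬ Disjoint u y then 1 else 0 :=
        sum_congr rfl fun x hx => by
          unfold Nn
          rw [nn_closed b hK (hPK hx), card_filter]
      rw [e1, sum_comm]
      refine sum_le_card_nsmul _ _ 5 fun y hy => ?_
      rw [← card_filter]
      exact hP5 y (mem_inter.1 hy).2
    omega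

theorem small_of_nw (p : Par H n m n' w' g ν s l) {D' GK K : Finset (Finset V)}
    (nw : NW H n n' w' s R D') {N : Finset V → ℕ} {sp : ℕ} (hK : K ⊆ H) (hG : GK ⊆ D')
    (hd : Desc H n' w' g N R GK K sp 0) (hk : GK.card ≤ s * n + 1) : GK.card < s := by
  obtain ⟨ρ, S, Λ, hv, h1, h2, h3⟩ := hd
  by_contra hcon
  unfold Ineq at h3
  have a1 := cost_ge (n' := n') (w' := w') (N := N) hv.2.1
  have a2 : Nat.log 2 GK.card ≤ l := (Nat.log_mono_right hk).trans p.lg
  have a3 : GK.card * Nat.log 2 GK.card ≤ GK.card * l := Nat.mul_le_mul_left _ a2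
  have a4 : g * GK.card = 40 * (GK.card * l) + GK.card := by rw [p.gl]; ring
  have a5 : (Un GK ∩ R).card ≤ GK.card * n :=
    (card_le_card inter_subset_left).trans (card_biUnion_le_card_mul _ _ _
      fun e he => (p.card e (hK (h2 (h1 he)))).le)
  have a6 : Λ.card ≤ n' * Λ.card := Nat.le_mul_of_pos_left _ p.n1
  have a7 : (S \ Λ).card ≤ w' * (S \ Λ).card := Nat.le_mul_of_pos_left _ p.w1
  have a8 := card_sdiff_add_card_eq_card hv.2.1
  have a9 : GK.card * n ≤ n * (s * n + 1) := by rw [mul_comm]; exact Nat.mul_le_mul_left _ hk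
  have := nw ρ S Λ GK hv (h2.trans hK) h1 hG (by omega)
  omega

theorem Desc.mono {N N' : Finset V → ℕ} {R' : Finset V} {GK K K' : Finset (Finset V)}
    {sp debt : ℕ} (h : Desc H n' w' g N R GK K sp debt) (hN : ∀ x, N x ≤ N' x) (hR : R ⊆ R')
    (hK : K ⊆ K') : Desc H n' w' g N' R' GK K' sp debt := by
  obtain ⟨ρ, S, Λ, hv, h1, h2, h3⟩ := h
  refine ⟨ρ, S, Λ, hv, h1, h2.trans hK, ?_⟩
  unfold Ineq at h3 ⊢
  have := cost_mono (n' := n') (w' := w') hN S Λ
  have := card_le_card (inter_subset_inter (Subset.refl (Un GK)) hR)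
  omega

theorem merge (p : Par H n m n' w' g ν s l) (b : Base H G D A ν) (hc : Comps H n' w' g s R G A)
    {e : Finset V} (he : e ∈ H) (heA : e ∉ A) {G' D' : Finset (Finset V)} (hG : G ⊆ G')
    (hG' : G' ⊆ insert e G) (hGD : G' ⊆ D') (nw : NW H n n' w' s R D')
    {K₁ : Finset (Finset V)} (k1 : Closed A K₁) (k2 : Conn (insert e K₁))
    (k3 : (G ∩ K₁).card ≤ s * (e ∩ Un K₁).card)
    (hmax : ∀ d ∈ A, ¬ Disjoint d e → ∃ K, d ∈ K ∧ Closed A K ∧ Conn K ∧ (G ∩ K).card < s ∧
      Desc H n' w' g (Nn A G) R (G ∩ K) K w' 0 ∧ (G ∩ K).card ≤ (G ∩ K₁).card)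
    (k4 : ∃ ρ S Λ, Valid H ρ S Λ ∧ e ∈ S ∧ G' ∩ insert e K₁ ⊆ S ∧ S ⊆ insert e K₁ ∧
      Ineq n' w' g (Nn (insert e A) G') R (G' ∩ insert e K₁) S Λ 0
        (4 * ((e ∩ Un A) \ Un K₁).card))
    (k5 : Desc H n' w' g (Nn (insert e A) G') R (G' ∩ insert e K₁) (insert e K₁) w'
      (4 * ((e ∩ Un A) \ Un K₁).card)) :
    Comps H n' w' g s R G' (insert e A) := by
  have hN : ∀ x, Nn A G x ≤ Nn (insert e A) G' x := nn_mono (subset_insert _ _) hG
  have hGA : ∀ L ⊆ A, G' ∩ L = G ∩ L := fun L hL => by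
    ext x
    simp only [mem_inter]
    exact ⟨fun h => ⟨(mem_insert.1 (hG' h.1)).resolve_left fun g => heA (g ▸ hL h.2), h.2⟩,
      fun h => ⟨hG h.1, h.2⟩⟩
  have key : ∀ T : Finset (Finset V), (∀ d ∈ T, d ∈ A ∧ ¬ Disjoint d e) →
      ∃ K, T ⊆ K ∧ Closed A K ∧ K₁ ⊆ K ∧ Conn (insert e K) ∧
        (G ∩ K).card ≤ s * (e ∩ Un K).card ∧
        (∃ ρ S Λ, Valid H ρ S Λ ∧ e ∈ S ∧ G' ∩ insert e K ⊆ S ∧ S ⊆ insert e K ∧
          Ineq n' w' g (Nn (insert e A) G') R (G' ∩ insert e K) S Λ 0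
            (4 * ((e ∩ Un A) \ Un K).card)) ∧
        Desc H n' w' g (Nn (insert e A) G') R (G' ∩ insert e K) (insert e K) w'
          (4 * ((e ∩ Un A) \ Un K).card) := by
    intro T
    induction T using Finset.induction_on with
    | empty => exact fun _ => ⟨K₁, empty_subset _, k1, Subset.refl _, k2, k3, k4, k5⟩
    | insert d T _ ih =>
      intro hT
      obtain ⟨K, hTK, hK, hK1, hKc, hKs, h4, h5⟩ := ih fun a ha => hT a (mem_insert_of_mem ha)
      by_cases hdK : d ∈ K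
      · exact ⟨K, insert_subset hdK hTK, hK, hK1, hKc, hKs, h4, h5⟩
      obtain ⟨hdA, hde⟩ := hT d (mem_insert_self _ _)
      obtain ⟨L, hdL, hL, hLc, hLs, ⟨ρ', S₀, Λ₀, v0, a0, a1, a2⟩, hLm⟩ := hmax d hdA hde
      obtain ⟨S', Λ', v', b1, b2, b3⟩ := reroot p b hL hLc v0 a0 a1 hdL
      obtain ⟨ρ, S, Λ, v, heS, c1, c2, c3⟩ := h4
      have hKL : Disjoint K L := by
        rw [disjoint_left]
        intro x hxK hxL
        exact hdK (conn_sub hLc hL.1 hK hxL hxK hdL)
      have hUU : ∀ q, q ∈ Un K → q ∉ Un L := fun q h1 h2 => by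
        obtain ⟨x, hx, hqx⟩ := mem_un.1 h1
        obtain ⟨y, hy, hqy⟩ := mem_un.1 h2
        exact disjoint_left.1 hKL (hK.2 y (hL.1 hy) x hx (not_disjoint_iff.2 ⟨q, hqy, hqx⟩)) hy
      have heL : e ∉ L := fun h => heA (hL.1 h)
      have hdis : Disjoint (insert e K) L := disjoint_insert_left.2 ⟨heL, hKL⟩
      have hcl : Closed A (K ∪ L) := ⟨union_subset hK.1 hL.1, fun f hf a ha hfa => by
        rcases mem_union.1 ha with ha | ha
        · exact mem_union_left _ (hK.2 f hf a ha hfa)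
        · exact mem_union_right _ (hL.2 f hf a ha hfa)⟩
      have e1 : insert e (K ∪ L) = insert e K ∪ L := by rw [insert_union]
      have e2 : G' ∩ insert e (K ∪ L) = (G' ∩ insert e K) ∪ (G ∩ L) := by
        rw [e1, inter_union_distrib_left, hGA L hL.1]
      have e3 : Un (K ∪ L) = Un K ∪ Un L := by simp [Un, union_biUnion]
      have hdG : Disjoint (G' ∩ insert e K) (G ∩ L) :=
        hdis.mono inter_subset_right inter_subset_right
      have hx := touch_le p b hL he heL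
      have hineq : Ineq n' w' g (Nn (insert e A) G') R (G' ∩ insert e (K ∪ L)) (S ∪ S') (Λ ∪ Λ')
          w' (4 * ((e ∩ Un A) \ Un (K ∪ L)).card) := by
        unfold Ineq at a2 c3 ⊢
        rw [e2, cost_union (hdis.mono c2 b2) v.2.1 v'.2.1, card_union_of_disjoint hdG]
        have f1 := cost_mono (n' := n') (w' := w') hN S' Λ'
        have f2 : (G ∩ L).card ≤ (G' ∩ insert e K).card := hLm.trans (card_le_card
          (inter_subset_inter hG (hK1.trans (subset_insert _ _))))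
        have f3 := klog_add f2
        have f4 : (Un (G' ∩ insert e K) ∩ R).card + (Un (G ∩ L) ∩ R).card ≤
            (Un (G' ∩ insert e K ∪ G ∩ L) ∩ R).card + (e ∩ Un L).card := by
          rw [← card_union_add_card_inter]
          refine Nat.add_le_add (card_le_card (union_subset
            (inter_subset_inter (un_mono subset_union_left) (Subset.refl _))
            (inter_subset_inter (un_mono subset_union_right) (Subset.refl _))))
            (card_le_card fun q hq => ?_)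
          have q1 := un_mono inter_subset_right (mem_inter.1 (mem_inter.1 hq).1).1
          have q2 := un_mono inter_subset_right (mem_inter.1 (mem_inter.1 hq).2).1
          rw [un_insert] at q1
          exact mem_inter.2 ⟨(mem_union.1 q1).resolve_right fun h => hUU q h q2, q2⟩
        have f5 : ((e ∩ Un A) \ Un K).card ≤
            ((e ∩ Un A) \ Un (K ∪ L)).card + (e ∩ Un L).card := by
          refine le_trans (card_le_card fun q hq => ?_) (card_union_le _ _)
          rw [e3]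
          simp only [mem_sdiff, mem_inter, mem_union] at hq ⊢
          tauto
        rw [mul_add g]
        omega
      have hv := valid_union p.two (c2.trans (insert_subset he (hK.1.trans b.ah))) v v'
        fun h => hde (h.mono_right (sub_un heS))
      have s1 : G' ∩ insert e (K ∪ L) ⊆ S ∪ S' := by rw [e2]; exact union_subset_union c1 b1
      have s2 : S ∪ S' ⊆ insert e (K ∪ L) := by rw [e1]; exact union_subset_union c2 b2
      refine ⟨K ∪ L, insert_subset (mem_union_right _ hdL) (hTK.trans subset_union_left), hcl,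
        hK1.trans subset_union_left, ?_, ?_, ⟨ρ, _, _, hv, mem_union_left _ heS, s1, s2, ?_⟩,
        ⟨ρ, _, _, hv, s1, s2, hineq⟩⟩
      · rw [e1]
        exact conn_union hKc hLc (mem_insert_self _ _) hdL fun h => hde h.symm
      · have g1 : (e ∩ Un K).card + 1 ≤ (e ∩ Un (K ∪ L)).card := by
          obtain ⟨q, hqd, hqe⟩ := not_disjoint_iff.1 hde
          have hq : q ∈ Un L := sub_un hdL hqd
          rw [← card_insert_of_notMem (a := q) fun h => hUU q (mem_inter.1 h).2 hq]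
          refine card_le_card (insert_subset (mem_inter.2 ⟨hqe, un_mono subset_union_right hq⟩)
            (inter_subset_inter (Subset.refl _) (un_mono subset_union_left)))
        have g2 := card_union_le (G ∩ K) (G ∩ L)
        have g3 := Nat.mul_le_mul_left s g1
        rw [inter_union_distrib_left]
        rw [mul_add] at g3
        omega
      · unfold Ineq at hineq ⊢
        omega
  obtain ⟨K, hTK, hK, _, hKc, hKs, _, h5⟩ := key (A.filter fun d => ¬ Disjoint d e)
    fun d hd => mem_filter.1 hd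
  have hmeet : ∀ d ∈ A, ¬ Disjoint d e → d ∈ K := fun d hd h => hTK (mem_filter.2 ⟨hd, h⟩)
  have hL : Closed (insert e A) (insert e K) := by
    refine ⟨insert_subset_insert _ hK.1, fun f hf x hx hfx => ?_⟩
    rcases mem_insert.1 hf with hf' | hf'
    · rw [hf']; exact mem_insert_self _ _
    · rcases mem_insert.1 hx with hx' | hx'
      · exact mem_insert_of_mem (hmeet f hf' (hx' ▸ hfx))
      · exact mem_insert_of_mem (hK.2 f hf' x hx' hfx)
  have h0 : (e ∩ Un A) \ Un K = ∅ := by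
    rw [sdiff_eq_empty_iff_subset]
    intro q hq
    obtain ⟨d, hd, hqd⟩ := mem_un.1 (mem_inter.1 hq).2
    exact sub_un (hmeet d hd (not_disjoint_iff.2 ⟨q, hqd, (mem_inter.1 hq).1⟩)) hqd
  rw [h0, card_empty, mul_zero] at h5
  intro f hf
  by_cases hfL : f ∈ insert e K
  · refine ⟨_, hfL, hL, hKc, small_of_nw p nw (insert_subset he (hK.1.trans b.ah))
      (inter_subset_left.trans hGD) h5 ?_, h5⟩
    have g1 : G' ∩ insert e K ⊆ insert e (G ∩ K) := by
      intro x hx
      have x1 := mem_insert.1 (hG' (mem_inter.1 hx).1)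
      have x2 := mem_insert.1 (mem_inter.1 hx).2
      simp only [mem_insert, mem_inter]
      tauto
    have g2 := (card_le_card g1).trans (card_insert_le _ _)
    have g3 : (e ∩ Un K).card ≤ n := (card_le_card inter_subset_left).trans (p.card e he).le
    have g4 := Nat.mul_le_mul_left s g3
    omega
  · have hfe : f ≠ e := fun h => hfL (h ▸ mem_insert_self _ _)
    obtain ⟨L, hfL', hLc, hLn, hLs, hLd⟩ := hc f ((mem_insert.1 hf).resolve_left hfe)
    refine ⟨L, hfL', ⟨hLc.1.trans (subset_insert _ _), fun a ha x hx hax => ?_⟩, hLn, ?_, ?_⟩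
    · rcases mem_insert.1 ha with rfl | ha
      · have hxK := hmeet x (hLc.1 hx) fun h => hax h.symm
        exact absurd (mem_insert_of_mem (conn_sub hLn hLc.1 hK hx hxK hfL')) hfL
      · exact hLc.2 a ha x hx hax
    · rw [hGA L hLc.1]; exact hLs
    · rw [hGA L hLc.1]; exact hLd.mono hN (Subset.refl _) (Subset.refl _)

end Pool.Agent.Lib.MP_af2b3e_co.BS
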