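import Mathlib

-- part Pool.Agent.Lib.MP_af2b3e_co.Shearer
section

set_option autoImplicit false

/-!
The Shearer (independence) polynomial of a dependency graph, the region where it is positive
on all induced subgraphs, and a selection lemma: if random options change the weights only on
a clique and do not increase them on average, then some option stays in the region.
-/

namespace Pool.Agent.Lib.MP_af2b3e_co

open Finset

variable {ι : Type*} [DecidableEq ι]

/-- `I` is independent for `adj`. -/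
def Ind (adj : ι → ι → Prop) (I : Finset ι) : Prop :=
  ∀ a ∈ I, ∀ b ∈ I, a ≠ b → ¬ adj a b

open Classical in
/-- The alternating independence polynomial of the subgraph induced on `S`. -/
noncomputable def Q (adj : ι → ι → Prop) (S : Finset ι) (W : ι → ℝ) : ℝ :=
  ∑ I ∈ S.powerset, if Ind adj I then ∏ i ∈ I, (-W i) else 0

theorem Q_empty (adj : ι → ι → Prop) (W : ι → ℝ) : Q adj ∅ W = 1 := by
  simp [Q, Ind]

theorem Q_congr (adj : ι → ι → Prop) (S : Finset ι) (W W' : ι → ℝ)
    (h : ∀ i ∈ S, W i = W' i) : Q adj S W = Q adj S W' := by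
  unfold Q
  refine sum_congr rfl fun I hI => ?_
  have hI' : I ⊆ S := mem_powerset.1 hI
  split_ifs
  · exact prod_congr rfl fun i hi => by rw [h i (hI' hi)]
  · rfl

open Classical in
theorem Q_insert (adj : ι → ι → Prop) (hs : ∀ a b, adj a b → adj b a) (S : Finset ι) (e : ι)
    (he : e ∉ S) (W : ι → ℝ) :
    Q adj (insert e S) W = Q adj S W - W e * Q adj (S.filter fun f => ¬ adj e f) W := by
  unfold Q
  rw [sum_powerset_insert he, sub_eq_add_neg]
  congr 1
  have h1 : (S.filter fun f => ¬ adj e f).powerset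
      = S.powerset.filter fun I => ∀ f ∈ I, ¬ adj e f := by
    ext I
    simp only [mem_powerset, mem_filter]
    constructor
    · intro h
      exact ⟨fun x hx => (mem_filter.1 (h hx)).1, fun x hx => (mem_filter.1 (h hx)).2⟩
    · rintro ⟨h, h'⟩ x hx
      exact mem_filter.2 ⟨h hx, h' x hx⟩
  rw [h1, sum_filter, mul_sum, ← sum_neg_distrib]
  refine sum_congr rfl fun I hI => ?_
  have hI' : I ⊆ S := mem_powerset.1 hI
  have heI : e ∉ I := fun h => he (hI' h)
  have hiff : Ind adj (insert e I) ↔ (∀ f ∈ I, ¬ adj e f) ∧ Ind adj I := by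
    constructor
    · intro h
      refine ⟨fun f hf => h e (mem_insert_self _ _) f (mem_insert_of_mem hf) ?_, ?_⟩
      · rintro rfl; exact heI hf
      · intro a ha b hb hab
        exact h a (mem_insert_of_mem ha) b (mem_insert_of_mem hb) hab
    · rintro ⟨h, h'⟩ a ha b hb hab
      rcases mem_insert.1 ha with rfl | ha'
      · rcases mem_insert.1 hb with rfl | hb'
        · exact absurd rfl hab
        · exact h b hb'
      · rcases mem_insert.1 hb with rfl | hb'
        · exact fun hh => h a ha' (hs _ _ hh)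
        · exact h' a ha' b hb' hab
  by_cases h2 : ∀ f ∈ I, ¬ adj e f
  · by_cases h3 : Ind adj I
    · rw [if_pos (hiff.2 ⟨h2, h3⟩), if_pos h2, if_pos h3, prod_insert heI]; ring
    · rw [if_neg (fun h => h3 (hiff.1 h).2), if_pos h2, if_neg h3]; ring
  · rw [if_neg (fun h => h2 (hiff.1 h).1), if_neg h2]; ring

/-- The positivity region over the ground set `H`. -/
def InR (adj : ι → ι → Prop) (H : Finset ι) (W : ι → ℝ) : Prop :=
  (∀ i ∈ H, 0 ≤ W i) ∧ ∀ S ⊆ H, 0 < Q adj S W

theorem InR.lt_one {adj : ι → ι → Prop} (hs : ∀ a b, adj a b → adj b a) {H : Finset ι}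
    {W : ι → ℝ} (h : InR adj H W) {e : ι} (he : e ∈ H) : W e < 1 := by
  classical
  have h1 := h.2 {e} (by simpa using he)
  have h2 := Q_insert adj hs ∅ e (by simp) W
  simp only [insert_empty_eq, filter_empty, Q_empty] at h2
  linarith

/-- On the closure of the region the polynomial decreases when the set grows. -/
theorem Q_anti {adj : ι → ι → Prop} (hs : ∀ a b, adj a b → adj b a) {H : Finset ι}
    {W : ι → ℝ} (h0 : ∀ i ∈ H, 0 ≤ W i) (h : ∀ S ⊆ H, 0 ≤ Q adj S W) (S : Finset ι)
    (T : Finset ι) (hT : S ∪ T ⊆ H) : Q adj (S ∪ T) W ≤ Q adj S W := by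
  classical
  induction T using Finset.induction_on with
  | empty => simp
  | insert e T _ ih =>
    have hsub : S ∪ T ⊆ H := fun x hx => hT (by
      rcases mem_union.1 hx with h | h
      · exact mem_union_left _ h
      · exact mem_union_right _ (mem_insert_of_mem h))
    have heH : e ∈ H := hT (mem_union_right _ (mem_insert_self _ _))
    by_cases he : e ∈ S ∪ T
    · have : S ∪ insert e T = S ∪ T := by
        rw [union_insert, insert_eq_of_mem he]
      rw [this]; exact ih hsub
    · rw [union_insert, Q_insert adj hs _ e he]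
      have h1 : 0 ≤ Q adj ((S ∪ T).filter fun f => ¬ adj e f) W :=
        h _ ((filter_subset _ _).trans hsub)
      have h2 := mul_nonneg (h0 e heH) h1
      linarith [ih hsub]

theorem InR.update {adj : ι → ι → Prop} (hs : ∀ a b, adj a b → adj b a) {H : Finset ι}
    {W : ι → ℝ} (h : InR adj H W) (e : ι) (x : ℝ) (hx0 : 0 ≤ x) (hx : x ≤ W e) :
    InR adj H (Function.update W e x) := by
  classical
  refine ⟨fun i hi => ?_, fun S hS => ?_⟩
  · by_cases hie : i = e
    · subst hie; simpa using hx0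
    · rw [Function.update_of_ne hie]; exact h.1 i hi
  · by_cases he : e ∈ S
    · obtain ⟨S', hS', rfl⟩ : ∃ S', e ∉ S' ∧ S = insert e S' :=
        ⟨S.erase e, notMem_erase _ _, (insert_erase he).symm⟩
      have h1 := h.2 _ hS
      rw [Q_insert adj hs _ e hS'] at h1 ⊢
      have hc : ∀ T ⊆ S', Q adj T (Function.update W e x) = Q adj T W := fun T hT =>
        Q_congr adj T _ _ fun i hi => by
          have : i ≠ e := by rintro rfl; exact hS' (hT hi)
          rw [Function.update_of_ne this]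
      rw [hc _ (Subset.refl _), hc _ (filter_subset _ _), Function.update_self]
      have h2 : 0 < Q adj (S'.filter fun f => ¬ adj e f) W :=
        h.2 _ ((filter_subset _ _).trans ((subset_insert _ _).trans hS))
      nlinarith
    · rw [Q_congr adj S _ W fun i hi => by
        have : i ≠ e := by rintro rfl; exact he hi
        rw [Function.update_of_ne this]]
      exact h.2 S hS

/-- The region is down-closed. -/
theorem InR.mono {adj : ι → ι → Prop} (hs : ∀ a b, adj a b → adj b a) {H : Finset ι}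
    {W W' : ι → ℝ} (h : InR adj H W) (h0 : ∀ i ∈ H, 0 ≤ W' i) (hle : ∀ i ∈ H, W' i ≤ W i) :
    InR adj H W' := by
  classical
  have key : ∀ T ⊆ H, InR adj H (fun i => if i ∈ T then W' i else W i) := by
    intro T
    induction T using Finset.induction_on with
    | empty => intro _; simpa using h
    | insert e T heT ih =>
      intro hT
      have heH : e ∈ H := hT (mem_insert_self _ _)
      have h1 := (ih ((subset_insert _ _).trans hT)).update hs e (W' e) (h0 e heH)
        (by simpa [heT] using hle e heH)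
      convert h1 using 1
      funext i
      by_cases hie : i = e
      · subst hie; simp
      · rw [Function.update_of_ne hie]; simp [hie]
  have h2 := key H (Subset.refl _)
  refine ⟨h0, fun S hS => ?_⟩
  rw [Q_congr adj S W' (fun i => if i ∈ H then W' i else W i) fun i hi => by simp [hS hi]]
  exact h2.2 S hS

end Pool.Agent.Lib.MP_af2b3e_co
end

-- part Pool.Agent.Lib.MP_af2b3e_co.Select
section

set_option autoImplicit false
set_option linter.unusedSectionVars false

namespace Pool.Agent.Lib.MP_af2b3e_co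

open Finset

variable {ι : Type*} [DecidableEq ι]

/-- The polynomial is affine in the weights of a clique. -/
theorem Q_affine {κ : Type*} (adj : ι → ι → Prop) (S : Finset ι) (O : Finset κ) (ν : κ → ℝ)
    (hsum : ∑ o ∈ O, ν o = 1) (Wo : κ → ι → ℝ) (Wb : ι → ℝ) (K : ι → Prop)
    (hK : ∀ a ∈ S, ∀ b ∈ S, K a → K b → a ≠ b → adj a b)
    (hout : ∀ o ∈ O, ∀ i ∈ S, ¬ K i → Wo o i = Wb i)
    (havg : ∀ i ∈ S, ∑ o ∈ O, ν o * Wo o i = Wb i) :
    ∑ o ∈ O, ν o * Q adj S (Wo o) = Q adj S Wb := by
  classical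
  unfold Q
  simp_rw [mul_sum]
  rw [sum_comm]
  refine sum_congr rfl fun I hI => ?_
  have hI' : I ⊆ S := mem_powerset.1 hI
  by_cases hind : Ind adj I
  · simp only [if_pos hind]
    by_cases hex : ∃ k ∈ I, K k
    · obtain ⟨k, hk, hKk⟩ := hex
      have hrest : ∀ i ∈ I.erase k, ¬ K i := by
        intro i hi hKi
        have hik : i ≠ k := ne_of_mem_erase hi
        have hiI : i ∈ I := mem_of_mem_erase hi
        exact hind i hiI k hk hik (hK i (hI' hiI) k (hI' hk) hKi hKk hik)
      have h1 : ∀ o ∈ O, ν o * ∏ i ∈ I, (-Wo o i)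
          = (ν o * Wo o k) * (-∏ i ∈ I.erase k, (-Wb i)) := by
        intro o ho
        rw [← mul_prod_erase I _ hk, prod_congr rfl fun i hi =>
          (by rw [hout o ho i (hI' (mem_of_mem_erase hi)) (hrest i hi)] :
            -Wo o i = -Wb i)]
        ring
      rw [sum_congr rfl h1, ← sum_mul, havg k (hI' hk), ← mul_prod_erase I _ hk]
      ring
    · push Not at hex
      have h1 : ∀ o ∈ O, ν o * ∏ i ∈ I, (-Wo o i) = ν o * ∏ i ∈ I, (-Wb i) := by
        intro o ho
        rw [prod_congr rfl fun i hi =>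
          (by rw [hout o ho i (hI' hi) (hex i hi)] : -Wo o i = -Wb i)]
      rw [sum_congr rfl h1, ← sum_mul, hsum, one_mul]
  · simp [if_neg hind]

theorem Q_segment (adj : ι → ι → Prop) (S : Finset ι) (W W' : ι → ℝ) (K : ι → Prop)
    (hK : ∀ a ∈ S, ∀ b ∈ S, K a → K b → a ≠ b → adj a b)
    (hout : ∀ i ∈ S, ¬ K i → W' i = W i) (t : ℝ) :
    Q adj S (fun i => (1 - t) * W i + t * W' i) = (1 - t) * Q adj S W + t * Q adj S W' := by
  have := Q_affine adj S (Finset.univ : Finset Bool) (fun b => if b then t else 1 - t)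
    (by simp) (fun b => if b then W' else W) (fun i => (1 - t) * W i + t * W' i) K hK
    (by
      intro o _ i hi hKi
      cases o <;> simp [hout i hi hKi] <;> ring)
    (by intro i _; simp; ring)
  rw [← this]
  simp
  ring

/-- A change on a clique that keeps the full polynomial positive stays in the region. -/
theorem InR.ext {adj : ι → ι → Prop} (hs : ∀ a b, adj a b → adj b a) {H : Finset ι}
    {W W' : ι → ℝ} (h : InR adj H W) (h0 : ∀ i ∈ H, 0 ≤ W' i) (K : ι → Prop)
    (hK : ∀ a ∈ H, ∀ b ∈ H, K a → K b → a ≠ b → adj a b)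
    (hout : ∀ i ∈ H, ¬ K i → W' i = W i) (hpos : 0 < Q adj H W') : InR adj H W' := by
  classical
  refine ⟨h0, ?_⟩
  by_contra hcon
  push Not at hcon
  obtain ⟨S1, hS1, hS1'⟩ := hcon
  set bad := H.powerset.filter fun S => Q adj S W' ≤ 0 with hbad
  have hne : bad.Nonempty := ⟨S1, mem_filter.2 ⟨mem_powerset.2 hS1, hS1'⟩⟩
  obtain ⟨S0, hS0, hmin⟩ := exists_min_image bad
    (fun S => Q adj S W / (Q adj S W - Q adj S W')) hne
  have hS0H : S0 ⊆ H := mem_powerset.1 (mem_filter.1 hS0).1
  have hS0n : Q adj S0 W' ≤ 0 := (mem_filter.1 hS0).2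
  have hS0p : 0 < Q adj S0 W := h.2 _ hS0H
  set t := Q adj S0 W / (Q adj S0 W - Q adj S0 W') with ht
  have hden : 0 < Q adj S0 W - Q adj S0 W' := by linarith
  have ht0 : 0 < t := div_pos hS0p hden
  have ht1 : t ≤ 1 := by rw [ht, div_le_one hden]; linarith
  have hseg : ∀ S ⊆ H, Q adj S (fun i => (1 - t) * W i + t * W' i)
      = (1 - t) * Q adj S W + t * Q adj S W' := fun S hS =>
    Q_segment adj S W W' K (fun a ha b hb => hK a (hS ha) b (hS hb))
      (fun i hi => hout i (hS hi)) t
  have hnn : ∀ S ⊆ H, 0 ≤ Q adj S (fun i => (1 - t) * W i + t * W' i) := by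
    intro S hS
    rw [hseg S hS]
    have hp := h.2 S hS
    by_cases hb : Q adj S W' ≤ 0
    · have h1 := hmin S (mem_filter.2 ⟨mem_powerset.2 hS, hb⟩)
      have hd : 0 < Q adj S W - Q adj S W' := by linarith
      rw [le_div_iff₀ hd] at h1
      nlinarith
    · push Not at hb
      have : 0 ≤ 1 - t := by linarith
      positivity
  have hanti := Q_anti hs (H := H) (W := fun i => (1 - t) * W i + t * W' i)
    (fun i hi => by
      have := h.1 i hi
      have := h0 i hi
      have : 0 ≤ 1 - t := by linarith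
      positivity) hnn S0 H (union_subset hS0H (Subset.refl _))
  rw [union_eq_right.2 hS0H, hseg _ hS0H, hseg _ (Subset.refl _)] at hanti
  have hz : (1 - t) * Q adj S0 W + t * Q adj S0 W' = 0 := by
    have : t * (Q adj S0 W - Q adj S0 W') = Q adj S0 W := by
      rw [ht]; field_simp
    linarith
  have hH := h.2 H (Subset.refl _)
  have h1 : 0 ≤ (1 - t) * Q adj H W := mul_nonneg (by linarith) hH.le
  have h2 : 0 < t * Q adj H W' := mul_pos ht0 hpos
  linarith

/-- Selection lemma. -/
theorem InR.select {κ : Type*} {adj : ι → ι → Prop} (hs : ∀ a b, adj a b → adj b a)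
    {H : Finset ι} {W : ι → ℝ} (h : InR adj H W) (O : Finset κ) (ν : κ → ℝ)
    (hν : ∀ o ∈ O, 0 ≤ ν o) (hsum : ∑ o ∈ O, ν o = 1) (Wo : κ → ι → ℝ)
    (h0 : ∀ o ∈ O, ∀ i ∈ H, 0 ≤ Wo o i) (K : ι → Prop)
    (hK : ∀ a ∈ H, ∀ b ∈ H, K a → K b → a ≠ b → adj a b)
    (hout : ∀ o ∈ O, ∀ i ∈ H, ¬ K i → Wo o i = W i)
    (havg : ∀ i ∈ H, ∑ o ∈ O, ν o * Wo o i ≤ W i) : ∃ o ∈ O, InR adj H (Wo o) := by
  classical
  set Wb : ι → ℝ := fun i => ∑ o ∈ O, ν o * Wo o i with hWb
  have hb : InR adj H Wb := h.mono hs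
    (fun i hi => sum_nonneg fun o ho => mul_nonneg (hν o ho) (h0 o ho i hi)) havg
  have hout' : ∀ o ∈ O, ∀ i ∈ H, ¬ K i → Wo o i = Wb i := by
    intro o ho i hi hKi
    rw [hout o ho i hi hKi, hWb]
    simp only
    rw [sum_congr rfl fun o' ho' => by rw [hout o' ho' i hi hKi], ← sum_mul, hsum, one_mul]
  have haff := Q_affine adj H O ν hsum Wo Wb K hK hout' (fun i _ => rfl)
  have hpos := hb.2 H (Subset.refl _)
  have : ∃ o ∈ O, 0 < Q adj H (Wo o) := by
    by_contra hcon
    push Not at hcon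
    have : ∑ o ∈ O, ν o * Q adj H (Wo o) ≤ 0 :=
      sum_nonpos fun o ho => mul_nonpos_of_nonneg_of_nonpos (hν o ho) (hcon o ho)
    linarith
  obtain ⟨o, ho, hq⟩ := this
  exact ⟨o, ho, hb.ext hs (h0 o ho) K hK (hout' o ho) hq⟩

open Classical in
/-- Constant small weights lie in the region (the local lemma induction). -/
theorem InR_const {adj : ι → ι → Prop} (hs : ∀ a b, adj a b → adj b a) (H : Finset ι)
    (Δ : ℝ) (hΔ1 : 1 ≤ Δ) (hΔ : ∀ e ∈ H, ((H.filter fun f => adj e f).card : ℝ) ≤ Δ) :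
    InR adj H (fun _ => 1 / (4 * Δ)) := by
  set W : ι → ℝ := fun _ => 1 / (4 * Δ) with hW
  set x : ℝ := 1 / (2 * Δ) with hx
  have hx0 : 0 < x := by positivity
  have hx1 : x ≤ 1 / 2 := by
    rw [hx]; apply one_div_le_one_div_of_le <;> linarith
  have key : ∀ N : ℕ, ∀ S ⊆ H, S.card ≤ N →
      0 < Q adj S W ∧ ∀ e ∈ H, e ∉ S → (1 - x) * Q adj S W ≤ Q adj (insert e S) W := by
    intro N
    induction N with
    | zero =>
      intro S _ hS
      have : S = ∅ := card_eq_zero.1 (Nat.le_zero.1 hS)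
      subst this
      refine ⟨by simp [Q_empty], fun e _ he => ?_⟩
      rw [Q_insert adj hs _ e he]
      simp only [filter_empty, Q_empty, hW, hx]
      have : 1 / (4 * Δ) ≤ 1 / (2 * Δ) := by
        apply one_div_le_one_div_of_le <;> linarith
      linarith
    | succ N ih =>
      intro S hSH hS
      -- removing a set `T` from `S`
      have chain : ∀ T : Finset ι, ∀ U ⊆ H, U ∪ T ⊆ H → (U ∪ T).card ≤ N + 1 → Disjoint U T →
          0 < Q adj U W → (1 - x) ^ T.card * Q adj U W ≤ Q adj (U ∪ T) W := by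
        intro T
        induction T using Finset.induction_on with
        | empty => intro U _ _ _ _ _; simp
        | insert e T heT ihT =>
          intro U hU hUT hc hd hp
          have heU : e ∉ U := fun h => (disjoint_left.1 hd h) (mem_insert_self _ _)
          have he' : e ∉ U ∪ T := by simp [heU, heT]
          have hsub : U ∪ T ⊆ H := (union_subset_union (Subset.refl _)
            (subset_insert _ _)).trans hUT
          rw [union_insert, card_insert_of_notMem he'] at hc
          have h1 := ihT U hU hsub (by omega)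
            (hd.mono_right (subset_insert _ _)) hp
          have h2 := (ih (U ∪ T) hsub (by omega)).2 e
            (hUT (mem_union_right _ (mem_insert_self _ _))) he'
          rw [union_insert, card_insert_of_notMem heT, pow_succ]
          have : 0 ≤ 1 - x := by linarith
          nlinarith
      have hpos : ∀ U ⊆ S, 0 < Q adj U W := by
        intro U hU
        have h1 := chain U ∅ (empty_subset _) (by simpa using hU.trans hSH)
          (by simpa using (card_le_card hU).trans hS) (by simp) (by simp [Q_empty])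
        rw [Q_empty, empty_union] at h1
        have : 0 < (1 - x) ^ U.card := pow_pos (by linarith) _
        linarith
      refine ⟨hpos S (Subset.refl _), fun e heH he => ?_⟩
      rw [Q_insert adj hs _ e he]
      have hun : (S.filter fun f => ¬ adj e f) ∪ (S.filter fun f => adj e f) = S := by
        rw [union_comm]; exact filter_union_filter_not_eq _ _
      have hU := hpos _ (filter_subset (fun f => ¬ adj e f) S)
      have h1 := chain (S.filter fun f => adj e f) (S.filter fun f => ¬ adj e f)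
        ((filter_subset _ _).trans hSH) (by rw [hun]; exact hSH) (by rw [hun]; exact hS)
        (disjoint_filter_filter_not _ _ _).symm hU
      rw [hun] at h1
      have hc : (((S.filter fun f => adj e f).card : ℕ) : ℝ) ≤ Δ :=
        le_trans (by exact_mod_cast card_le_card (filter_subset_filter _ hSH)) (hΔ e heH)
      have hb : 1 + ((S.filter fun f => adj e f).card : ℝ) * (-x)
          ≤ (1 + -x) ^ (S.filter fun f => adj e f).card :=
        one_add_mul_le_pow (by linarith) _
      have hxΔ : Δ * x = 1 / 2 := by rw [hx]; field_simp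
      have h2 : (1 / 2 : ℝ) ≤ (1 - x) ^ (S.filter fun f => adj e f).card := by
        rw [sub_eq_add_neg]; nlinarith
      have h3 : W e = x / 2 := by rw [hW, hx]; field_simp; ring
      rw [h3]
      have h4 : (1 / 2 : ℝ) * Q adj (S.filter fun f => ¬ adj e f) W ≤ Q adj S W :=
        le_trans (mul_le_mul_of_nonneg_right h2 hU.le) h1
      nlinarith
  exact ⟨fun i _ => by rw [hW]; positivity, fun S hS => (key _ S hS le_rfl).1⟩

end Pool.Agent.Lib.MP_af2b3e_co
end

-- part Pool.Agent.Lib.MP_af2b3e_co.Inv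
section

set_option autoImplicit false
set_option linter.unusedSectionVars false

namespace Pool.Agent.Lib.MP_af2b3e_co

open Finset

variable {V : Type} [Fintype V] [DecidableEq V]

/-- Two edges are dependent if both meet the closed neighbourhood of a common point. -/
def adjE (H : Finset (Finset V)) (e f : Finset V) : Prop :=
  ∃ x : V, ∃ g ∈ H, ∃ g' ∈ H, x ∈ g ∧ x ∈ g' ∧ (∃ y ∈ e, y ∈ g) ∧ (∃ y ∈ f, y ∈ g')

theorem adjE_symm (H : Finset (Finset V)) (e f : Finset V) (h : adjE H e f) : adjE H f e := by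
  obtain ⟨x, g, hg, g', hg', h1, h2, h3, h4⟩ := h
  exact ⟨x, g', hg', g, hg, h2, h1, h4, h3⟩

theorem card_nbr (H : Finset (Finset V)) (D : ℝ)
    (hD : ∀ v : V, ((H.filter fun e => v ∈ e).card : ℝ) ≤ D) (T : Finset V) :
    ((T.biUnion fun v => H.filter fun e => v ∈ e).card : ℝ) ≤ T.card * D := by
  calc ((T.biUnion fun v => H.filter fun e => v ∈ e).card : ℝ)
      ≤ ((∑ v ∈ T, (H.filter fun e => v ∈ e).card : ℕ) : ℝ) := by
        exact_mod_cast card_biUnion_le
    _ = ∑ v ∈ T, ((H.filter fun e => v ∈ e).card : ℝ) := by push_cast; rfl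
    _ ≤ ∑ v ∈ T, D := sum_le_sum fun v _ => hD v
    _ = T.card * D := by simp

theorem card_pts (H : Finset (Finset V)) (n : ℕ) (hn : ∀ e ∈ H, e.card = n)
    (F : Finset (Finset V)) (hF : F ⊆ H) : ((F.biUnion id).card : ℝ) ≤ F.card * n := by
  have : (F.biUnion id).card ≤ F.card * n :=
    calc (F.biUnion id).card ≤ ∑ e ∈ F, (id e).card := card_biUnion_le
      _ = ∑ e ∈ F, n := sum_congr rfl fun e he => hn e (hF he)
      _ = F.card * n := by simp
  exact_mod_cast this

open Classical in
theorem card_adjE (H : Finset (Finset V)) (n : ℕ) (hn : ∀ e ∈ H, e.card = n) (D : ℝ)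
    (hD0 : 0 ≤ D) (hD : ∀ v : V, ((H.filter fun e => v ∈ e).card : ℝ) ≤ D) (e : Finset V)
    (he : e ∈ H) : ((H.filter fun f => adjE H e f).card : ℝ) ≤ (n * D) ^ 3 := by
  let N : Finset V → Finset (Finset V) := fun T => T.biUnion fun v => H.filter fun e => v ∈ e
  have hNH : ∀ T, N T ⊆ H := fun T f hf => by
    obtain ⟨v, _, hv⟩ := mem_biUnion.1 hf
    exact (mem_filter.1 hv).1
  have hsub : (H.filter fun f => adjE H e f) ⊆ N ((N ((N e).biUnion id)).biUnion id) := by
    intro f hf
    obtain ⟨hfH, x, g, hg, g', hg', h1, h2, ⟨y, hy, hyg⟩, ⟨z, hz, hzg⟩⟩ := mem_filter.1 hf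
    refine mem_biUnion.2 ⟨z, mem_biUnion.2 ⟨g', ?_, hzg⟩, mem_filter.2 ⟨hfH, hz⟩⟩
    refine mem_biUnion.2 ⟨x, mem_biUnion.2 ⟨g, ?_, h1⟩, mem_filter.2 ⟨hg', h2⟩⟩
    exact mem_biUnion.2 ⟨y, hy, mem_filter.2 ⟨hg, hyg⟩⟩
  have hn0 : (0 : ℝ) ≤ n := Nat.cast_nonneg _
  have step : ∀ (T : Finset V) (c : ℝ), (T.card : ℝ) ≤ c →
      (((N T).biUnion id).card : ℝ) ≤ c * D * n := by
    intro T c hc
    have h1 := card_pts H n hn (N T) (hNH T)
    have h2 := card_nbr H D hD T
    have h3 : (T.card : ℝ) * D ≤ c * D := mul_le_mul_of_nonneg_right hc hD0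
    exact h1.trans (mul_le_mul_of_nonneg_right (h2.trans h3) hn0)
  have h1 := step e n (by rw [hn e he])
  have h2 := step _ _ h1
  have h3 := card_nbr H D hD ((N ((N e).biUnion id)).biUnion id)
  calc ((H.filter fun f => adjE H e f).card : ℝ)
      ≤ ((N ((N ((N e).biUnion id)).biUnion id)).card : ℝ) := by
        exact_mod_cast card_le_card hsub
    _ ≤ (n * D * n * D * n) * D := h3.trans (mul_le_mul_of_nonneg_right h2 hD0)
    _ = (n * D) ^ 3 := by ring

/-- The invariant kept by the second player. -/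
structure Inv (H : Finset (Finset V)) (n : ℕ) (D p : ℝ) (M B : Finset V)
    (W A : Finset V → ℝ) (m : V → ℝ) : Prop where
  disj : Disjoint M B
  reg : InR (adjE H) H W
  m0 : ∀ v, 0 ≤ m v
  haz : ∀ e ∈ H, Disjoint e B → p * Real.exp (∑ y ∈ e, m y) ≤ W e
  cov : ∀ v, v ∉ M → v ∉ B →
    ∑ f ∈ H.filter (fun f => v ∈ f ∧ Disjoint f B), A f ≤ 1 + n * m v
  up : ∀ e ∈ H, Disjoint e B → A e ≤ 1 / D + ∑ y ∈ e, m y
  low : ∀ e ∈ H, Disjoint e B → 1 / D * ∏ w ∈ e ∩ M, (1 + 1 / (1 + n * m w)) ≤ A e

theorem Inv.pos {H : Finset (Finset V)} {n : ℕ} {D p : ℝ} {M B : Finset V}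
    {W A : Finset V → ℝ} {m : V → ℝ} (h : Inv H n D p M B W A m) (hD : 0 < D)
    (e : Finset V) (he : e ∈ H) (hal : Disjoint e B) : 0 < A e := by
  refine lt_of_lt_of_le ?_ (h.low e he hal)
  refine mul_pos (by positivity) (prod_pos fun w _ => ?_)
  have := h.m0 w
  positivity

theorem Inv.init (H : Finset (Finset V)) (n : ℕ) (hn1 : 1 ≤ n) (hn : ∀ e ∈ H, e.card = n)
    (D : ℝ) (hD1 : 1 ≤ D) (hD : ∀ v : V, ((H.filter fun e => v ∈ e).card : ℝ) ≤ D) :
    Inv H n D (1 / (4 * (n * D) ^ 3)) ∅ ∅ (fun _ => 1 / (4 * (n * D) ^ 3)) (fun _ => 1 / D)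
      (fun _ => 0) := by
  classical
  have hn1' : (1 : ℝ) ≤ n := by exact_mod_cast hn1
  have hnD : (1 : ℝ) ≤ n * D := by nlinarith
  refine ⟨by simp, ?_, fun _ => le_rfl, by simp, ?_, by simp, by simp⟩
  · have := InR_const (adjE_symm H) H ((n * D) ^ 3) (one_le_pow₀ hnD)
      (fun e he => by convert card_adjE H n hn D (by linarith) hD e he)
    exact this
  · intro v _ _
    simp only [disjoint_empty_right, and_true, sum_const, nsmul_eq_mul, mul_zero, add_zero]
    rw [mul_one_div, div_le_one (by linarith)]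
    exact hD v

/-- Alive edges keep at least two points that the first player does not own. -/
theorem Inv.card_le {H : Finset (Finset V)} {n : ℕ} {D p : ℝ} {M B : Finset V}
    {W A : Finset V → ℝ} {m : V → ℝ} (h : Inv H n D p M B W A m) (hn : ∀ e ∈ H, e.card = n)
    (hD : 0 < D) (hp : 0 < p) (L : ℝ) (hL : L = Real.log (1 / p))
    (hcond : (L + 2) * Real.log (1 + D * L) ≤ n - 2)
    (e : Finset V) (he : e ∈ H) (hal : Disjoint e B) : (e ∩ M).card + 2 ≤ n := by
  by_contra hcon
  push Not at hcon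
  have hk : (n : ℝ) - 1 ≤ ((e ∩ M).card : ℝ) := by
    have : n ≤ (e ∩ M).card + 1 := by omega
    have : (n : ℝ) ≤ (e ∩ M).card + 1 := by exact_mod_cast this
    linarith
  have hk' : ((e ∩ M).card : ℝ) ≤ n := by
    rw [← hn e he]; exact_mod_cast card_le_card inter_subset_left
  set σ := ∑ y ∈ e, m y with hσ
  have hσ0 : 0 ≤ σ := sum_nonneg fun y _ => h.m0 y
  have hσL : σ < L := by
    have h1 := lt_of_le_of_lt (h.haz e he hal) (h.reg.lt_one (adjE_symm H) he)
    rw [hL, Real.lt_log_iff_exp_lt (by positivity), lt_div_iff₀ hp]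
    linarith
  have hL0 : 0 < L := by linarith
  have hprod : ∏ w ∈ e ∩ M, (1 + 1 / (1 + n * m w)) < 1 + D * L := by
    have h1 := (h.low e he hal).trans (h.up e he hal)
    rw [one_div, inv_mul_le_iff₀ hD, mul_add, mul_inv_cancel₀ hD.ne'] at h1
    nlinarith
  have hn0 : (0 : ℝ) ≤ n := Nat.cast_nonneg _
  have hlog : ∑ w ∈ e ∩ M, Real.log (1 + 1 / (1 + n * m w)) < Real.log (1 + D * L) := by
    rw [← Real.log_prod (fun w _ => by have := h.m0 w; positivity)]
    exact Real.log_lt_log (prod_pos fun w _ => by have := h.m0 w; positivity) hprod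
  set c := L + 2 with hc
  have hc0 : 0 < c := by linarith
  have hterm : ∀ w ∈ e ∩ M, 2 / c - (2 + n * m w) / c ^ 2
      ≤ Real.log (1 + 1 / (1 + n * m w)) := by
    intro w _
    have hm := h.m0 w
    have hu : 0 < 1 + n * m w := by positivity
    have h1 : 1 / (2 + n * m w) ≤ Real.log (1 + 1 / (1 + n * m w)) := by
      have h2 := Real.one_sub_inv_le_log_of_pos (x := 1 + 1 / (1 + n * m w)) (by positivity)
      have h3 : 1 - (1 + 1 / (1 + n * m w))⁻¹ = 1 / (2 + n * m w) := by
        field_simp; ring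
      linarith
    refine le_trans ?_ h1
    have hu2 : 0 < 2 + n * m w := by positivity
    rw [div_sub_div _ _ hc0.ne' (by positivity), div_le_div_iff₀ (by positivity) hu2]
    nlinarith [sq_nonneg (c - (2 + n * m w)), mul_pos hc0 hc0]
  have hsum := sum_le_sum hterm
  rw [sum_sub_distrib, sum_const, nsmul_eq_mul, ← sum_div, sum_add_distrib, sum_const,
    nsmul_eq_mul, ← mul_sum] at hsum
  have hm : ∑ w ∈ e ∩ M, m w ≤ σ :=
    sum_le_sum_of_subset_of_nonneg inter_subset_left fun y _ _ => h.m0 y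
  have h5 : (((e ∩ M).card : ℝ) * 2 + n * ∑ w ∈ e ∩ M, m w) / c ^ 2 ≤ n / c := by
    rw [div_le_div_iff₀ (by positivity) hc0]
    have : ((e ∩ M).card : ℝ) * 2 + n * ∑ w ∈ e ∩ M, m w ≤ n * c := by
      rw [hc]; nlinarith
    nlinarith
  have h6 : (n - 1) * (2 / c) ≤ ((e ∩ M).card : ℝ) * (2 / c) :=
    mul_le_mul_of_nonneg_right hk (by positivity)
  have h7 : Real.log (1 + D * L) ≤ (n - 2) / c := by
    rw [le_div_iff₀ hc0]; linarith
  have h8 : (n - 1) * (2 / c) - n / c = (n - 2) / c := by field_simp; ring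
  linarith

end Pool.Agent.Lib.MP_af2b3e_co
end

-- part Pool.Agent.Lib.MP_af2b3e_co.Step
section

set_option autoImplicit false
set_option linter.unusedSectionVars false

namespace Pool.Agent.Lib.MP_af2b3e_co

open Finset

variable {V : Type} [Fintype V] [DecidableEq V]

theorem Inv.step_empty {H : Finset (Finset V)} {n : ℕ} {D p : ℝ} {M B : Finset V}
    {W A : Finset V → ℝ} {m : V → ℝ} (h : Inv H n D p M B W A m) (hD : 0 < D)
    (x : V) (hxB : x ∉ B) (hF : ∀ f ∈ H, x ∈ f → ¬ Disjoint f B)
    (y : V) (hy : y ∉ insert x M) : Inv H n D p (insert x M) (insert y B) W A m := by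
  have hal : ∀ e : Finset V, Disjoint e (insert y B) → Disjoint e B := fun e he =>
    he.mono_right (subset_insert _ _)
  refine ⟨?_, h.reg, h.m0, fun e he hd => h.haz e he (hal e hd), ?_,
    fun e he hd => h.up e he (hal e hd), fun e he hd => ?_⟩
  · rw [disjoint_insert_right, disjoint_insert_left]
    exact ⟨hy, hxB, h.disj⟩
  · intro v hv hv'
    refine le_trans ?_ (h.cov v (fun hh => hv (mem_insert_of_mem hh))
      (fun hh => hv' (mem_insert_of_mem hh)))
    refine sum_le_sum_of_subset_of_nonneg ?_ ?_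
    · intro f hf
      obtain ⟨h1, h2, h3⟩ := mem_filter.1 hf
      exact mem_filter.2 ⟨h1, h2, hal f h3⟩
    · intro f hf _
      obtain ⟨h1, _, h3⟩ := mem_filter.1 hf
      exact (h.pos hD f h1 h3).le
  · have hx : x ∉ e := fun hh => hF e he hh (hal e hd)
    rw [inter_insert_of_notMem hx]
    exact h.low e he (hal e hd)

theorem Inv.step {H : Finset (Finset V)} {n : ℕ} {D p : ℝ} {M B : Finset V}
    {W A : Finset V → ℝ} {m : V → ℝ} (h : Inv H n D p M B W A m) (hn : ∀ e ∈ H, e.card = n)
    (hD : 0 < D) (hp : 0 < p)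
    (hcard : ∀ e ∈ H, Disjoint e B → (e ∩ M).card + 2 ≤ n)
    (x : V) (hxM : x ∉ M) (hxB : x ∉ B) (hF : ∃ f ∈ H, x ∈ f ∧ Disjoint f B) :
    ∃ y, y ∉ insert x M ∧ y ∉ B ∧ ∃ W' A' m',
      Inv H n D p (insert x M) (insert y B) W' A' m' := by
  classical
  set F := H.filter (fun f => x ∈ f ∧ Disjoint f B) with hFdef
  have hFne : F.Nonempty := by
    obtain ⟨f, h1, h2⟩ := hF
    exact ⟨f, mem_filter.2 ⟨h1, h2⟩⟩
  have hFpos : ∀ f ∈ F, 0 < A f := fun f hf =>
    h.pos hD f (mem_filter.1 hf).1 (mem_filter.1 hf).2.2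
  set a := ∑ f ∈ F, A f with ha
  have ha0 : 0 < a := sum_pos hFpos hFne
  have hacov : a ≤ 1 + n * m x := h.cov x hxM hxB
  set fr : Finset V → Finset V := fun f => f \ insert x M with hfr
  have hfr0 : ∀ f ∈ F, 0 < (fr f).card := by
    intro f hf
    obtain ⟨h1, h2, h3⟩ := mem_filter.1 hf
    have h4 := hcard f h1 h3
    have h5 : (f \ insert x M).card + (f ∩ insert x M).card = f.card :=
      card_sdiff_add_card_inter _ _
    have h6 : (f ∩ insert x M).card ≤ (f ∩ M).card + 1 := by
      rw [inter_insert_of_mem h2]; exact card_insert_le _ _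
    have h7 := hn f h1
    simp only [hfr]
    omega
  have hfrn : ∀ f ∈ F, ((fr f).card : ℝ) ≤ n := by
    intro f hf
    rw [← hn f (mem_filter.1 hf).1]
    exact_mod_cast card_le_card sdiff_subset
  set r : Finset V → ℝ := fun f => A f / a / (fr f).card with hr
  have hr0 : ∀ f ∈ F, 0 < r f := fun f hf => by
    have := hFpos f hf
    have : (0 : ℝ) < (fr f).card := by exact_mod_cast hfr0 f hf
    simp only [hr]; positivity
  have hrc : ∀ f ∈ F, ((fr f).card : ℝ) * r f = A f / a := fun f hf => by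
    have : (0 : ℝ) < (fr f).card := by exact_mod_cast hfr0 f hf
    simp only [hr]; field_simp
  set ν : V → ℝ := fun y => ∑ f ∈ F, if y ∈ fr f then r f else 0 with hν
  have hν0 : ∀ y, 0 ≤ ν y := fun y => sum_nonneg fun f hf => by
    split_ifs
    · exact (hr0 f hf).le
    · exact le_rfl
  have hνsum : ∑ y, ν y = 1 := by
    simp only [hν]
    rw [sum_comm]
    have : ∀ f ∈ F, (∑ y, if y ∈ fr f then r f else 0) = A f / a := by
      intro f hf
      rw [← sum_filter, filter_mem_eq_inter, univ_inter, sum_const, nsmul_eq_mul, hrc f hf]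
    rw [sum_congr rfl this, ← sum_div, ← ha, div_self ha0.ne']
  have hνex : ∀ y, 0 < ν y → ∃ f ∈ F, y ∈ fr f := by
    intro y hy
    by_contra hcon
    push Not at hcon
    have : ν y = 0 := sum_eq_zero fun f hf => if_neg (hcon f hf)
    linarith
  have hνM : ∀ y ∈ insert x M, ν y = 0 := fun y hy =>
    sum_eq_zero fun f _ => if_neg fun hh => (mem_sdiff.1 hh).2 hy
  set O := univ.filter (fun y => 0 < ν y) with hO
  have hνO : ∀ y, y ∉ O → ν y = 0 := fun y hy => by
    have : ¬ 0 < ν y := fun hh => hy (mem_filter.2 ⟨mem_univ _, hh⟩)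
    linarith [hν0 y]
  have hOsum : ∑ y ∈ O, ν y = 1 := by
    rw [← hνsum]
    exact sum_subset (subset_univ _) fun y _ hy => hνO y hy
  set νe : Finset V → ℝ := fun e => ∑ y ∈ e, ν y with hνe
  have hνe0 : ∀ e, 0 ≤ νe e := fun e => sum_nonneg fun y _ => hν0 y
  have hνe1 : ∀ e, ∀ y ∈ O, y ∉ e → νe e < 1 := by
    intro e y hy hye
    have h1 : ∑ z ∈ insert y e, ν z ≤ ∑ z, ν z :=
      sum_le_sum_of_subset_of_nonneg (subset_univ _) fun z _ _ => hν0 z
    rw [sum_insert hye, hνsum] at h1
    have := (mem_filter.1 hy).2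
    simp only [hνe]
    linarith
  set Wo : V → Finset V → ℝ := fun y e => if y ∈ e then 0 else W e / (1 - νe e) with hWo
  obtain ⟨y, hyO, hreg⟩ := h.reg.select (adjE_symm H) O ν (fun o _ => hν0 o) hOsum Wo
    (by
      intro y hy e he
      simp only [hWo]
      split_ifs with hye
      · exact le_rfl
      · exact div_nonneg (h.reg.1 e he) (by linarith [hνe1 e y hy hye]))
    (fun e => ∃ y ∈ O, y ∈ e)
    (by
      rintro e _ e' _ ⟨y, hy, hye⟩ ⟨y', hy', hye'⟩ _
      obtain ⟨g, hg, hyg⟩ := hνex y (mem_filter.1 hy).2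
      obtain ⟨g', hg', hyg'⟩ := hνex y' (mem_filter.1 hy').2
      exact ⟨x, g, (mem_filter.1 hg).1, g', (mem_filter.1 hg').1, (mem_filter.1 hg).2.1,
        (mem_filter.1 hg').2.1, ⟨y, hye, (mem_sdiff.1 hyg).1⟩, ⟨y', hye', (mem_sdiff.1 hyg').1⟩⟩)
    (by
      intro y hy e _ hK
      push Not at hK
      have h1 : νe e = 0 := sum_eq_zero fun z hz => hνO z fun hh => hK z hh hz
      simp only [hWo, if_neg (hK y hy), h1, sub_zero, div_one])
    (by
      intro e he
      have h1 : ∑ y ∈ O, ν y * Wo y e = (1 - νe e) * (W e / (1 - νe e)) := by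
        have h2 : ∑ y ∈ O, ν y * Wo y e = ∑ y, ν y * Wo y e :=
          sum_subset (subset_univ _) fun y _ hy => by rw [hνO y hy, zero_mul]
        have h3 : ∀ y, ν y * Wo y e
            = (ν y - if y ∈ e then ν y else 0) * (W e / (1 - νe e)) := by
          intro y
          simp only [hWo]
          split_ifs <;> ring
        rw [h2, sum_congr rfl fun y _ => h3 y, ← sum_mul, sum_sub_distrib, hνsum, ← sum_filter,
          filter_mem_eq_inter, univ_inter]
      rw [h1]
      by_cases h4 : 1 - νe e = 0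
      · rw [h4, zero_mul]; exact h.reg.1 e he
      · rw [mul_div_cancel₀ _ h4])
  obtain ⟨g, hg, hyg⟩ := hνex y (mem_filter.1 hyO).2
  have hyM : y ∉ insert x M := (mem_sdiff.1 hyg).2
  have hyB : y ∉ B := disjoint_left.1 (mem_filter.1 hg).2.2 (mem_sdiff.1 hyg).1
  have hal : ∀ e : Finset V, Disjoint e (insert y B) → Disjoint e B := fun e he =>
    he.mono_right (subset_insert _ _)
  have hn0 : (0 : ℝ) ≤ n := Nat.cast_nonneg _
  refine ⟨y, hyM, hyB, Wo y, fun f => A f + if f ∈ F then A f / a else 0, fun v => m v + ν v,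
    ?_, hreg, fun v => add_nonneg (h.m0 v) (hν0 v), ?_, ?_, ?_, ?_⟩
  · rw [disjoint_insert_right, disjoint_insert_left]
    exact ⟨hyM, hxB, h.disj⟩
  · intro e he hd
    have hye : y ∉ e := fun hh => disjoint_left.1 hd hh (mem_insert_self _ _)
    have h1 := h.haz e he (hal e hd)
    have h2 := hνe1 e y hyO hye
    simp only [hWo, if_neg hye]
    rw [sum_add_distrib, Real.exp_add, le_div_iff₀ (by linarith)]
    have h3 : Real.exp (νe e) * (1 - νe e) ≤ 1 := by
      have h4 := Real.one_sub_le_exp_neg (νe e)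
      have h5 : Real.exp (νe e) * Real.exp (-νe e) = 1 := by rw [← Real.exp_add]; simp
      nlinarith [Real.exp_pos (νe e)]
    have h6 : 0 < p * Real.exp (∑ y ∈ e, m y) := by positivity
    calc p * (Real.exp (∑ y ∈ e, m y) * Real.exp (νe e)) * (1 - νe e)
        = p * Real.exp (∑ y ∈ e, m y) * (Real.exp (νe e) * (1 - νe e)) := by ring
      _ ≤ p * Real.exp (∑ y ∈ e, m y) * 1 := mul_le_mul_of_nonneg_left h3 h6.le
      _ ≤ W e := by linarith
  · intro v hv hv'
    have h1 := h.cov v (fun hh => hv (mem_insert_of_mem hh))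
      (fun hh => hv' (mem_insert_of_mem hh))
    have h2 : ∑ f ∈ H.filter (fun f => v ∈ f ∧ Disjoint f (insert y B)),
          (A f + if f ∈ F then A f / a else 0)
        ≤ ∑ f ∈ H.filter (fun f => v ∈ f ∧ Disjoint f B),
          (A f + if f ∈ F then A f / a else 0) := by
      refine sum_le_sum_of_subset_of_nonneg ?_ ?_
      · intro f hf
        obtain ⟨h1, h2, h3⟩ := mem_filter.1 hf
        exact mem_filter.2 ⟨h1, h2, hal f h3⟩
      · intro f hf _
        obtain ⟨h1, _, h3⟩ := mem_filter.1 hf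
        have := h.pos hD f h1 h3
        split_ifs <;> positivity
    have h3 : ∑ f ∈ H.filter (fun f => v ∈ f ∧ Disjoint f B), (if f ∈ F then A f / a else 0)
        ≤ n * ν v := by
      rw [← sum_filter]
      simp only [hν]
      rw [← sum_filter, mul_sum]
      refine le_trans (sum_le_sum_of_subset_of_nonneg (t := F.filter fun f => v ∈ fr f) ?_ ?_) ?_
      · intro f hf
        obtain ⟨h1, h2⟩ := mem_filter.1 hf
        exact mem_filter.2 ⟨h2, mem_sdiff.2 ⟨(mem_filter.1 h1).2.1, hv⟩⟩
      · intro f hf _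
        have := hFpos f (mem_filter.1 hf).1
        positivity
      · refine sum_le_sum fun f hf => ?_
        have hfF := (mem_filter.1 hf).1
        rw [← hrc f hfF]
        exact mul_le_mul_of_nonneg_right (hfrn f hfF) (hr0 f hfF).le
    refine h2.trans ?_
    rw [sum_add_distrib]
    linarith
  · intro e he hd
    have h1 := h.up e he (hal e hd)
    rw [sum_add_distrib]
    have h2 : (if e ∈ F then A e / a else 0) ≤ ∑ y ∈ e, ν y := by
      split_ifs with heF
      · rw [← hrc e heF, ← nsmul_eq_mul, ← sum_const]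
        refine le_trans (sum_le_sum fun z hz => ?_)
          (sum_le_sum_of_subset_of_nonneg (sdiff_subset (s := e) (t := insert x M))
            fun z _ _ => hν0 z)
        have := single_le_sum (f := fun f => if z ∈ fr f then r f else 0)
          (fun f hf => by
            split_ifs
            · exact (hr0 f hf).le
            · exact le_rfl) heF
        simp only [if_pos hz] at this
        exact this
      · exact hνe0 e
    linarith
  · intro e he hd
    have h1 := h.low e he (hal e hd)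
    have hpr : ∏ w ∈ e ∩ insert x M, (1 + 1 / (1 + n * (m w + ν w)))
        = ∏ w ∈ e ∩ insert x M, (1 + 1 / (1 + n * m w)) :=
      prod_congr rfl fun w hw => by rw [hνM w (mem_inter.1 hw).2, add_zero]
    rw [hpr]
    by_cases hx : x ∈ e
    · have heF : e ∈ F := mem_filter.2 ⟨he, hx, hal e hd⟩
      rw [if_pos heF, inter_insert_of_mem hx,
        prod_insert (fun hh => hxM (mem_inter.1 hh).2)]
      have h2 : 1 / (1 + n * m x) ≤ 1 / a := one_div_le_one_div_of_le ha0 hacov
      have h3 : 0 < 1 + 1 / (1 + n * m x) := by have := h.m0 x; positivity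
      have h4 := hFpos e heF
      calc 1 / D * ((1 + 1 / (1 + n * m x)) * ∏ w ∈ e ∩ M, (1 + 1 / (1 + n * m w)))
          = (1 + 1 / (1 + n * m x)) * (1 / D * ∏ w ∈ e ∩ M, (1 + 1 / (1 + n * m w))) := by ring
        _ ≤ (1 + 1 / (1 + n * m x)) * A e := mul_le_mul_of_nonneg_left h1 h3.le
        _ ≤ (1 + 1 / a) * A e := mul_le_mul_of_nonneg_right (by linarith) h4.le
        _ = A e + A e / a := by ring
    · have heF : e ∉ F := fun hh => hx (mem_filter.1 hh).2.1
      rw [if_neg heF, inter_insert_of_notMem hx, add_zero]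
      exact h1

/-- The finite criterion. -/
theorem breaker_wins (H : Finset (Finset V)) (n : ℕ) (hn1 : 1 ≤ n) (hn : ∀ e ∈ H, e.card = n)
    (D : ℝ) (hD1 : 1 ≤ D) (hD : ∀ v : V, ((H.filter fun e => v ∈ e).card : ℝ) ≤ D)
    (hcond : (Real.log (4 * (n * D) ^ 3) + 2) * Real.log (1 + D * Real.log (4 * (n * D) ^ 3))
      ≤ n - 2) :
    ∃ P : Set (Finset V × Finset V), ((∅ : Finset V), (∅ : Finset V)) ∈ P ∧
      ∀ M B : Finset V, (M, B) ∈ P → ∀ x : V, x ∉ M → x ∉ B →
        (∀ e ∈ H, ¬ e ⊆ insert x M) ∧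
        (insert x M ∪ B = Finset.univ ∨
          ∃ y : V, y ∉ insert x M ∧ y ∉ B ∧ (insert x M, insert y B) ∈ P) := by
  classical
  have hn1' : (1 : ℝ) ≤ n := by exact_mod_cast hn1
  have hD0 : 0 < D := by linarith
  have hp : 0 < 1 / (4 * (n * D) ^ 3) := by positivity
  refine ⟨{q | ∃ W A m, Inv H n D (1 / (4 * (n * D) ^ 3)) q.1 q.2 W A m},
    ⟨_, _, _, Inv.init H n hn1 hn D hD1 hD⟩, ?_⟩
  rintro M B ⟨W, A, m, h⟩ x hxM hxB
  have hcard := h.card_le hn hD0 hp (Real.log (4 * (n * D) ^ 3)) (by rw [one_div_one_div]) hcond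
  refine ⟨fun e he hsub => ?_, ?_⟩
  · have hal : Disjoint e B := by
      refine Disjoint.mono_left hsub ?_
      rw [disjoint_insert_left]
      exact ⟨hxB, h.disj⟩
    have h1 := hcard e he hal
    have h2 : e ⊆ insert x (e ∩ M) := fun z hz => by
      rcases mem_insert.1 (hsub hz) with rfl | hzM
      · exact mem_insert_self _ _
      · exact mem_insert_of_mem (mem_inter.2 ⟨hz, hzM⟩)
    have h3 := (card_le_card h2).trans (card_insert_le _ _)
    have h4 := hn e he
    simp only at h1
    omega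
  · by_cases hF : ∃ f ∈ H, x ∈ f ∧ Disjoint f B
    · obtain ⟨y, h1, h2, W', A', m', h3⟩ := h.step hn hD0 hp hcard x hxM hxB hF
      exact Or.inr ⟨y, h1, h2, W', A', m', h3⟩
    · push Not at hF
      by_cases hu : insert x M ∪ B = Finset.univ
      · exact Or.inl hu
      · obtain ⟨y, hy⟩ : ∃ y, y ∉ insert x M ∪ B := by
          by_contra hcon
          push Not at hcon
          exact hu (eq_univ_of_forall hcon)
        rw [mem_union, not_or] at hy
        exact Or.inr ⟨y, hy.1, hy.2, W, A, m, h.step_empty hD0 x hxB hF y hy.1⟩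

end Pool.Agent.Lib.MP_af2b3e_co
end
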